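import Pool.Agent.Gen.F5.X123C2Dm3.S000
import Pool.Agent.Gen.F5.X123C2Dm3.S001
import Pool.Agent.Gen.F5.X123C2Dm3.S002

set_option autoImplicit false
set_option maxRecDepth 100000

namespace Pool.Agent.Gen.F5.X123C2Dm3

open Pool.Agent.Helper72.F5

def n0 : Cl (O (nat_lit 3)) (R (nat_lit 139473))
    (p (nat_lit 0xb0014) (nat_lit 0) (p (nat_lit 0x20000c) (nat_lit 1) (p (nat_lit 0x200004) (nat_lit 0) (p (nat_lit 0xc1) (nat_lit 0) (p (nat_lit 0x81) (nat_lit 1) (p (nat_lit 0x101) (nat_lit 1) (p (nat_lit 0x111) (nat_lit 0) (p (nat_lit 0xd1) (nat_lit 1) (p (nat_lit 0x89) (nat_lit 0) (p (nat_lit 0x41) (nat_lit 0) (p (nat_lit 0x8b0a098a889a) (nat_lit 0) (p (nat_lit 0xa89890a081a) (nat_lit 0) (p (nat_lit 0x8a090888079a) (nat_lit 0) (p (nat_lit 0x9888807871a) (nat_lit 0) (p (nat_lit 0x80000800090788868a) (nat_lit 0) (p (nat_lit 0x80000800088706860a) (nat_lit 0) (p (nat_lit 0x8706878582) (nat_lit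 0) (p (nat_lit 0x686070502) (nat_lit 0) (p (nat_lit 0x8605850482) (nat_lit 0) (p (nat_lit 0x585048402) (nat_lit 0) (p (nat_lit 0x160014) (nat_lit 0) (p (nat_lit 0x60592) (nat_lit 0) (p (nat_lit 0x48512) (nat_lit 0) (p (nat_lit 0x50392) (nat_lit 0) (p (nat_lit 0x38312) (nat_lit 0) (p (nat_lit 0x40212) (nat_lit 0) (p (nat_lit 0x28192) (nat_lit 0) (p (nat_lit 0x30092) (nat_lit 0) (p (nat_lit 0x18012) (nat_lit 0) pn))))))))))))))))))))))))))))) :=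
  Cl.node (nat_lit 0x119) (nat_lit 2) (by decide +kernel) (ClAll.succ (ClAll.succ ClAll.zero s27) s28)

def n1 : Cl (O (nat_lit 3)) (R (nat_lit 139473))
    (p (nat_lit 0x20000c) (nat_lit 1) (p (nat_lit 0x200004) (nat_lit 0) (p (nat_lit 0xc1) (nat_lit 0) (p (nat_lit 0x81) (nat_lit 1) (p (nat_lit 0x101) (nat_lit 1) (p (nat_lit 0x111) (nat_lit 0) (p (nat_lit 0xd1) (nat_lit 1) (p (nat_lit 0x89) (nat_lit 0) (p (nat_lit 0x41) (nat_lit 0) (p (nat_lit 0x8b0a098a889a) (nat_lit 0) (p (nat_lit 0xa89890a081a) (nat_lit 0) (p (nat_lit 0x8a090888079a) (nat_lit 0) (p (nat_lit 0x9888807871a) (nat_lit 0) (p (nat_lit 0x80000800090788868a) (nat_lit 0) (p (nat_lit 0x80000800088706860a) (nat_lit 0) (p (nat_lit 0x8706878582) (nat_lit 0) (p (nat_lit 0x686070502) (nat_lit 0) (p (nat_lit 0x8605850482) (nat_lit 0) (p (nat_lit 0x585048402) (nat_lit 0) (p (nat_lit 0x160014) (nat_lit 0) (p (nat_lit 0x60592)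 (nat_lit 0) (p (nat_lit 0x48512) (nat_lit 0) (p (nat_lit 0x50392) (nat_lit 0) (p (nat_lit 0x38312) (nat_lit 0) (p (nat_lit 0x40212) (nat_lit 0) (p (nat_lit 0x28192) (nat_lit 0) (p (nat_lit 0x30092) (nat_lit 0) (p (nat_lit 0x18012) (nat_lit 0) pn)))))))))))))))))))))))))))) :=
  Cl.node (nat_lit 0xb0014) (nat_lit 2) (by decide +kernel) (ClAll.succ (ClAll.succ ClAll.zero n0) s29)

def n2 : Cl (O (nat_lit 3)) (R (nat_lit 139473))
    (p (nat_lit 0xb0014) (nat_lit 0) (p (nat_lit 0x200004) (nat_lit 1) (p (nat_lit 0x89) (nat_lit 0) (p (nat_lit 0x109) (nat_lit 1) (p (nat_lit 0x101) (nat_lit 0) (p (nat_lit 0x119) (nat_lit 0) (p (nat_lit 0xd1) (nat_lit 0) (p (nat_lit 0x81) (nat_lit 0) (p (nat_lit 0x41) (nat_lit 1) (p (nat_lit 0x8b0a098a889a) (nat_lit 0) (p (nat_lit 0xa89890a081a) (nat_lit 0) (p (nat_lit 0x8a090888079a) (nat_lit 0) (p (nat_lit 0x9888807871a) (nat_lit 0) (p (nat_lit 0x80000800090788868a)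 (nat_lit 0) (p (nat_lit 0x80000800088706860a) (nat_lit 0) (p (nat_lit 0x8706878582) (nat_lit 0) (p (nat_lit 0x686070502) (nat_lit 0) (p (nat_lit 0x8605850482) (nat_lit 0) (p (nat_lit 0x585048402) (nat_lit 0) (p (nat_lit 0x160014) (nat_lit 0) (p (nat_lit 0x60592) (nat_lit 0) (p (nat_lit 0x48512) (nat_lit 0) (p (nat_lit 0x50392) (nat_lit 0) (p (nat_lit 0x38312) (nat_lit 0) (p (nat_lit 0x40212) (nat_lit 0) (p (nat_lit 0x28192) (nat_lit 0) (p (nat_lit 0x30092) (nat_lit 0) (p (nat_lit 0x18012) (nat_lit 0) pn)))))))))))))))))))))))))))) :=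
  Cl.node (nat_lit 0x20000c) (nat_lit 2) (by decide +kernel) (ClAll.succ (ClAll.succ ClAll.zero s52) s53)

def n3 : Cl (O (nat_lit 3)) (R (nat_lit 139473))
    (p (nat_lit 0x200004) (nat_lit 0) (p (nat_lit 0x109) (nat_lit 1) (p (nat_lit 0x89) (nat_lit 1) (p (nat_lit 0x101) (nat_lit 0) (p (nat_lit 0xc1) (nat_lit 1) (p (nat_lit 0x119) (nat_lit 1) (p (nat_lit 0xd1) (nat_lit 0) (p (nat_lit 0x81) (nat_lit 0) (p (nat_lit 0x41) (nat_lit 1) (p (nat_lit 0x8b0a098a889a) (nat_lit 0) (p (nat_lit 0xa89890a081a) (nat_lit 0) (p (nat_lit 0x8a090888079a) (nat_lit 0) (p (nat_lit 0x9888807871a) (nat_lit 0) (p (nat_lit 0x80000800090788868a) (nat_lit 0) (p (nat_lit 0x80000800088706860a) (nat_lit 0) (p (nat_lit 0x8706878582) (nat_lit 0) (p (nat_lit 0x686070502) (nat_lit 0) (p (nat_lit 0x8605850482) (nat_lit 0) (p (nat_lit 0x585048402) (nat_lit 0) (p (nat_lit 0x160014) (nat_lit 0) (p (nat_lit 0x60592)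 (nat_lit 0) (p (nat_lit 0x48512) (nat_lit 0) (p (nat_lit 0x50392) (nat_lit 0) (p (nat_lit 0x38312) (nat_lit 0) (p (nat_lit 0x40212) (nat_lit 0) (p (nat_lit 0x28192) (nat_lit 0) (p (nat_lit 0x30092) (nat_lit 0) (p (nat_lit 0x18012) (nat_lit 0) pn)))))))))))))))))))))))))))) :=
  Cl.node (nat_lit 0x20000c) (nat_lit 2) (by decide +kernel) (ClAll.succ (ClAll.succ ClAll.zero s72) s73)

def n4 : Cl (O (nat_lit 3)) (R (nat_lit 139473))
    (p (nat_lit 0x20000c) (nat_lit 0) (p (nat_lit 0x200004) (nat_lit 0) (p (nat_lit 0x89) (nat_lit 1) (p (nat_lit 0x101) (nat_lit 1) (p (nat_lit 0xc1) (nat_lit 1) (p (nat_lit 0x119) (nat_lit 1) (p (nat_lit 0xd1) (nat_lit 0) (p (nat_lit 0x81) (nat_lit 0) (p (nat_lit 0x41) (nat_lit 1) (p (nat_lit 0x8b0a098a889a) (nat_lit 0) (p (nat_lit 0xa89890a081a) (nat_lit 0) (p (nat_lit 0x8a090888079a) (nat_lit 0) (p (nat_lit 0x9888807871a) (nat_lit 0) (p (nat_lit 0x80000800090788868a)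 (nat_lit 0) (p (nat_lit 0x80000800088706860a) (nat_lit 0) (p (nat_lit 0x8706878582) (nat_lit 0) (p (nat_lit 0x686070502) (nat_lit 0) (p (nat_lit 0x8605850482) (nat_lit 0) (p (nat_lit 0x585048402) (nat_lit 0) (p (nat_lit 0x160014) (nat_lit 0) (p (nat_lit 0x60592) (nat_lit 0) (p (nat_lit 0x48512) (nat_lit 0) (p (nat_lit 0x50392) (nat_lit 0) (p (nat_lit 0x38312) (nat_lit 0) (p (nat_lit 0x40212) (nat_lit 0) (p (nat_lit 0x28192) (nat_lit 0) (p (nat_lit 0x30092) (nat_lit 0) (p (nat_lit 0x18012) (nat_lit 0) pn)))))))))))))))))))))))))))) :=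
  Cl.node (nat_lit 0xb0014) (nat_lit 2) (by decide +kernel) (ClAll.succ (ClAll.succ ClAll.zero s77) s78)

def n5 : Cl (O (nat_lit 3)) (R (nat_lit 139473))
    (p (nat_lit 0x200004) (nat_lit 0) (p (nat_lit 0xc9) (nat_lit 0) (p (nat_lit 0x89) (nat_lit 1) (p (nat_lit 0x109) (nat_lit 1) (p (nat_lit 0x101) (nat_lit 0) (p (nat_lit 0x111) (nat_lit 0) (p (nat_lit 0xd1) (nat_lit 1) (p (nat_lit 0x81) (nat_lit 0) (p (nat_lit 0x41) (nat_lit 1) (p (nat_lit 0x8b0a098a889a) (nat_lit 0) (p (nat_lit 0xa89890a081a) (nat_lit 0) (p (nat_lit 0x8a090888079a) (nat_lit 0) (p (nat_lit 0x9888807871a) (nat_lit 0) (p (nat_lit 0x80000800090788868a) (nat_lit 0) (p (nat_lit 0x80000800088706860a) (nat_lit 0) (p (nat_lit 0x8706878582) (nat_lit 0) (p (nat_lit 0x686070502) (nat_lit 0) (p (nat_lit 0x8605850482) (nat_lit 0) (p (nat_lit 0x585048402) (nat_lit 0) (p (nat_lit 0x160014) (nat_lit 0) (p (nat_lit 0x60592) (nat_lit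 0) (p (nat_lit 0x48512) (nat_lit 0) (p (nat_lit 0x50392) (nat_lit 0) (p (nat_lit 0x38312) (nat_lit 0) (p (nat_lit 0x40212) (nat_lit 0) (p (nat_lit 0x28192) (nat_lit 0) (p (nat_lit 0x30092) (nat_lit 0) (p (nat_lit 0x18012) (nat_lit 0) pn)))))))))))))))))))))))))))) :=
  Cl.node (nat_lit 0x20000c) (nat_lit 2) (by decide +kernel) (ClAll.succ (ClAll.succ ClAll.zero s83) s84)

def n6 : Cl (O (nat_lit 3)) (R (nat_lit 139473))
    (p (nat_lit 0x20000c) (nat_lit 0) (p (nat_lit 0x200004) (nat_lit 0) (p (nat_lit 0x111) (nat_lit 1) (p (nat_lit 0xd1) (nat_lit 1) (p (nat_lit 0xc9) (nat_lit 0) (p (nat_lit 0x119) (nat_lit 1) (p (nat_lit 0xc1) (nat_lit 0) (p (nat_lit 0x81) (nat_lit 1) (p (nat_lit 0x41) (nat_lit 1) (p (nat_lit 0x8b0a098a889a) (nat_lit 0) (p (nat_lit 0xa89890a081a) (nat_lit 0) (p (nat_lit 0x8a090888079a) (nat_lit 0) (p (nat_lit 0x9888807871a) (nat_lit 0) (p (nat_lit 0x80000800090788868a)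 (nat_lit 0) (p (nat_lit 0x80000800088706860a) (nat_lit 0) (p (nat_lit 0x8706878582) (nat_lit 0) (p (nat_lit 0x686070502) (nat_lit 0) (p (nat_lit 0x8605850482) (nat_lit 0) (p (nat_lit 0x585048402) (nat_lit 0) (p (nat_lit 0x160014) (nat_lit 0) (p (nat_lit 0x60592) (nat_lit 0) (p (nat_lit 0x48512) (nat_lit 0) (p (nat_lit 0x50392) (nat_lit 0) (p (nat_lit 0x38312) (nat_lit 0) (p (nat_lit 0x40212) (nat_lit 0) (p (nat_lit 0x28192) (nat_lit 0) (p (nat_lit 0x30092) (nat_lit 0) (p (nat_lit 0x18012) (nat_lit 0) pn)))))))))))))))))))))))))))) :=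
  Cl.node (nat_lit 0xb0014) (nat_lit 2) (by decide +kernel) (ClAll.succ (ClAll.succ ClAll.zero s110) s111)

def n7 : Cl (O (nat_lit 3)) (R (nat_lit 139473))
    (p (nat_lit 0x200004) (nat_lit 0) (p (nat_lit 0xc9) (nat_lit 1) (p (nat_lit 0x81) (nat_lit 0) (p (nat_lit 0x101) (nat_lit 1) (p (nat_lit 0x119) (nat_lit 0) (p (nat_lit 0xd1) (nat_lit 0) (p (nat_lit 0x89) (nat_lit 0) (p (nat_lit 0x41) (nat_lit 0) (p (nat_lit 0x8b0a098a889a) (nat_lit 0) (p (nat_lit 0xa89890a081a) (nat_lit 0) (p (nat_lit 0x8a090888079a) (nat_lit 0) (p (nat_lit 0x9888807871a) (nat_lit 0) (p (nat_lit 0x80000800090788868a) (nat_lit 0) (p (nat_lit 0x80000800088706860a) (nat_lit 0) (p (nat_lit 0x8706878582) (nat_lit 0) (p (nat_lit 0x686070502) (nat_lit 0) (p (nat_lit 0x8605850482) (nat_lit 0) (p (nat_lit 0x585048402) (nat_lit 0) (p (nat_lit 0x160014) (nat_lit 0) (p (nat_lit 0x60592) (nat_lit 0) (p (nat_lit 0x48512)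 (nat_lit 0) (p (nat_lit 0x50392) (nat_lit 0) (p (nat_lit 0x38312) (nat_lit 0) (p (nat_lit 0x40212) (nat_lit 0) (p (nat_lit 0x28192) (nat_lit 0) (p (nat_lit 0x30092) (nat_lit 0) (p (nat_lit 0x18012) (nat_lit 0) pn))))))))))))))))))))))))))) :=
  Cl.node (nat_lit 0x20000c) (nat_lit 2) (by decide +kernel) (ClAll.succ (ClAll.succ ClAll.zero s5) s6)

def n8 : Cl (O (nat_lit 3)) (R (nat_lit 139473))
    (p (nat_lit 0xc9) (nat_lit 0) (p (nat_lit 0xc1) (nat_lit 0) (p (nat_lit 0x81) (nat_lit 1) (p (nat_lit 0x101) (nat_lit 1) (p (nat_lit 0x119) (nat_lit 0) (p (nat_lit 0xd1) (nat_lit 0) (p (nat_lit 0x89) (nat_lit 0) (p (nat_lit 0x41) (nat_lit 0) (p (nat_lit 0x8b0a098a889a) (nat_lit 0) (p (nat_lit 0xa89890a081a) (nat_lit 0) (p (nat_lit 0x8a090888079a) (nat_lit 0) (p (nat_lit 0x9888807871a) (nat_lit 0) (p (nat_lit 0x80000800090788868a) (nat_lit 0) (p (nat_lit 0x80000800088706860a) (nat_lit 0)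 (p (nat_lit 0x8706878582) (nat_lit 0) (p (nat_lit 0x686070502) (nat_lit 0) (p (nat_lit 0x8605850482) (nat_lit 0) (p (nat_lit 0x585048402) (nat_lit 0) (p (nat_lit 0x160014) (nat_lit 0) (p (nat_lit 0x60592) (nat_lit 0) (p (nat_lit 0x48512) (nat_lit 0) (p (nat_lit 0x50392) (nat_lit 0) (p (nat_lit 0x38312) (nat_lit 0) (p (nat_lit 0x40212) (nat_lit 0) (p (nat_lit 0x28192) (nat_lit 0) (p (nat_lit 0x30092) (nat_lit 0) (p (nat_lit 0x18012) (nat_lit 0) pn))))))))))))))))))))))))))) :=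
  Cl.node (nat_lit 0x200004) (nat_lit 2) (by decide +kernel) (ClAll.succ (ClAll.succ ClAll.zero s8) s9)

def n9 : Cl (O (nat_lit 3)) (R (nat_lit 139473))
    (p (nat_lit 0x200004) (nat_lit 0) (p (nat_lit 0xc1) (nat_lit 0) (p (nat_lit 0x81) (nat_lit 1) (p (nat_lit 0x101) (nat_lit 1) (p (nat_lit 0x111) (nat_lit 0) (p (nat_lit 0xd1) (nat_lit 1) (p (nat_lit 0x89) (nat_lit 0) (p (nat_lit 0x41) (nat_lit 0) (p (nat_lit 0x8b0a098a889a) (nat_lit 0) (p (nat_lit 0xa89890a081a) (nat_lit 0) (p (nat_lit 0x8a090888079a) (nat_lit 0) (p (nat_lit 0x9888807871a) (nat_lit 0) (p (nat_lit 0x80000800090788868a) (nat_lit 0) (p (nat_lit 0x80000800088706860a) (nat_lit 0) (p (nat_lit 0x8706878582) (nat_lit 0) (p (nat_lit 0x686070502) (nat_lit 0) (p (nat_lit 0x8605850482) (nat_lit 0) (p (nat_lit 0x585048402) (nat_lit 0) (p (nat_lit 0x160014) (nat_lit 0) (p (nat_lit 0x60592) (nat_lit 0) (p (nat_lit 0x48512)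 (nat_lit 0) (p (nat_lit 0x50392) (nat_lit 0) (p (nat_lit 0x38312) (nat_lit 0) (p (nat_lit 0x40212) (nat_lit 0) (p (nat_lit 0x28192) (nat_lit 0) (p (nat_lit 0x30092) (nat_lit 0) (p (nat_lit 0x18012) (nat_lit 0) pn))))))))))))))))))))))))))) :=
  Cl.node (nat_lit 0x20000c) (nat_lit 2) (by decide +kernel) (ClAll.succ (ClAll.succ ClAll.zero s26) n1)

def n10 : Cl (O (nat_lit 3)) (R (nat_lit 139473))
    (p (nat_lit 0x200004) (nat_lit 0) (p (nat_lit 0x89) (nat_lit 0) (p (nat_lit 0x109) (nat_lit 1) (p (nat_lit 0x101) (nat_lit 0) (p (nat_lit 0x119) (nat_lit 0) (p (nat_lit 0xd1) (nat_lit 0) (p (nat_lit 0x81) (nat_lit 0) (p (nat_lit 0x41) (nat_lit 1) (p (nat_lit 0x8b0a098a889a) (nat_lit 0) (p (nat_lit 0xa89890a081a) (nat_lit 0) (p (nat_lit 0x8a090888079a) (nat_lit 0) (p (nat_lit 0x9888807871a) (nat_lit 0) (p (nat_lit 0x80000800090788868a) (nat_lit 0) (p (nat_lit 0x80000800088706860a) (nat_lit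 0) (p (nat_lit 0x8706878582) (nat_lit 0) (p (nat_lit 0x686070502) (nat_lit 0) (p (nat_lit 0x8605850482) (nat_lit 0) (p (nat_lit 0x585048402) (nat_lit 0) (p (nat_lit 0x160014) (nat_lit 0) (p (nat_lit 0x60592) (nat_lit 0) (p (nat_lit 0x48512) (nat_lit 0) (p (nat_lit 0x50392) (nat_lit 0) (p (nat_lit 0x38312) (nat_lit 0) (p (nat_lit 0x40212) (nat_lit 0) (p (nat_lit 0x28192) (nat_lit 0) (p (nat_lit 0x30092) (nat_lit 0) (p (nat_lit 0x18012) (nat_lit 0) pn))))))))))))))))))))))))))) :=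
  Cl.node (nat_lit 0x20000c) (nat_lit 2) (by decide +kernel) (ClAll.succ (ClAll.succ ClAll.zero s50) s51)

def n11 : Cl (O (nat_lit 3)) (R (nat_lit 139473))
    (p (nat_lit 0x200004) (nat_lit 1) (p (nat_lit 0x89) (nat_lit 0) (p (nat_lit 0x109) (nat_lit 1) (p (nat_lit 0x101) (nat_lit 0) (p (nat_lit 0x119) (nat_lit 0) (p (nat_lit 0xd1) (nat_lit 0) (p (nat_lit 0x81) (nat_lit 0) (p (nat_lit 0x41) (nat_lit 1) (p (nat_lit 0x8b0a098a889a) (nat_lit 0) (p (nat_lit 0xa89890a081a) (nat_lit 0) (p (nat_lit 0x8a090888079a) (nat_lit 0) (p (nat_lit 0x9888807871a) (nat_lit 0) (p (nat_lit 0x80000800090788868a) (nat_lit 0) (p (nat_lit 0x80000800088706860a) (nat_lit 0) (p (nat_lit 0x8706878582) (nat_lit 0) (p (nat_lit 0x686070502) (nat_lit 0) (p (nat_lit 0x8605850482) (nat_lit 0) (p (nat_lit 0x585048402) (nat_lit 0) (p (nat_lit 0x160014) (nat_lit 0) (p (nat_lit 0x60592) (nat_lit 0) (p (nat_lit 0x48512)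 (nat_lit 0) (p (nat_lit 0x50392) (nat_lit 0) (p (nat_lit 0x38312) (nat_lit 0) (p (nat_lit 0x40212) (nat_lit 0) (p (nat_lit 0x28192) (nat_lit 0) (p (nat_lit 0x30092) (nat_lit 0) (p (nat_lit 0x18012) (nat_lit 0) pn))))))))))))))))))))))))))) :=
  Cl.node (nat_lit 0xb0014) (nat_lit 2) (by decide +kernel) (ClAll.succ (ClAll.succ ClAll.zero n2) s54)

def n12 : Cl (O (nat_lit 3)) (R (nat_lit 139473))
    (p (nat_lit 0x109) (nat_lit 1) (p (nat_lit 0x89) (nat_lit 1) (p (nat_lit 0xc9) (nat_lit 1) (p (nat_lit 0xc1) (nat_lit 0) (p (nat_lit 0x119) (nat_lit 1) (p (nat_lit 0xd1) (nat_lit 0) (p (nat_lit 0x81) (nat_lit 0) (p (nat_lit 0x41) (nat_lit 1) (p (nat_lit 0x8b0a098a889a) (nat_lit 0) (p (nat_lit 0xa89890a081a) (nat_lit 0) (p (nat_lit 0x8a090888079a) (nat_lit 0) (p (nat_lit 0x9888807871a) (nat_lit 0) (p (nat_lit 0x80000800090788868a) (nat_lit 0) (p (nat_lit 0x80000800088706860a) (nat_lit 0)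 (p (nat_lit 0x8706878582) (nat_lit 0) (p (nat_lit 0x686070502) (nat_lit 0) (p (nat_lit 0x8605850482) (nat_lit 0) (p (nat_lit 0x585048402) (nat_lit 0) (p (nat_lit 0x160014) (nat_lit 0) (p (nat_lit 0x60592) (nat_lit 0) (p (nat_lit 0x48512) (nat_lit 0) (p (nat_lit 0x50392) (nat_lit 0) (p (nat_lit 0x38312) (nat_lit 0) (p (nat_lit 0x40212) (nat_lit 0) (p (nat_lit 0x28192) (nat_lit 0) (p (nat_lit 0x30092) (nat_lit 0) (p (nat_lit 0x18012) (nat_lit 0) pn))))))))))))))))))))))))))) :=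
  Cl.node (nat_lit 0x200004) (nat_lit 2) (by decide +kernel) (ClAll.succ (ClAll.succ ClAll.zero s68) s69)

def n13 : Cl (O (nat_lit 3)) (R (nat_lit 139473))
    (p (nat_lit 0x109) (nat_lit 1) (p (nat_lit 0x89) (nat_lit 1) (p (nat_lit 0x101) (nat_lit 0) (p (nat_lit 0xc1) (nat_lit 1) (p (nat_lit 0x119) (nat_lit 1) (p (nat_lit 0xd1) (nat_lit 0) (p (nat_lit 0x81) (nat_lit 0) (p (nat_lit 0x41) (nat_lit 1) (p (nat_lit 0x8b0a098a889a) (nat_lit 0) (p (nat_lit 0xa89890a081a) (nat_lit 0) (p (nat_lit 0x8a090888079a) (nat_lit 0) (p (nat_lit 0x9888807871a) (nat_lit 0) (p (nat_lit 0x80000800090788868a) (nat_lit 0) (p (nat_lit 0x80000800088706860a) (nat_lit 0) (p (nat_lit 0x8706878582) (nat_lit 0) (p (nat_lit 0x686070502) (nat_lit 0) (p (nat_lit 0x8605850482) (nat_lit 0) (p (nat_lit 0x585048402) (nat_lit 0) (p (nat_lit 0x160014) (nat_lit 0) (p (nat_lit 0x60592) (nat_lit 0) (p (nat_lit 0x48512)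 (nat_lit 0) (p (nat_lit 0x50392) (nat_lit 0) (p (nat_lit 0x38312) (nat_lit 0) (p (nat_lit 0x40212) (nat_lit 0) (p (nat_lit 0x28192) (nat_lit 0) (p (nat_lit 0x30092) (nat_lit 0) (p (nat_lit 0x18012) (nat_lit 0) pn))))))))))))))))))))))))))) :=
  Cl.node (nat_lit 0x200004) (nat_lit 2) (by decide +kernel) (ClAll.succ (ClAll.succ ClAll.zero n3) s74)

def n14 : Cl (O (nat_lit 3)) (R (nat_lit 139473))
    (p (nat_lit 0x200004) (nat_lit 0) (p (nat_lit 0x89) (nat_lit 1) (p (nat_lit 0x101) (nat_lit 1) (p (nat_lit 0xc1) (nat_lit 1) (p (nat_lit 0x119) (nat_lit 1) (p (nat_lit 0xd1) (nat_lit 0) (p (nat_lit 0x81) (nat_lit 0) (p (nat_lit 0x41) (nat_lit 1) (p (nat_lit 0x8b0a098a889a) (nat_lit 0) (p (nat_lit 0xa89890a081a) (nat_lit 0) (p (nat_lit 0x8a090888079a) (nat_lit 0) (p (nat_lit 0x9888807871a) (nat_lit 0) (p (nat_lit 0x80000800090788868a) (nat_lit 0) (p (nat_lit 0x80000800088706860a) (nat_lit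 0) (p (nat_lit 0x8706878582) (nat_lit 0) (p (nat_lit 0x686070502) (nat_lit 0) (p (nat_lit 0x8605850482) (nat_lit 0) (p (nat_lit 0x585048402) (nat_lit 0) (p (nat_lit 0x160014) (nat_lit 0) (p (nat_lit 0x60592) (nat_lit 0) (p (nat_lit 0x48512) (nat_lit 0) (p (nat_lit 0x50392) (nat_lit 0) (p (nat_lit 0x38312) (nat_lit 0) (p (nat_lit 0x40212) (nat_lit 0) (p (nat_lit 0x28192) (nat_lit 0) (p (nat_lit 0x30092) (nat_lit 0) (p (nat_lit 0x18012) (nat_lit 0) pn))))))))))))))))))))))))))) :=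
  Cl.node (nat_lit 0x20000c) (nat_lit 2) (by decide +kernel) (ClAll.succ (ClAll.succ ClAll.zero n4) s79)

def n15 : Cl (O (nat_lit 3)) (R (nat_lit 139473))
    (p (nat_lit 0xc9) (nat_lit 0) (p (nat_lit 0x89) (nat_lit 1) (p (nat_lit 0x109) (nat_lit 1) (p (nat_lit 0x101) (nat_lit 0) (p (nat_lit 0x111) (nat_lit 0) (p (nat_lit 0xd1) (nat_lit 1) (p (nat_lit 0x81) (nat_lit 0) (p (nat_lit 0x41) (nat_lit 1) (p (nat_lit 0x8b0a098a889a) (nat_lit 0) (p (nat_lit 0xa89890a081a) (nat_lit 0) (p (nat_lit 0x8a090888079a) (nat_lit 0) (p (nat_lit 0x9888807871a) (nat_lit 0) (p (nat_lit 0x80000800090788868a) (nat_lit 0) (p (nat_lit 0x80000800088706860a) (nat_lit 0) (p (nat_lit 0x8706878582) (nat_lit 0) (p (nat_lit 0x686070502) (nat_lit 0) (p (nat_lit 0x8605850482) (nat_lit 0) (p (nat_lit 0x585048402) (nat_lit 0) (p (nat_lit 0x160014) (nat_lit 0) (p (nat_lit 0x60592) (nat_lit 0) (p (nat_lit 0x48512) (nat_lit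 0) (p (nat_lit 0x50392) (nat_lit 0) (p (nat_lit 0x38312) (nat_lit 0) (p (nat_lit 0x40212) (nat_lit 0) (p (nat_lit 0x28192) (nat_lit 0) (p (nat_lit 0x30092) (nat_lit 0) (p (nat_lit 0x18012) (nat_lit 0) pn))))))))))))))))))))))))))) :=
  Cl.node (nat_lit 0x200004) (nat_lit 2) (by decide +kernel) (ClAll.succ (ClAll.succ ClAll.zero n5) s85)

def n16 : Cl (O (nat_lit 3)) (R (nat_lit 139473))
    (p (nat_lit 0xd1) (nat_lit 1) (p (nat_lit 0x111) (nat_lit 1) (p (nat_lit 0x109) (nat_lit 0) (p (nat_lit 0x101) (nat_lit 0) (p (nat_lit 0x119) (nat_lit 0) (p (nat_lit 0xc1) (nat_lit 0) (p (nat_lit 0x81) (nat_lit 1) (p (nat_lit 0x41) (nat_lit 1) (p (nat_lit 0x8b0a098a889a) (nat_lit 0) (p (nat_lit 0xa89890a081a) (nat_lit 0) (p (nat_lit 0x8a090888079a) (nat_lit 0) (p (nat_lit 0x9888807871a) (nat_lit 0) (p (nat_lit 0x80000800090788868a) (nat_lit 0) (p (nat_lit 0x80000800088706860a) (nat_lit 0) (p (nat_lit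 0x8706878582) (nat_lit 0) (p (nat_lit 0x686070502) (nat_lit 0) (p (nat_lit 0x8605850482) (nat_lit 0) (p (nat_lit 0x585048402) (nat_lit 0) (p (nat_lit 0x160014) (nat_lit 0) (p (nat_lit 0x60592) (nat_lit 0) (p (nat_lit 0x48512) (nat_lit 0) (p (nat_lit 0x50392) (nat_lit 0) (p (nat_lit 0x38312) (nat_lit 0) (p (nat_lit 0x40212) (nat_lit 0) (p (nat_lit 0x28192) (nat_lit 0) (p (nat_lit 0x30092) (nat_lit 0) (p (nat_lit 0x18012) (nat_lit 0) pn))))))))))))))))))))))))))) :=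
  Cl.node (nat_lit 0x200004) (nat_lit 2) (by decide +kernel) (ClAll.succ (ClAll.succ ClAll.zero s97) s98)

def n17 : Cl (O (nat_lit 3)) (R (nat_lit 139473))
    (p (nat_lit 0xd1) (nat_lit 1) (p (nat_lit 0xc9) (nat_lit 0) (p (nat_lit 0x109) (nat_lit 1) (p (nat_lit 0x101) (nat_lit 0) (p (nat_lit 0x119) (nat_lit 0) (p (nat_lit 0xc1) (nat_lit 0) (p (nat_lit 0x81) (nat_lit 1) (p (nat_lit 0x41) (nat_lit 1) (p (nat_lit 0x8b0a098a889a) (nat_lit 0) (p (nat_lit 0xa89890a081a) (nat_lit 0) (p (nat_lit 0x8a090888079a) (nat_lit 0) (p (nat_lit 0x9888807871a) (nat_lit 0) (p (nat_lit 0x80000800090788868a) (nat_lit 0) (p (nat_lit 0x80000800088706860a) (nat_lit 0) (p (nat_lit 0x8706878582) (nat_lit 0) (p (nat_lit 0x686070502) (nat_lit 0) (p (nat_lit 0x8605850482) (nat_lit 0) (p (nat_lit 0x585048402) (nat_lit 0) (p (nat_lit 0x160014) (nat_lit 0) (p (nat_lit 0x60592) (nat_lit 0) (p (nat_lit 0x48512)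 (nat_lit 0) (p (nat_lit 0x50392) (nat_lit 0) (p (nat_lit 0x38312) (nat_lit 0) (p (nat_lit 0x40212) (nat_lit 0) (p (nat_lit 0x28192) (nat_lit 0) (p (nat_lit 0x30092) (nat_lit 0) (p (nat_lit 0x18012) (nat_lit 0) pn))))))))))))))))))))))))))) :=
  Cl.node (nat_lit 0x200004) (nat_lit 2) (by decide +kernel) (ClAll.succ (ClAll.succ ClAll.zero s100) s101)

def n18 : Cl (O (nat_lit 3)) (R (nat_lit 139473))
    (p (nat_lit 0x200004) (nat_lit 0) (p (nat_lit 0xd1) (nat_lit 1) (p (nat_lit 0xc9) (nat_lit 0) (p (nat_lit 0x101) (nat_lit 1) (p (nat_lit 0x119) (nat_lit 0) (p (nat_lit 0xc1) (nat_lit 0) (p (nat_lit 0x81) (nat_lit 1) (p (nat_lit 0x41) (nat_lit 1) (p (nat_lit 0x8b0a098a889a) (nat_lit 0) (p (nat_lit 0xa89890a081a) (nat_lit 0) (p (nat_lit 0x8a090888079a) (nat_lit 0) (p (nat_lit 0x9888807871a) (nat_lit 0) (p (nat_lit 0x80000800090788868a) (nat_lit 0) (p (nat_lit 0x80000800088706860a) (nat_lit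 0) (p (nat_lit 0x8706878582) (nat_lit 0) (p (nat_lit 0x686070502) (nat_lit 0) (p (nat_lit 0x8605850482) (nat_lit 0) (p (nat_lit 0x585048402) (nat_lit 0) (p (nat_lit 0x160014) (nat_lit 0) (p (nat_lit 0x60592) (nat_lit 0) (p (nat_lit 0x48512) (nat_lit 0) (p (nat_lit 0x50392) (nat_lit 0) (p (nat_lit 0x38312) (nat_lit 0) (p (nat_lit 0x40212) (nat_lit 0) (p (nat_lit 0x28192) (nat_lit 0) (p (nat_lit 0x30092) (nat_lit 0) (p (nat_lit 0x18012) (nat_lit 0) pn))))))))))))))))))))))))))) :=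
  Cl.node (nat_lit 0x20000c) (nat_lit 2) (by decide +kernel) (ClAll.succ (ClAll.succ ClAll.zero s104) s105)

def n19 : Cl (O (nat_lit 3)) (R (nat_lit 139473))
    (p (nat_lit 0x200004) (nat_lit 0) (p (nat_lit 0x111) (nat_lit 1) (p (nat_lit 0xd1) (nat_lit 1) (p (nat_lit 0xc9) (nat_lit 0) (p (nat_lit 0x119) (nat_lit 1) (p (nat_lit 0xc1) (nat_lit 0) (p (nat_lit 0x81) (nat_lit 1) (p (nat_lit 0x41) (nat_lit 1) (p (nat_lit 0x8b0a098a889a) (nat_lit 0) (p (nat_lit 0xa89890a081a) (nat_lit 0) (p (nat_lit 0x8a090888079a) (nat_lit 0) (p (nat_lit 0x9888807871a) (nat_lit 0) (p (nat_lit 0x80000800090788868a) (nat_lit 0) (p (nat_lit 0x80000800088706860a) (nat_lit 0) (p (nat_lit 0x8706878582) (nat_lit 0) (p (nat_lit 0x686070502) (nat_lit 0) (p (nat_lit 0x8605850482) (nat_lit 0) (p (nat_lit 0x585048402) (nat_lit 0) (p (nat_lit 0x160014) (nat_lit 0) (p (nat_lit 0x60592) (nat_lit 0) (p (nat_lit 0x48512)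 (nat_lit 0) (p (nat_lit 0x50392) (nat_lit 0) (p (nat_lit 0x38312) (nat_lit 0) (p (nat_lit 0x40212) (nat_lit 0) (p (nat_lit 0x28192) (nat_lit 0) (p (nat_lit 0x30092) (nat_lit 0) (p (nat_lit 0x18012) (nat_lit 0) pn))))))))))))))))))))))))))) :=
  Cl.node (nat_lit 0x20000c) (nat_lit 2) (by decide +kernel) (ClAll.succ (ClAll.succ ClAll.zero n6) s112)

def n20 : Cl (O (nat_lit 3)) (R (nat_lit 139473))
    (p (nat_lit 0x200004) (nat_lit 0) (p (nat_lit 0x111) (nat_lit 1) (p (nat_lit 0x109) (nat_lit 0) (p (nat_lit 0xc9) (nat_lit 1) (p (nat_lit 0x119) (nat_lit 1) (p (nat_lit 0xc1) (nat_lit 0) (p (nat_lit 0x81) (nat_lit 1) (p (nat_lit 0x41) (nat_lit 1) (p (nat_lit 0x8b0a098a889a) (nat_lit 0) (p (nat_lit 0xa89890a081a) (nat_lit 0) (p (nat_lit 0x8a090888079a) (nat_lit 0) (p (nat_lit 0x9888807871a) (nat_lit 0) (p (nat_lit 0x80000800090788868a) (nat_lit 0) (p (nat_lit 0x80000800088706860a) (nat_lit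 0) (p (nat_lit 0x8706878582) (nat_lit 0) (p (nat_lit 0x686070502) (nat_lit 0) (p (nat_lit 0x8605850482) (nat_lit 0) (p (nat_lit 0x585048402) (nat_lit 0) (p (nat_lit 0x160014) (nat_lit 0) (p (nat_lit 0x60592) (nat_lit 0) (p (nat_lit 0x48512) (nat_lit 0) (p (nat_lit 0x50392) (nat_lit 0) (p (nat_lit 0x38312) (nat_lit 0) (p (nat_lit 0x40212) (nat_lit 0) (p (nat_lit 0x28192) (nat_lit 0) (p (nat_lit 0x30092) (nat_lit 0) (p (nat_lit 0x18012) (nat_lit 0) pn))))))))))))))))))))))))))) :=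
  Cl.node (nat_lit 0x20000c) (nat_lit 2) (by decide +kernel) (ClAll.succ (ClAll.succ ClAll.zero s115) s116)

def n21 : Cl (O (nat_lit 3)) (R (nat_lit 139473))
    (p (nat_lit 0xc9) (nat_lit 1) (p (nat_lit 0x109) (nat_lit 1) (p (nat_lit 0x101) (nat_lit 0) (p (nat_lit 0x119) (nat_lit 0) (p (nat_lit 0xd1) (nat_lit 0) (p (nat_lit 0x89) (nat_lit 0) (p (nat_lit 0x41) (nat_lit 0) (p (nat_lit 0x8b0a098a889a) (nat_lit 0) (p (nat_lit 0xa89890a081a) (nat_lit 0) (p (nat_lit 0x8a090888079a) (nat_lit 0) (p (nat_lit 0x9888807871a) (nat_lit 0) (p (nat_lit 0x80000800090788868a) (nat_lit 0) (p (nat_lit 0x80000800088706860a) (nat_lit 0) (p (nat_lit 0x8706878582) (nat_lit 0) (p (nat_lit 0x686070502) (nat_lit 0) (p (nat_lit 0x8605850482) (nat_lit 0) (p (nat_lit 0x585048402) (nat_lit 0) (p (nat_lit 0x160014) (nat_lit 0) (p (nat_lit 0x60592) (nat_lit 0) (p (nat_lit 0x48512) (nat_lit 0) (p (nat_lit 0x50392)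 (nat_lit 0) (p (nat_lit 0x38312) (nat_lit 0) (p (nat_lit 0x40212) (nat_lit 0) (p (nat_lit 0x28192) (nat_lit 0) (p (nat_lit 0x30092) (nat_lit 0) (p (nat_lit 0x18012) (nat_lit 0) pn)))))))))))))))))))))))))) :=
  Cl.node (nat_lit 0x200004) (nat_lit 2) (by decide +kernel) (ClAll.succ (ClAll.succ ClAll.zero s2) s3)

def n22 : Cl (O (nat_lit 3)) (R (nat_lit 139473))
    (p (nat_lit 0xc9) (nat_lit 1) (p (nat_lit 0x81) (nat_lit 0) (p (nat_lit 0x101) (nat_lit 1) (p (nat_lit 0x119) (nat_lit 0) (p (nat_lit 0xd1) (nat_lit 0) (p (nat_lit 0x89) (nat_lit 0) (p (nat_lit 0x41) (nat_lit 0) (p (nat_lit 0x8b0a098a889a) (nat_lit 0) (p (nat_lit 0xa89890a081a) (nat_lit 0) (p (nat_lit 0x8a090888079a) (nat_lit 0) (p (nat_lit 0x9888807871a) (nat_lit 0) (p (nat_lit 0x80000800090788868a) (nat_lit 0) (p (nat_lit 0x80000800088706860a) (nat_lit 0) (p (nat_lit 0x8706878582) (nat_lit 0) (p (nat_lit 0x686070502)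 (nat_lit 0) (p (nat_lit 0x8605850482) (nat_lit 0) (p (nat_lit 0x585048402) (nat_lit 0) (p (nat_lit 0x160014) (nat_lit 0) (p (nat_lit 0x60592) (nat_lit 0) (p (nat_lit 0x48512) (nat_lit 0) (p (nat_lit 0x50392) (nat_lit 0) (p (nat_lit 0x38312) (nat_lit 0) (p (nat_lit 0x40212) (nat_lit 0) (p (nat_lit 0x28192) (nat_lit 0) (p (nat_lit 0x30092) (nat_lit 0) (p (nat_lit 0x18012) (nat_lit 0) pn)))))))))))))))))))))))))) :=
  Cl.node (nat_lit 0x200004) (nat_lit 2) (by decide +kernel) (ClAll.succ (ClAll.succ ClAll.zero n7) s7)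

def n23 : Cl (O (nat_lit 3)) (R (nat_lit 139473))
    (p (nat_lit 0xc1) (nat_lit 0) (p (nat_lit 0x81) (nat_lit 1) (p (nat_lit 0x101) (nat_lit 1) (p (nat_lit 0x119) (nat_lit 0) (p (nat_lit 0xd1) (nat_lit 0) (p (nat_lit 0x89) (nat_lit 0) (p (nat_lit 0x41) (nat_lit 0) (p (nat_lit 0x8b0a098a889a) (nat_lit 0) (p (nat_lit 0xa89890a081a) (nat_lit 0) (p (nat_lit 0x8a090888079a) (nat_lit 0) (p (nat_lit 0x9888807871a) (nat_lit 0) (p (nat_lit 0x80000800090788868a) (nat_lit 0) (p (nat_lit 0x80000800088706860a) (nat_lit 0) (p (nat_lit 0x8706878582) (nat_lit 0) (p (nat_lit 0x686070502) (nat_lit 0) (p (nat_lit 0x8605850482) (nat_lit 0) (p (nat_lit 0x585048402) (nat_lit 0) (p (nat_lit 0x160014) (nat_lit 0) (p (nat_lit 0x60592) (nat_lit 0) (p (nat_lit 0x48512) (nat_lit 0) (p (nat_lit 0x50392) (nat_lit 0) (p (nat_lit 0x38312) (nat_lit 0) (p (nat_lit 0x40212) (nat_lit 0) (p (nat_lit 0x28192) (nat_lit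 0) (p (nat_lit 0x30092) (nat_lit 0) (p (nat_lit 0x18012) (nat_lit 0) pn)))))))))))))))))))))))))) :=
  Cl.node (nat_lit 0xc9) (nat_lit 2) (by decide +kernel) (ClAll.succ (ClAll.succ ClAll.zero n8) s10)

def n24 : Cl (O (nat_lit 3)) (R (nat_lit 139473))
    (p (nat_lit 0x109) (nat_lit 1) (p (nat_lit 0xc9) (nat_lit 1) (p (nat_lit 0xc1) (nat_lit 0) (p (nat_lit 0x119) (nat_lit 1) (p (nat_lit 0xd1) (nat_lit 0) (p (nat_lit 0x89) (nat_lit 0) (p (nat_lit 0x41) (nat_lit 0) (p (nat_lit 0x8b0a098a889a) (nat_lit 0) (p (nat_lit 0xa89890a081a) (nat_lit 0) (p (nat_lit 0x8a090888079a) (nat_lit 0) (p (nat_lit 0x9888807871a) (nat_lit 0) (p (nat_lit 0x80000800090788868a) (nat_lit 0) (p (nat_lit 0x80000800088706860a) (nat_lit 0) (p (nat_lit 0x8706878582) (nat_lit 0) (p (nat_lit 0x686070502) (nat_lit 0) (p (nat_lit 0x8605850482) (nat_lit 0) (p (nat_lit 0x585048402) (nat_lit 0) (p (nat_lit 0x160014) (nat_lit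 0) (p (nat_lit 0x60592) (nat_lit 0) (p (nat_lit 0x48512) (nat_lit 0) (p (nat_lit 0x50392) (nat_lit 0) (p (nat_lit 0x38312) (nat_lit 0) (p (nat_lit 0x40212) (nat_lit 0) (p (nat_lit 0x28192) (nat_lit 0) (p (nat_lit 0x30092) (nat_lit 0) (p (nat_lit 0x18012) (nat_lit 0) pn)))))))))))))))))))))))))) :=
  Cl.node (nat_lit 0x200004) (nat_lit 2) (by decide +kernel) (ClAll.succ (ClAll.succ ClAll.zero s14) s15)

def n25 : Cl (O (nat_lit 3)) (R (nat_lit 139473))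
    (p (nat_lit 0x101) (nat_lit 0) (p (nat_lit 0x81) (nat_lit 1) (p (nat_lit 0xc1) (nat_lit 1) (p (nat_lit 0x119) (nat_lit 1) (p (nat_lit 0xd1) (nat_lit 0) (p (nat_lit 0x89) (nat_lit 0) (p (nat_lit 0x41) (nat_lit 0) (p (nat_lit 0x8b0a098a889a) (nat_lit 0) (p (nat_lit 0xa89890a081a) (nat_lit 0) (p (nat_lit 0x8a090888079a) (nat_lit 0) (p (nat_lit 0x9888807871a) (nat_lit 0) (p (nat_lit 0x80000800090788868a) (nat_lit 0) (p (nat_lit 0x80000800088706860a) (nat_lit 0) (p (nat_lit 0x8706878582) (nat_lit 0) (p (nat_lit 0x686070502) (nat_lit 0) (p (nat_lit 0x8605850482) (nat_lit 0) (p (nat_lit 0x585048402) (nat_lit 0) (p (nat_lit 0x160014) (nat_lit 0) (p (nat_lit 0x60592) (nat_lit 0) (p (nat_lit 0x48512) (nat_lit 0) (p (nat_lit 0x50392) (nat_lit 0) (p (nat_lit 0x38312) (nat_lit 0) (p (nat_lit 0x40212) (nat_lit 0) (p (nat_lit 0x28192) (nat_lit 0) (p (nat_lit 0x30092) (nat_lit 0) (p (nat_lit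 0x18012) (nat_lit 0) pn)))))))))))))))))))))))))) :=
  Cl.node (nat_lit 0x109) (nat_lit 2) (by decide +kernel) (ClAll.succ (ClAll.succ ClAll.zero s18) s19)

def n26 : Cl (O (nat_lit 3)) (R (nat_lit 139473))
    (p (nat_lit 0xc1) (nat_lit 0) (p (nat_lit 0x81) (nat_lit 1) (p (nat_lit 0x101) (nat_lit 1) (p (nat_lit 0x111) (nat_lit 0) (p (nat_lit 0xd1) (nat_lit 1) (p (nat_lit 0x89) (nat_lit 0) (p (nat_lit 0x41) (nat_lit 0) (p (nat_lit 0x8b0a098a889a) (nat_lit 0) (p (nat_lit 0xa89890a081a) (nat_lit 0) (p (nat_lit 0x8a090888079a) (nat_lit 0) (p (nat_lit 0x9888807871a) (nat_lit 0) (p (nat_lit 0x80000800090788868a) (nat_lit 0) (p (nat_lit 0x80000800088706860a) (nat_lit 0) (p (nat_lit 0x8706878582) (nat_lit 0) (p (nat_lit 0x686070502) (nat_lit 0) (p (nat_lit 0x8605850482) (nat_lit 0) (p (nat_lit 0x585048402) (nat_lit 0) (p (nat_lit 0x160014) (nat_lit 0) (p (nat_lit 0x60592) (nat_lit 0) (p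 (nat_lit 0x48512) (nat_lit 0) (p (nat_lit 0x50392) (nat_lit 0) (p (nat_lit 0x38312) (nat_lit 0) (p (nat_lit 0x40212) (nat_lit 0) (p (nat_lit 0x28192) (nat_lit 0) (p (nat_lit 0x30092) (nat_lit 0) (p (nat_lit 0x18012) (nat_lit 0) pn)))))))))))))))))))))))))) :=
  Cl.node (nat_lit 0x200004) (nat_lit 2) (by decide +kernel) (ClAll.succ (ClAll.succ ClAll.zero n9) s30)

def n27 : Cl (O (nat_lit 3)) (R (nat_lit 139473))
    (p (nat_lit 0x101) (nat_lit 0) (p (nat_lit 0xc1) (nat_lit 1) (p (nat_lit 0x81) (nat_lit 1) (p (nat_lit 0x111) (nat_lit 1) (p (nat_lit 0xd1) (nat_lit 1) (p (nat_lit 0x89) (nat_lit 0) (p (nat_lit 0x41) (nat_lit 0) (p (nat_lit 0x8b0a098a889a) (nat_lit 0) (p (nat_lit 0xa89890a081a) (nat_lit 0) (p (nat_lit 0x8a090888079a) (nat_lit 0) (p (nat_lit 0x9888807871a) (nat_lit 0) (p (nat_lit 0x80000800090788868a) (nat_lit 0) (p (nat_lit 0x80000800088706860a) (nat_lit 0) (p (nat_lit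 0x8706878582) (nat_lit 0) (p (nat_lit 0x686070502) (nat_lit 0) (p (nat_lit 0x8605850482) (nat_lit 0) (p (nat_lit 0x585048402) (nat_lit 0) (p (nat_lit 0x160014) (nat_lit 0) (p (nat_lit 0x60592) (nat_lit 0) (p (nat_lit 0x48512) (nat_lit 0) (p (nat_lit 0x50392) (nat_lit 0) (p (nat_lit 0x38312) (nat_lit 0) (p (nat_lit 0x40212) (nat_lit 0) (p (nat_lit 0x28192) (nat_lit 0) (p (nat_lit 0x30092) (nat_lit 0) (p (nat_lit 0x18012) (nat_lit 0) pn)))))))))))))))))))))))))) :=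
  Cl.node (nat_lit 0x200004) (nat_lit 2) (by decide +kernel) (ClAll.succ (ClAll.succ ClAll.zero s34) s35)

def n28 : Cl (O (nat_lit 3)) (R (nat_lit 139473))
    (p (nat_lit 0xd1) (nat_lit 1) (p (nat_lit 0x109) (nat_lit 1) (p (nat_lit 0x101) (nat_lit 0) (p (nat_lit 0x119) (nat_lit 0) (p (nat_lit 0xc9) (nat_lit 0) (p (nat_lit 0x89) (nat_lit 1) (p (nat_lit 0x41) (nat_lit 0) (p (nat_lit 0x8b0a098a889a) (nat_lit 0) (p (nat_lit 0xa89890a081a) (nat_lit 0) (p (nat_lit 0x8a090888079a) (nat_lit 0) (p (nat_lit 0x9888807871a) (nat_lit 0) (p (nat_lit 0x80000800090788868a) (nat_lit 0) (p (nat_lit 0x80000800088706860a) (nat_lit 0) (p (nat_lit 0x8706878582) (nat_lit 0) (p (nat_lit 0x686070502) (nat_lit 0) (p (nat_lit 0x8605850482) (nat_lit 0) (p (nat_lit 0x585048402) (nat_lit 0) (p (nat_lit 0x160014) (nat_lit 0) (p (nat_lit 0x60592) (nat_lit 0) (p (nat_lit 0x48512) (nat_lit 0) (p (nat_lit 0x50392)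 (nat_lit 0) (p (nat_lit 0x38312) (nat_lit 0) (p (nat_lit 0x40212) (nat_lit 0) (p (nat_lit 0x28192) (nat_lit 0) (p (nat_lit 0x30092) (nat_lit 0) (p (nat_lit 0x18012) (nat_lit 0) pn)))))))))))))))))))))))))) :=
  Cl.node (nat_lit 0x200004) (nat_lit 2) (by decide +kernel) (ClAll.succ (ClAll.succ ClAll.zero s40) s41)

def n29 : Cl (O (nat_lit 3)) (R (nat_lit 139473))
    (p (nat_lit 0x89) (nat_lit 0) (p (nat_lit 0x109) (nat_lit 1) (p (nat_lit 0x101) (nat_lit 0) (p (nat_lit 0x119) (nat_lit 0) (p (nat_lit 0xd1) (nat_lit 0) (p (nat_lit 0x81) (nat_lit 0) (p (nat_lit 0x41) (nat_lit 1) (p (nat_lit 0x8b0a098a889a) (nat_lit 0) (p (nat_lit 0xa89890a081a) (nat_lit 0) (p (nat_lit 0x8a090888079a) (nat_lit 0) (p (nat_lit 0x9888807871a) (nat_lit 0) (p (nat_lit 0x80000800090788868a) (nat_lit 0) (p (nat_lit 0x80000800088706860a) (nat_lit 0) (p (nat_lit 0x8706878582) (nat_lit 0) (p (nat_lit 0x686070502)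 (nat_lit 0) (p (nat_lit 0x8605850482) (nat_lit 0) (p (nat_lit 0x585048402) (nat_lit 0) (p (nat_lit 0x160014) (nat_lit 0) (p (nat_lit 0x60592) (nat_lit 0) (p (nat_lit 0x48512) (nat_lit 0) (p (nat_lit 0x50392) (nat_lit 0) (p (nat_lit 0x38312) (nat_lit 0) (p (nat_lit 0x40212) (nat_lit 0) (p (nat_lit 0x28192) (nat_lit 0) (p (nat_lit 0x30092) (nat_lit 0) (p (nat_lit 0x18012) (nat_lit 0) pn)))))))))))))))))))))))))) :=
  Cl.node (nat_lit 0x200004) (nat_lit 2) (by decide +kernel) (ClAll.succ (ClAll.succ ClAll.zero n10) n11)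

def n30 : Cl (O (nat_lit 3)) (R (nat_lit 139473))
    (p (nat_lit 0x89) (nat_lit 1) (p (nat_lit 0x109) (nat_lit 1) (p (nat_lit 0x101) (nat_lit 0) (p (nat_lit 0x119) (nat_lit 0) (p (nat_lit 0xd1) (nat_lit 0) (p (nat_lit 0x81) (nat_lit 0) (p (nat_lit 0x41) (nat_lit 1) (p (nat_lit 0x8b0a098a889a) (nat_lit 0) (p (nat_lit 0xa89890a081a) (nat_lit 0) (p (nat_lit 0x8a090888079a) (nat_lit 0) (p (nat_lit 0x9888807871a) (nat_lit 0) (p (nat_lit 0x80000800090788868a) (nat_lit 0) (p (nat_lit 0x80000800088706860a) (nat_lit 0) (p (nat_lit 0x8706878582) (nat_lit 0) (p (nat_lit 0x686070502) (nat_lit 0) (p (nat_lit 0x8605850482) (nat_lit 0) (p (nat_lit 0x585048402) (nat_lit 0) (p (nat_lit 0x160014) (nat_lit 0) (p (nat_lit 0x60592) (nat_lit 0) (p (nat_lit 0x48512) (nat_lit 0) (p (nat_lit 0x50392) (nat_lit 0) (p (nat_lit 0x38312) (nat_lit 0) (p (nat_lit 0x40212) (nat_lit 0) (p (nat_lit 0x28192) (nat_lit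 0) (p (nat_lit 0x30092) (nat_lit 0) (p (nat_lit 0x18012) (nat_lit 0) pn)))))))))))))))))))))))))) :=
  Cl.node (nat_lit 0xc9) (nat_lit 2) (by decide +kernel) (ClAll.succ (ClAll.succ ClAll.zero s55) s56)

def n31 : Cl (O (nat_lit 3)) (R (nat_lit 139473))
    (p (nat_lit 0x89) (nat_lit 0) (p (nat_lit 0xc1) (nat_lit 0) (p (nat_lit 0x101) (nat_lit 1) (p (nat_lit 0x119) (nat_lit 0) (p (nat_lit 0xd1) (nat_lit 0) (p (nat_lit 0x81) (nat_lit 0) (p (nat_lit 0x41) (nat_lit 1) (p (nat_lit 0x8b0a098a889a) (nat_lit 0) (p (nat_lit 0xa89890a081a) (nat_lit 0) (p (nat_lit 0x8a090888079a) (nat_lit 0) (p (nat_lit 0x9888807871a) (nat_lit 0) (p (nat_lit 0x80000800090788868a) (nat_lit 0) (p (nat_lit 0x80000800088706860a) (nat_lit 0) (p (nat_lit 0x8706878582) (nat_lit 0) (p (nat_lit 0x686070502) (nat_lit 0) (p (nat_lit 0x8605850482) (nat_lit 0) (p (nat_lit 0x585048402) (nat_lit 0) (p (nat_lit 0x160014)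 (nat_lit 0) (p (nat_lit 0x60592) (nat_lit 0) (p (nat_lit 0x48512) (nat_lit 0) (p (nat_lit 0x50392) (nat_lit 0) (p (nat_lit 0x38312) (nat_lit 0) (p (nat_lit 0x40212) (nat_lit 0) (p (nat_lit 0x28192) (nat_lit 0) (p (nat_lit 0x30092) (nat_lit 0) (p (nat_lit 0x18012) (nat_lit 0) pn)))))))))))))))))))))))))) :=
  Cl.node (nat_lit 0x200004) (nat_lit 2) (by decide +kernel) (ClAll.succ (ClAll.succ ClAll.zero s57) s58)

def n32 : Cl (O (nat_lit 3)) (R (nat_lit 139473))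
    (p (nat_lit 0x89) (nat_lit 1) (p (nat_lit 0xc1) (nat_lit 0) (p (nat_lit 0x101) (nat_lit 1) (p (nat_lit 0x119) (nat_lit 0) (p (nat_lit 0xd1) (nat_lit 0) (p (nat_lit 0x81) (nat_lit 0) (p (nat_lit 0x41) (nat_lit 1) (p (nat_lit 0x8b0a098a889a) (nat_lit 0) (p (nat_lit 0xa89890a081a) (nat_lit 0) (p (nat_lit 0x8a090888079a) (nat_lit 0) (p (nat_lit 0x9888807871a) (nat_lit 0) (p (nat_lit 0x80000800090788868a) (nat_lit 0) (p (nat_lit 0x80000800088706860a) (nat_lit 0) (p (nat_lit 0x8706878582) (nat_lit 0) (p (nat_lit 0x686070502) (nat_lit 0) (p (nat_lit 0x8605850482) (nat_lit 0) (p (nat_lit 0x585048402) (nat_lit 0) (p (nat_lit 0x160014) (nat_lit 0) (p (nat_lit 0x60592) (nat_lit 0) (p (nat_lit 0x48512) (nat_lit 0) (p (nat_lit 0x50392) (nat_lit 0) (p (nat_lit 0x38312) (nat_lit 0) (p (nat_lit 0x40212) (nat_lit 0) (p (nat_lit 0x28192) (nat_lit 0) (p (nat_lit 0x30092) (nat_lit 0) (p (nat_lit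 0x18012) (nat_lit 0) pn)))))))))))))))))))))))))) :=
  Cl.node (nat_lit 0xc9) (nat_lit 2) (by decide +kernel) (ClAll.succ (ClAll.succ ClAll.zero s59) s60)

def n33 : Cl (O (nat_lit 3)) (R (nat_lit 139473))
    (p (nat_lit 0x89) (nat_lit 0) (p (nat_lit 0xc1) (nat_lit 1) (p (nat_lit 0x101) (nat_lit 1) (p (nat_lit 0x119) (nat_lit 0) (p (nat_lit 0xd1) (nat_lit 0) (p (nat_lit 0x81) (nat_lit 0) (p (nat_lit 0x41) (nat_lit 1) (p (nat_lit 0x8b0a098a889a) (nat_lit 0) (p (nat_lit 0xa89890a081a) (nat_lit 0) (p (nat_lit 0x8a090888079a) (nat_lit 0) (p (nat_lit 0x9888807871a) (nat_lit 0) (p (nat_lit 0x80000800090788868a) (nat_lit 0) (p (nat_lit 0x80000800088706860a) (nat_lit 0) (p (nat_lit 0x8706878582) (nat_lit 0) (p (nat_lit 0x686070502) (nat_lit 0) (p (nat_lit 0x8605850482) (nat_lit 0) (p (nat_lit 0x585048402) (nat_lit 0) (p (nat_lit 0x160014) (nat_lit 0) (p (nat_lit 0x60592) (nat_lit 0) (p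 (nat_lit 0x48512) (nat_lit 0) (p (nat_lit 0x50392) (nat_lit 0) (p (nat_lit 0x38312) (nat_lit 0) (p (nat_lit 0x40212) (nat_lit 0) (p (nat_lit 0x28192) (nat_lit 0) (p (nat_lit 0x30092) (nat_lit 0) (p (nat_lit 0x18012) (nat_lit 0) pn)))))))))))))))))))))))))) :=
  Cl.node (nat_lit 0x200004) (nat_lit 2) (by decide +kernel) (ClAll.succ (ClAll.succ ClAll.zero s61) s62)

def n34 : Cl (O (nat_lit 3)) (R (nat_lit 139473))
    (p (nat_lit 0x89) (nat_lit 1) (p (nat_lit 0xc1) (nat_lit 1) (p (nat_lit 0x101) (nat_lit 1) (p (nat_lit 0x119) (nat_lit 0) (p (nat_lit 0xd1) (nat_lit 0) (p (nat_lit 0x81) (nat_lit 0) (p (nat_lit 0x41) (nat_lit 1) (p (nat_lit 0x8b0a098a889a) (nat_lit 0) (p (nat_lit 0xa89890a081a) (nat_lit 0) (p (nat_lit 0x8a090888079a) (nat_lit 0) (p (nat_lit 0x9888807871a) (nat_lit 0) (p (nat_lit 0x80000800090788868a) (nat_lit 0) (p (nat_lit 0x80000800088706860a) (nat_lit 0) (p (nat_lit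 0x8706878582) (nat_lit 0) (p (nat_lit 0x686070502) (nat_lit 0) (p (nat_lit 0x8605850482) (nat_lit 0) (p (nat_lit 0x585048402) (nat_lit 0) (p (nat_lit 0x160014) (nat_lit 0) (p (nat_lit 0x60592) (nat_lit 0) (p (nat_lit 0x48512) (nat_lit 0) (p (nat_lit 0x50392) (nat_lit 0) (p (nat_lit 0x38312) (nat_lit 0) (p (nat_lit 0x40212) (nat_lit 0) (p (nat_lit 0x28192) (nat_lit 0) (p (nat_lit 0x30092) (nat_lit 0) (p (nat_lit 0x18012) (nat_lit 0) pn)))))))))))))))))))))))))) :=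
  Cl.node (nat_lit 0x200004) (nat_lit 2) (by decide +kernel) (ClAll.succ (ClAll.succ ClAll.zero s63) s64)

def n35 : Cl (O (nat_lit 3)) (R (nat_lit 139473))
    (p (nat_lit 0x89) (nat_lit 1) (p (nat_lit 0xc9) (nat_lit 1) (p (nat_lit 0xc1) (nat_lit 0) (p (nat_lit 0x119) (nat_lit 1) (p (nat_lit 0xd1) (nat_lit 0) (p (nat_lit 0x81) (nat_lit 0) (p (nat_lit 0x41) (nat_lit 1) (p (nat_lit 0x8b0a098a889a) (nat_lit 0) (p (nat_lit 0xa89890a081a) (nat_lit 0) (p (nat_lit 0x8a090888079a) (nat_lit 0) (p (nat_lit 0x9888807871a) (nat_lit 0) (p (nat_lit 0x80000800090788868a) (nat_lit 0) (p (nat_lit 0x80000800088706860a) (nat_lit 0) (p (nat_lit 0x8706878582) (nat_lit 0) (p (nat_lit 0x686070502) (nat_lit 0) (p (nat_lit 0x8605850482) (nat_lit 0) (p (nat_lit 0x585048402) (nat_lit 0) (p (nat_lit 0x160014) (nat_lit 0) (p (nat_lit 0x60592) (nat_lit 0) (p (nat_lit 0x48512) (nat_lit 0) (p (nat_lit 0x50392)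 (nat_lit 0) (p (nat_lit 0x38312) (nat_lit 0) (p (nat_lit 0x40212) (nat_lit 0) (p (nat_lit 0x28192) (nat_lit 0) (p (nat_lit 0x30092) (nat_lit 0) (p (nat_lit 0x18012) (nat_lit 0) pn)))))))))))))))))))))))))) :=
  Cl.node (nat_lit 0x109) (nat_lit 2) (by decide +kernel) (ClAll.succ (ClAll.succ ClAll.zero s67) n12)

def n36 : Cl (O (nat_lit 3)) (R (nat_lit 139473))
    (p (nat_lit 0x89) (nat_lit 1) (p (nat_lit 0x101) (nat_lit 0) (p (nat_lit 0xc1) (nat_lit 1) (p (nat_lit 0x119) (nat_lit 1) (p (nat_lit 0xd1) (nat_lit 0) (p (nat_lit 0x81) (nat_lit 0) (p (nat_lit 0x41) (nat_lit 1) (p (nat_lit 0x8b0a098a889a) (nat_lit 0) (p (nat_lit 0xa89890a081a) (nat_lit 0) (p (nat_lit 0x8a090888079a) (nat_lit 0) (p (nat_lit 0x9888807871a) (nat_lit 0) (p (nat_lit 0x80000800090788868a) (nat_lit 0) (p (nat_lit 0x80000800088706860a) (nat_lit 0) (p (nat_lit 0x8706878582) (nat_lit 0) (p (nat_lit 0x686070502)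 (nat_lit 0) (p (nat_lit 0x8605850482) (nat_lit 0) (p (nat_lit 0x585048402) (nat_lit 0) (p (nat_lit 0x160014) (nat_lit 0) (p (nat_lit 0x60592) (nat_lit 0) (p (nat_lit 0x48512) (nat_lit 0) (p (nat_lit 0x50392) (nat_lit 0) (p (nat_lit 0x38312) (nat_lit 0) (p (nat_lit 0x40212) (nat_lit 0) (p (nat_lit 0x28192) (nat_lit 0) (p (nat_lit 0x30092) (nat_lit 0) (p (nat_lit 0x18012) (nat_lit 0) pn)))))))))))))))))))))))))) :=
  Cl.node (nat_lit 0x109) (nat_lit 2) (by decide +kernel) (ClAll.succ (ClAll.succ ClAll.zero s71) n13)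

def n37 : Cl (O (nat_lit 3)) (R (nat_lit 139473))
    (p (nat_lit 0x89) (nat_lit 0) (p (nat_lit 0x101) (nat_lit 1) (p (nat_lit 0xc1) (nat_lit 1) (p (nat_lit 0x119) (nat_lit 1) (p (nat_lit 0xd1) (nat_lit 0) (p (nat_lit 0x81) (nat_lit 0) (p (nat_lit 0x41) (nat_lit 1) (p (nat_lit 0x8b0a098a889a) (nat_lit 0) (p (nat_lit 0xa89890a081a) (nat_lit 0) (p (nat_lit 0x8a090888079a) (nat_lit 0) (p (nat_lit 0x9888807871a) (nat_lit 0) (p (nat_lit 0x80000800090788868a) (nat_lit 0) (p (nat_lit 0x80000800088706860a) (nat_lit 0) (p (nat_lit 0x8706878582) (nat_lit 0) (p (nat_lit 0x686070502) (nat_lit 0) (p (nat_lit 0x8605850482) (nat_lit 0) (p (nat_lit 0x585048402) (nat_lit 0) (p (nat_lit 0x160014) (nat_lit 0) (p (nat_lit 0x60592) (nat_lit 0) (p (nat_lit 0x48512) (nat_lit 0) (p (nat_lit 0x50392) (nat_lit 0) (p (nat_lit 0x38312) (nat_lit 0) (p (nat_lit 0x40212) (nat_lit 0) (p (nat_lit 0x28192) (nat_lit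 0) (p (nat_lit 0x30092) (nat_lit 0) (p (nat_lit 0x18012) (nat_lit 0) pn)))))))))))))))))))))))))) :=
  Cl.node (nat_lit 0x200004) (nat_lit 2) (by decide +kernel) (ClAll.succ (ClAll.succ ClAll.zero s75) s76)

def n38 : Cl (O (nat_lit 3)) (R (nat_lit 139473))
    (p (nat_lit 0x89) (nat_lit 1) (p (nat_lit 0x101) (nat_lit 1) (p (nat_lit 0xc1) (nat_lit 1) (p (nat_lit 0x119) (nat_lit 1) (p (nat_lit 0xd1) (nat_lit 0) (p (nat_lit 0x81) (nat_lit 0) (p (nat_lit 0x41) (nat_lit 1) (p (nat_lit 0x8b0a098a889a) (nat_lit 0) (p (nat_lit 0xa89890a081a) (nat_lit 0) (p (nat_lit 0x8a090888079a) (nat_lit 0) (p (nat_lit 0x9888807871a) (nat_lit 0) (p (nat_lit 0x80000800090788868a) (nat_lit 0) (p (nat_lit 0x80000800088706860a) (nat_lit 0) (p (nat_lit 0x8706878582) (nat_lit 0) (p (nat_lit 0x686070502) (nat_lit 0) (p (nat_lit 0x8605850482) (nat_lit 0) (p (nat_lit 0x585048402) (nat_lit 0) (p (nat_lit 0x160014)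 (nat_lit 0) (p (nat_lit 0x60592) (nat_lit 0) (p (nat_lit 0x48512) (nat_lit 0) (p (nat_lit 0x50392) (nat_lit 0) (p (nat_lit 0x38312) (nat_lit 0) (p (nat_lit 0x40212) (nat_lit 0) (p (nat_lit 0x28192) (nat_lit 0) (p (nat_lit 0x30092) (nat_lit 0) (p (nat_lit 0x18012) (nat_lit 0) pn)))))))))))))))))))))))))) :=
  Cl.node (nat_lit 0x200004) (nat_lit 2) (by decide +kernel) (ClAll.succ (ClAll.succ ClAll.zero n14) s80)

def n39 : Cl (O (nat_lit 3)) (R (nat_lit 139473))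
    (p (nat_lit 0x89) (nat_lit 1) (p (nat_lit 0x109) (nat_lit 1) (p (nat_lit 0x101) (nat_lit 0) (p (nat_lit 0x111) (nat_lit 0) (p (nat_lit 0xd1) (nat_lit 1) (p (nat_lit 0x81) (nat_lit 0) (p (nat_lit 0x41) (nat_lit 1) (p (nat_lit 0x8b0a098a889a) (nat_lit 0) (p (nat_lit 0xa89890a081a) (nat_lit 0) (p (nat_lit 0x8a090888079a) (nat_lit 0) (p (nat_lit 0x9888807871a) (nat_lit 0) (p (nat_lit 0x80000800090788868a) (nat_lit 0) (p (nat_lit 0x80000800088706860a) (nat_lit 0) (p (nat_lit 0x8706878582) (nat_lit 0) (p (nat_lit 0x686070502) (nat_lit 0) (p (nat_lit 0x8605850482) (nat_lit 0) (p (nat_lit 0x585048402) (nat_lit 0) (p (nat_lit 0x160014) (nat_lit 0) (p (nat_lit 0x60592) (nat_lit 0) (p (nat_lit 0x48512) (nat_lit 0) (p (nat_lit 0x50392) (nat_lit 0) (p (nat_lit 0x38312) (nat_lit 0) (p (nat_lit 0x40212) (nat_lit 0) (p (nat_lit 0x28192) (nat_lit 0) (p (nat_lit 0x30092) (nat_lit 0) (p (nat_lit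 0x18012) (nat_lit 0) pn)))))))))))))))))))))))))) :=
  Cl.node (nat_lit 0xc9) (nat_lit 2) (by decide +kernel) (ClAll.succ (ClAll.succ ClAll.zero n15) s86)

def n40 : Cl (O (nat_lit 3)) (R (nat_lit 139473))
    (p (nat_lit 0xc9) (nat_lit 0) (p (nat_lit 0x89) (nat_lit 1) (p (nat_lit 0x101) (nat_lit 1) (p (nat_lit 0x111) (nat_lit 0) (p (nat_lit 0xd1) (nat_lit 1) (p (nat_lit 0x81) (nat_lit 0) (p (nat_lit 0x41) (nat_lit 1) (p (nat_lit 0x8b0a098a889a) (nat_lit 0) (p (nat_lit 0xa89890a081a) (nat_lit 0) (p (nat_lit 0x8a090888079a) (nat_lit 0) (p (nat_lit 0x9888807871a) (nat_lit 0) (p (nat_lit 0x80000800090788868a) (nat_lit 0) (p (nat_lit 0x80000800088706860a) (nat_lit 0) (p (nat_lit 0x8706878582) (nat_lit 0) (p (nat_lit 0x686070502) (nat_lit 0) (p (nat_lit 0x8605850482) (nat_lit 0) (p (nat_lit 0x585048402) (nat_lit 0) (p (nat_lit 0x160014) (nat_lit 0) (p (nat_lit 0x60592) (nat_lit 0) (p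 (nat_lit 0x48512) (nat_lit 0) (p (nat_lit 0x50392) (nat_lit 0) (p (nat_lit 0x38312) (nat_lit 0) (p (nat_lit 0x40212) (nat_lit 0) (p (nat_lit 0x28192) (nat_lit 0) (p (nat_lit 0x30092) (nat_lit 0) (p (nat_lit 0x18012) (nat_lit 0) pn)))))))))))))))))))))))))) :=
  Cl.node (nat_lit 0x200004) (nat_lit 2) (by decide +kernel) (ClAll.succ (ClAll.succ ClAll.zero s89) s90)

def n41 : Cl (O (nat_lit 3)) (R (nat_lit 139473))
    (p (nat_lit 0x111) (nat_lit 1) (p (nat_lit 0x109) (nat_lit 0) (p (nat_lit 0x101) (nat_lit 0) (p (nat_lit 0x119) (nat_lit 0) (p (nat_lit 0xc1) (nat_lit 0) (p (nat_lit 0x81) (nat_lit 1) (p (nat_lit 0x41) (nat_lit 1) (p (nat_lit 0x8b0a098a889a) (nat_lit 0) (p (nat_lit 0xa89890a081a) (nat_lit 0) (p (nat_lit 0x8a090888079a) (nat_lit 0) (p (nat_lit 0x9888807871a) (nat_lit 0) (p (nat_lit 0x80000800090788868a) (nat_lit 0) (p (nat_lit 0x80000800088706860a) (nat_lit 0) (p (nat_lit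 0x8706878582) (nat_lit 0) (p (nat_lit 0x686070502) (nat_lit 0) (p (nat_lit 0x8605850482) (nat_lit 0) (p (nat_lit 0x585048402) (nat_lit 0) (p (nat_lit 0x160014) (nat_lit 0) (p (nat_lit 0x60592) (nat_lit 0) (p (nat_lit 0x48512) (nat_lit 0) (p (nat_lit 0x50392) (nat_lit 0) (p (nat_lit 0x38312) (nat_lit 0) (p (nat_lit 0x40212) (nat_lit 0) (p (nat_lit 0x28192) (nat_lit 0) (p (nat_lit 0x30092) (nat_lit 0) (p (nat_lit 0x18012) (nat_lit 0) pn)))))))))))))))))))))))))) :=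
  Cl.node (nat_lit 0xd1) (nat_lit 2) (by decide +kernel) (ClAll.succ (ClAll.succ ClAll.zero s96) n16)

def n42 : Cl (O (nat_lit 3)) (R (nat_lit 139473))
    (p (nat_lit 0xc9) (nat_lit 0) (p (nat_lit 0x109) (nat_lit 1) (p (nat_lit 0x101) (nat_lit 0) (p (nat_lit 0x119) (nat_lit 0) (p (nat_lit 0xc1) (nat_lit 0) (p (nat_lit 0x81) (nat_lit 1) (p (nat_lit 0x41) (nat_lit 1) (p (nat_lit 0x8b0a098a889a) (nat_lit 0) (p (nat_lit 0xa89890a081a) (nat_lit 0) (p (nat_lit 0x8a090888079a) (nat_lit 0) (p (nat_lit 0x9888807871a) (nat_lit 0) (p (nat_lit 0x80000800090788868a) (nat_lit 0) (p (nat_lit 0x80000800088706860a) (nat_lit 0) (p (nat_lit 0x8706878582) (nat_lit 0) (p (nat_lit 0x686070502) (nat_lit 0) (p (nat_lit 0x8605850482) (nat_lit 0) (p (nat_lit 0x585048402) (nat_lit 0) (p (nat_lit 0x160014) (nat_lit 0) (p (nat_lit 0x60592) (nat_lit 0) (p (nat_lit 0x48512) (nat_lit 0) (p (nat_lit 0x50392) (nat_lit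 0) (p (nat_lit 0x38312) (nat_lit 0) (p (nat_lit 0x40212) (nat_lit 0) (p (nat_lit 0x28192) (nat_lit 0) (p (nat_lit 0x30092) (nat_lit 0) (p (nat_lit 0x18012) (nat_lit 0) pn)))))))))))))))))))))))))) :=
  Cl.node (nat_lit 0xd1) (nat_lit 2) (by decide +kernel) (ClAll.succ (ClAll.succ ClAll.zero s99) n17)

def n43 : Cl (O (nat_lit 3)) (R (nat_lit 139473))
    (p (nat_lit 0xd1) (nat_lit 1) (p (nat_lit 0xc9) (nat_lit 0) (p (nat_lit 0x101) (nat_lit 1) (p (nat_lit 0x119) (nat_lit 0) (p (nat_lit 0xc1) (nat_lit 0) (p (nat_lit 0x81) (nat_lit 1) (p (nat_lit 0x41) (nat_lit 1) (p (nat_lit 0x8b0a098a889a) (nat_lit 0) (p (nat_lit 0xa89890a081a) (nat_lit 0) (p (nat_lit 0x8a090888079a) (nat_lit 0) (p (nat_lit 0x9888807871a) (nat_lit 0) (p (nat_lit 0x80000800090788868a) (nat_lit 0) (p (nat_lit 0x80000800088706860a) (nat_lit 0) (p (nat_lit 0x8706878582) (nat_lit 0) (p (nat_lit 0x686070502) (nat_lit 0)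 (p (nat_lit 0x8605850482) (nat_lit 0) (p (nat_lit 0x585048402) (nat_lit 0) (p (nat_lit 0x160014) (nat_lit 0) (p (nat_lit 0x60592) (nat_lit 0) (p (nat_lit 0x48512) (nat_lit 0) (p (nat_lit 0x50392) (nat_lit 0) (p (nat_lit 0x38312) (nat_lit 0) (p (nat_lit 0x40212) (nat_lit 0) (p (nat_lit 0x28192) (nat_lit 0) (p (nat_lit 0x30092) (nat_lit 0) (p (nat_lit 0x18012) (nat_lit 0) pn)))))))))))))))))))))))))) :=
  Cl.node (nat_lit 0x200004) (nat_lit 2) (by decide +kernel) (ClAll.succ (ClAll.succ ClAll.zero n18) s106)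

def n44 : Cl (O (nat_lit 3)) (R (nat_lit 139473))
    (p (nat_lit 0x111) (nat_lit 1) (p (nat_lit 0xd1) (nat_lit 1) (p (nat_lit 0xc9) (nat_lit 0) (p (nat_lit 0x119) (nat_lit 1) (p (nat_lit 0xc1) (nat_lit 0) (p (nat_lit 0x81) (nat_lit 1) (p (nat_lit 0x41) (nat_lit 1) (p (nat_lit 0x8b0a098a889a) (nat_lit 0) (p (nat_lit 0xa89890a081a) (nat_lit 0) (p (nat_lit 0x8a090888079a) (nat_lit 0) (p (nat_lit 0x9888807871a) (nat_lit 0) (p (nat_lit 0x80000800090788868a) (nat_lit 0) (p (nat_lit 0x80000800088706860a) (nat_lit 0) (p (nat_lit 0x8706878582) (nat_lit 0) (p (nat_lit 0x686070502) (nat_lit 0) (p (nat_lit 0x8605850482) (nat_lit 0) (p (nat_lit 0x585048402) (nat_lit 0) (p (nat_lit 0x160014) (nat_lit 0) (p (nat_lit 0x60592) (nat_lit 0) (p (nat_lit 0x48512) (nat_lit 0) (p (nat_lit 0x50392) (nat_lit 0) (p (nat_lit 0x38312) (nat_lit 0) (p (nat_lit 0x40212) (nat_lit 0) (p (nat_lit 0x28192) (nat_lit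 0) (p (nat_lit 0x30092) (nat_lit 0) (p (nat_lit 0x18012) (nat_lit 0) pn)))))))))))))))))))))))))) :=
  Cl.node (nat_lit 0x200004) (nat_lit 2) (by decide +kernel) (ClAll.succ (ClAll.succ ClAll.zero n19) s113)

def n45 : Cl (O (nat_lit 3)) (R (nat_lit 139473))
    (p (nat_lit 0x111) (nat_lit 1) (p (nat_lit 0x109) (nat_lit 0) (p (nat_lit 0xc9) (nat_lit 1) (p (nat_lit 0x119) (nat_lit 1) (p (nat_lit 0xc1) (nat_lit 0) (p (nat_lit 0x81) (nat_lit 1) (p (nat_lit 0x41) (nat_lit 1) (p (nat_lit 0x8b0a098a889a) (nat_lit 0) (p (nat_lit 0xa89890a081a) (nat_lit 0) (p (nat_lit 0x8a090888079a) (nat_lit 0) (p (nat_lit 0x9888807871a) (nat_lit 0) (p (nat_lit 0x80000800090788868a) (nat_lit 0) (p (nat_lit 0x80000800088706860a) (nat_lit 0) (p (nat_lit 0x8706878582) (nat_lit 0) (p (nat_lit 0x686070502) (nat_lit 0) (p (nat_lit 0x8605850482) (nat_lit 0) (p (nat_lit 0x585048402) (nat_lit 0) (p (nat_lit 0x160014)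 (nat_lit 0) (p (nat_lit 0x60592) (nat_lit 0) (p (nat_lit 0x48512) (nat_lit 0) (p (nat_lit 0x50392) (nat_lit 0) (p (nat_lit 0x38312) (nat_lit 0) (p (nat_lit 0x40212) (nat_lit 0) (p (nat_lit 0x28192) (nat_lit 0) (p (nat_lit 0x30092) (nat_lit 0) (p (nat_lit 0x18012) (nat_lit 0) pn)))))))))))))))))))))))))) :=
  Cl.node (nat_lit 0x200004) (nat_lit 2) (by decide +kernel) (ClAll.succ (ClAll.succ ClAll.zero n20) s117)

def n46 : Cl (O (nat_lit 3)) (R (nat_lit 139473))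
    (p (nat_lit 0x109) (nat_lit 1) (p (nat_lit 0x101) (nat_lit 0) (p (nat_lit 0x119) (nat_lit 0) (p (nat_lit 0xd1) (nat_lit 0) (p (nat_lit 0x89) (nat_lit 0) (p (nat_lit 0x41) (nat_lit 0) (p (nat_lit 0x8b0a098a889a) (nat_lit 0) (p (nat_lit 0xa89890a081a) (nat_lit 0) (p (nat_lit 0x8a090888079a) (nat_lit 0) (p (nat_lit 0x9888807871a) (nat_lit 0) (p (nat_lit 0x80000800090788868a) (nat_lit 0) (p (nat_lit 0x80000800088706860a) (nat_lit 0) (p (nat_lit 0x8706878582) (nat_lit 0) (p (nat_lit 0x686070502) (nat_lit 0) (p (nat_lit 0x8605850482) (nat_lit 0) (p (nat_lit 0x585048402) (nat_lit 0) (p (nat_lit 0x160014) (nat_lit 0) (p (nat_lit 0x60592) (nat_lit 0) (p (nat_lit 0x48512) (nat_lit 0) (p (nat_lit 0x50392) (nat_lit 0) (p (nat_lit 0x38312) (nat_lit 0) (p (nat_lit 0x40212) (nat_lit 0) (p (nat_lit 0x28192) (nat_lit 0) (p (nat_lit 0x30092) (nat_lit 0) (p (nat_lit 0x18012) (nat_lit 0) pn)))))))))))))))))))))))))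 :=
  Cl.node (nat_lit 0xc9) (nat_lit 2) (by decide +kernel) (ClAll.succ (ClAll.succ ClAll.zero s1) n21)

def n47 : Cl (O (nat_lit 3)) (R (nat_lit 139473))
    (p (nat_lit 0x81) (nat_lit 0) (p (nat_lit 0x101) (nat_lit 1) (p (nat_lit 0x119) (nat_lit 0) (p (nat_lit 0xd1) (nat_lit 0) (p (nat_lit 0x89) (nat_lit 0) (p (nat_lit 0x41) (nat_lit 0) (p (nat_lit 0x8b0a098a889a) (nat_lit 0) (p (nat_lit 0xa89890a081a) (nat_lit 0) (p (nat_lit 0x8a090888079a) (nat_lit 0) (p (nat_lit 0x9888807871a) (nat_lit 0) (p (nat_lit 0x80000800090788868a) (nat_lit 0) (p (nat_lit 0x80000800088706860a) (nat_lit 0) (p (nat_lit 0x8706878582) (nat_lit 0) (p (nat_lit 0x686070502) (nat_lit 0) (p (nat_lit 0x8605850482) (nat_lit 0) (p (nat_lit 0x585048402) (nat_lit 0) (p (nat_lit 0x160014) (nat_lit 0) (p (nat_lit 0x60592) (nat_lit 0) (p (nat_lit 0x48512) (nat_lit 0) (p (nat_lit 0x50392) (nat_lit 0) (p (nat_lit 0x38312)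 (nat_lit 0) (p (nat_lit 0x40212) (nat_lit 0) (p (nat_lit 0x28192) (nat_lit 0) (p (nat_lit 0x30092) (nat_lit 0) (p (nat_lit 0x18012) (nat_lit 0) pn))))))))))))))))))))))))) :=
  Cl.node (nat_lit 0xc9) (nat_lit 2) (by decide +kernel) (ClAll.succ (ClAll.succ ClAll.zero s4) n22)

def n48 : Cl (O (nat_lit 3)) (R (nat_lit 139473))
    (p (nat_lit 0x81) (nat_lit 1) (p (nat_lit 0x101) (nat_lit 1) (p (nat_lit 0x119) (nat_lit 0) (p (nat_lit 0xd1) (nat_lit 0) (p (nat_lit 0x89) (nat_lit 0) (p (nat_lit 0x41) (nat_lit 0) (p (nat_lit 0x8b0a098a889a) (nat_lit 0) (p (nat_lit 0xa89890a081a) (nat_lit 0) (p (nat_lit 0x8a090888079a) (nat_lit 0) (p (nat_lit 0x9888807871a) (nat_lit 0) (p (nat_lit 0x80000800090788868a) (nat_lit 0) (p (nat_lit 0x80000800088706860a) (nat_lit 0) (p (nat_lit 0x8706878582) (nat_lit 0) (p (nat_lit 0x686070502) (nat_lit 0) (p (nat_lit 0x8605850482) (nat_lit 0) (p (nat_lit 0x585048402)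 (nat_lit 0) (p (nat_lit 0x160014) (nat_lit 0) (p (nat_lit 0x60592) (nat_lit 0) (p (nat_lit 0x48512) (nat_lit 0) (p (nat_lit 0x50392) (nat_lit 0) (p (nat_lit 0x38312) (nat_lit 0) (p (nat_lit 0x40212) (nat_lit 0) (p (nat_lit 0x28192) (nat_lit 0) (p (nat_lit 0x30092) (nat_lit 0) (p (nat_lit 0x18012) (nat_lit 0) pn))))))))))))))))))))))))) :=
  Cl.node (nat_lit 0xc1) (nat_lit 2) (by decide +kernel) (ClAll.succ (ClAll.succ ClAll.zero n23) s11)

def n49 : Cl (O (nat_lit 3)) (R (nat_lit 139473))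
    (p (nat_lit 0xc9) (nat_lit 1) (p (nat_lit 0xc1) (nat_lit 0) (p (nat_lit 0x119) (nat_lit 1) (p (nat_lit 0xd1) (nat_lit 0) (p (nat_lit 0x89) (nat_lit 0) (p (nat_lit 0x41) (nat_lit 0) (p (nat_lit 0x8b0a098a889a) (nat_lit 0) (p (nat_lit 0xa89890a081a) (nat_lit 0) (p (nat_lit 0x8a090888079a) (nat_lit 0) (p (nat_lit 0x9888807871a) (nat_lit 0) (p (nat_lit 0x80000800090788868a) (nat_lit 0) (p (nat_lit 0x80000800088706860a) (nat_lit 0) (p (nat_lit 0x8706878582) (nat_lit 0) (p (nat_lit 0x686070502) (nat_lit 0) (p (nat_lit 0x8605850482) (nat_lit 0) (p (nat_lit 0x585048402) (nat_lit 0) (p (nat_lit 0x160014) (nat_lit 0) (p (nat_lit 0x60592) (nat_lit 0) (p (nat_lit 0x48512) (nat_lit 0) (p (nat_lit 0x50392) (nat_lit 0) (p (nat_lit 0x38312) (nat_lit 0) (p (nat_lit 0x40212) (nat_lit 0) (p (nat_lit 0x28192) (nat_lit 0) (p (nat_lit 0x30092) (nat_lit 0) (p (nat_lit 0x18012) (nat_lit 0) pn)))))))))))))))))))))))))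 :=
  Cl.node (nat_lit 0x109) (nat_lit 2) (by decide +kernel) (ClAll.succ (ClAll.succ ClAll.zero s13) n24)

def n50 : Cl (O (nat_lit 3)) (R (nat_lit 139473))
    (p (nat_lit 0x81) (nat_lit 0) (p (nat_lit 0xc1) (nat_lit 1) (p (nat_lit 0x119) (nat_lit 1) (p (nat_lit 0xd1) (nat_lit 0) (p (nat_lit 0x89) (nat_lit 0) (p (nat_lit 0x41) (nat_lit 0) (p (nat_lit 0x8b0a098a889a) (nat_lit 0) (p (nat_lit 0xa89890a081a) (nat_lit 0) (p (nat_lit 0x8a090888079a) (nat_lit 0) (p (nat_lit 0x9888807871a) (nat_lit 0) (p (nat_lit 0x80000800090788868a) (nat_lit 0) (p (nat_lit 0x80000800088706860a) (nat_lit 0) (p (nat_lit 0x8706878582) (nat_lit 0) (p (nat_lit 0x686070502) (nat_lit 0) (p (nat_lit 0x8605850482) (nat_lit 0) (p (nat_lit 0x585048402) (nat_lit 0) (p (nat_lit 0x160014) (nat_lit 0) (p (nat_lit 0x60592) (nat_lit 0) (p (nat_lit 0x48512) (nat_lit 0) (p (nat_lit 0x50392) (nat_lit 0) (p (nat_lit 0x38312)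 (nat_lit 0) (p (nat_lit 0x40212) (nat_lit 0) (p (nat_lit 0x28192) (nat_lit 0) (p (nat_lit 0x30092) (nat_lit 0) (p (nat_lit 0x18012) (nat_lit 0) pn))))))))))))))))))))))))) :=
  Cl.node (nat_lit 0x109) (nat_lit 2) (by decide +kernel) (ClAll.succ (ClAll.succ ClAll.zero s16) s17)

def n51 : Cl (O (nat_lit 3)) (R (nat_lit 139473))
    (p (nat_lit 0x81) (nat_lit 1) (p (nat_lit 0xc1) (nat_lit 1) (p (nat_lit 0x119) (nat_lit 1) (p (nat_lit 0xd1) (nat_lit 0) (p (nat_lit 0x89) (nat_lit 0) (p (nat_lit 0x41) (nat_lit 0) (p (nat_lit 0x8b0a098a889a) (nat_lit 0) (p (nat_lit 0xa89890a081a) (nat_lit 0) (p (nat_lit 0x8a090888079a) (nat_lit 0) (p (nat_lit 0x9888807871a) (nat_lit 0) (p (nat_lit 0x80000800090788868a) (nat_lit 0) (p (nat_lit 0x80000800088706860a) (nat_lit 0) (p (nat_lit 0x8706878582) (nat_lit 0) (p (nat_lit 0x686070502) (nat_lit 0) (p (nat_lit 0x8605850482) (nat_lit 0) (p (nat_lit 0x585048402)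 (nat_lit 0) (p (nat_lit 0x160014) (nat_lit 0) (p (nat_lit 0x60592) (nat_lit 0) (p (nat_lit 0x48512) (nat_lit 0) (p (nat_lit 0x50392) (nat_lit 0) (p (nat_lit 0x38312) (nat_lit 0) (p (nat_lit 0x40212) (nat_lit 0) (p (nat_lit 0x28192) (nat_lit 0) (p (nat_lit 0x30092) (nat_lit 0) (p (nat_lit 0x18012) (nat_lit 0) pn))))))))))))))))))))))))) :=
  Cl.node (nat_lit 0x101) (nat_lit 2) (by decide +kernel) (ClAll.succ (ClAll.succ ClAll.zero n25) s20)

def n52 : Cl (O (nat_lit 3)) (R (nat_lit 139473))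
    (p (nat_lit 0x109) (nat_lit 1) (p (nat_lit 0x101) (nat_lit 0) (p (nat_lit 0x111) (nat_lit 0) (p (nat_lit 0xd1) (nat_lit 1) (p (nat_lit 0x89) (nat_lit 0) (p (nat_lit 0x41) (nat_lit 0) (p (nat_lit 0x8b0a098a889a) (nat_lit 0) (p (nat_lit 0xa89890a081a) (nat_lit 0) (p (nat_lit 0x8a090888079a) (nat_lit 0) (p (nat_lit 0x9888807871a) (nat_lit 0) (p (nat_lit 0x80000800090788868a) (nat_lit 0) (p (nat_lit 0x80000800088706860a) (nat_lit 0) (p (nat_lit 0x8706878582) (nat_lit 0) (p (nat_lit 0x686070502) (nat_lit 0) (p (nat_lit 0x8605850482) (nat_lit 0) (p (nat_lit 0x585048402) (nat_lit 0) (p (nat_lit 0x160014) (nat_lit 0) (p (nat_lit 0x60592) (nat_lit 0) (p (nat_lit 0x48512) (nat_lit 0) (p (nat_lit 0x50392) (nat_lit 0) (p (nat_lit 0x38312) (nat_lit 0) (p (nat_lit 0x40212) (nat_lit 0) (p (nat_lit 0x28192) (nat_lit 0) (p (nat_lit 0x30092) (nat_lit 0) (p (nat_lit 0x18012) (nat_lit 0) pn)))))))))))))))))))))))))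 :=
  Cl.node (nat_lit 0x200004) (nat_lit 2) (by decide +kernel) (ClAll.succ (ClAll.succ ClAll.zero s22) s23)

def n53 : Cl (O (nat_lit 3)) (R (nat_lit 139473))
    (p (nat_lit 0x81) (nat_lit 0) (p (nat_lit 0x101) (nat_lit 1) (p (nat_lit 0x111) (nat_lit 0) (p (nat_lit 0xd1) (nat_lit 1) (p (nat_lit 0x89) (nat_lit 0) (p (nat_lit 0x41) (nat_lit 0) (p (nat_lit 0x8b0a098a889a) (nat_lit 0) (p (nat_lit 0xa89890a081a) (nat_lit 0) (p (nat_lit 0x8a090888079a) (nat_lit 0) (p (nat_lit 0x9888807871a) (nat_lit 0) (p (nat_lit 0x80000800090788868a) (nat_lit 0) (p (nat_lit 0x80000800088706860a) (nat_lit 0) (p (nat_lit 0x8706878582) (nat_lit 0) (p (nat_lit 0x686070502) (nat_lit 0) (p (nat_lit 0x8605850482) (nat_lit 0) (p (nat_lit 0x585048402) (nat_lit 0) (p (nat_lit 0x160014) (nat_lit 0) (p (nat_lit 0x60592) (nat_lit 0) (p (nat_lit 0x48512) (nat_lit 0) (p (nat_lit 0x50392) (nat_lit 0) (p (nat_lit 0x38312)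 (nat_lit 0) (p (nat_lit 0x40212) (nat_lit 0) (p (nat_lit 0x28192) (nat_lit 0) (p (nat_lit 0x30092) (nat_lit 0) (p (nat_lit 0x18012) (nat_lit 0) pn))))))))))))))))))))))))) :=
  Cl.node (nat_lit 0x200004) (nat_lit 2) (by decide +kernel) (ClAll.succ (ClAll.succ ClAll.zero s24) s25)

def n54 : Cl (O (nat_lit 3)) (R (nat_lit 139473))
    (p (nat_lit 0x81) (nat_lit 1) (p (nat_lit 0x101) (nat_lit 1) (p (nat_lit 0x111) (nat_lit 0) (p (nat_lit 0xd1) (nat_lit 1) (p (nat_lit 0x89) (nat_lit 0) (p (nat_lit 0x41) (nat_lit 0) (p (nat_lit 0x8b0a098a889a) (nat_lit 0) (p (nat_lit 0xa89890a081a) (nat_lit 0) (p (nat_lit 0x8a090888079a) (nat_lit 0) (p (nat_lit 0x9888807871a) (nat_lit 0) (p (nat_lit 0x80000800090788868a) (nat_lit 0) (p (nat_lit 0x80000800088706860a) (nat_lit 0) (p (nat_lit 0x8706878582) (nat_lit 0) (p (nat_lit 0x686070502) (nat_lit 0) (p (nat_lit 0x8605850482) (nat_lit 0) (p (nat_lit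 0x585048402) (nat_lit 0) (p (nat_lit 0x160014) (nat_lit 0) (p (nat_lit 0x60592) (nat_lit 0) (p (nat_lit 0x48512) (nat_lit 0) (p (nat_lit 0x50392) (nat_lit 0) (p (nat_lit 0x38312) (nat_lit 0) (p (nat_lit 0x40212) (nat_lit 0) (p (nat_lit 0x28192) (nat_lit 0) (p (nat_lit 0x30092) (nat_lit 0) (p (nat_lit 0x18012) (nat_lit 0) pn))))))))))))))))))))))))) :=
  Cl.node (nat_lit 0xc1) (nat_lit 2) (by decide +kernel) (ClAll.succ (ClAll.succ ClAll.zero n26) s31)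

def n55 : Cl (O (nat_lit 3)) (R (nat_lit 139473))
    (p (nat_lit 0xc1) (nat_lit 1) (p (nat_lit 0x81) (nat_lit 1) (p (nat_lit 0x111) (nat_lit 1) (p (nat_lit 0xd1) (nat_lit 1) (p (nat_lit 0x89) (nat_lit 0) (p (nat_lit 0x41) (nat_lit 0) (p (nat_lit 0x8b0a098a889a) (nat_lit 0) (p (nat_lit 0xa89890a081a) (nat_lit 0) (p (nat_lit 0x8a090888079a) (nat_lit 0) (p (nat_lit 0x9888807871a) (nat_lit 0) (p (nat_lit 0x80000800090788868a) (nat_lit 0) (p (nat_lit 0x80000800088706860a) (nat_lit 0) (p (nat_lit 0x8706878582) (nat_lit 0) (p (nat_lit 0x686070502) (nat_lit 0) (p (nat_lit 0x8605850482) (nat_lit 0) (p (nat_lit 0x585048402) (nat_lit 0) (p (nat_lit 0x160014) (nat_lit 0) (p (nat_lit 0x60592) (nat_lit 0) (p (nat_lit 0x48512) (nat_lit 0) (p (nat_lit 0x50392) (nat_lit 0) (p (nat_lit 0x38312) (nat_lit 0) (p (nat_lit 0x40212) (nat_lit 0) (p (nat_lit 0x28192) (nat_lit 0) (p (nat_lit 0x30092) (nat_lit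 0) (p (nat_lit 0x18012) (nat_lit 0) pn))))))))))))))))))))))))) :=
  Cl.node (nat_lit 0x101) (nat_lit 2) (by decide +kernel) (ClAll.succ (ClAll.succ ClAll.zero n27) s36)

def n56 : Cl (O (nat_lit 3)) (R (nat_lit 139473))
    (p (nat_lit 0x109) (nat_lit 0) (p (nat_lit 0x101) (nat_lit 0) (p (nat_lit 0x119) (nat_lit 0) (p (nat_lit 0xc9) (nat_lit 0) (p (nat_lit 0x89) (nat_lit 1) (p (nat_lit 0x41) (nat_lit 0) (p (nat_lit 0x8b0a098a889a) (nat_lit 0) (p (nat_lit 0xa89890a081a) (nat_lit 0) (p (nat_lit 0x8a090888079a) (nat_lit 0) (p (nat_lit 0x9888807871a) (nat_lit 0) (p (nat_lit 0x80000800090788868a) (nat_lit 0) (p (nat_lit 0x80000800088706860a) (nat_lit 0) (p (nat_lit 0x8706878582) (nat_lit 0) (p (nat_lit 0x686070502) (nat_lit 0) (p (nat_lit 0x8605850482) (nat_lit 0) (p (nat_lit 0x585048402) (nat_lit 0) (p (nat_lit 0x160014) (nat_lit 0) (p (nat_lit 0x60592) (nat_lit 0) (p (nat_lit 0x48512)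 (nat_lit 0) (p (nat_lit 0x50392) (nat_lit 0) (p (nat_lit 0x38312) (nat_lit 0) (p (nat_lit 0x40212) (nat_lit 0) (p (nat_lit 0x28192) (nat_lit 0) (p (nat_lit 0x30092) (nat_lit 0) (p (nat_lit 0x18012) (nat_lit 0) pn))))))))))))))))))))))))) :=
  Cl.node (nat_lit 0x111) (nat_lit 2) (by decide +kernel) (ClAll.succ (ClAll.succ ClAll.zero s37) s38)

def n57 : Cl (O (nat_lit 3)) (R (nat_lit 139473))
    (p (nat_lit 0x109) (nat_lit 1) (p (nat_lit 0x101) (nat_lit 0) (p (nat_lit 0x119) (nat_lit 0) (p (nat_lit 0xc9) (nat_lit 0) (p (nat_lit 0x89) (nat_lit 1) (p (nat_lit 0x41) (nat_lit 0) (p (nat_lit 0x8b0a098a889a) (nat_lit 0) (p (nat_lit 0xa89890a081a) (nat_lit 0) (p (nat_lit 0x8a090888079a) (nat_lit 0) (p (nat_lit 0x9888807871a) (nat_lit 0) (p (nat_lit 0x80000800090788868a) (nat_lit 0) (p (nat_lit 0x80000800088706860a) (nat_lit 0) (p (nat_lit 0x8706878582) (nat_lit 0) (p (nat_lit 0x686070502)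 (nat_lit 0) (p (nat_lit 0x8605850482) (nat_lit 0) (p (nat_lit 0x585048402) (nat_lit 0) (p (nat_lit 0x160014) (nat_lit 0) (p (nat_lit 0x60592) (nat_lit 0) (p (nat_lit 0x48512) (nat_lit 0) (p (nat_lit 0x50392) (nat_lit 0) (p (nat_lit 0x38312) (nat_lit 0) (p (nat_lit 0x40212) (nat_lit 0) (p (nat_lit 0x28192) (nat_lit 0) (p (nat_lit 0x30092) (nat_lit 0) (p (nat_lit 0x18012) (nat_lit 0) pn))))))))))))))))))))))))) :=
  Cl.node (nat_lit 0xd1) (nat_lit 2) (by decide +kernel) (ClAll.succ (ClAll.succ ClAll.zero s39) n28)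

def n58 : Cl (O (nat_lit 3)) (R (nat_lit 139473))
    (p (nat_lit 0xc1) (nat_lit 0) (p (nat_lit 0x101) (nat_lit 1) (p (nat_lit 0x119) (nat_lit 0) (p (nat_lit 0xc9) (nat_lit 0) (p (nat_lit 0x89) (nat_lit 1) (p (nat_lit 0x41) (nat_lit 0) (p (nat_lit 0x8b0a098a889a) (nat_lit 0) (p (nat_lit 0xa89890a081a) (nat_lit 0) (p (nat_lit 0x8a090888079a) (nat_lit 0) (p (nat_lit 0x9888807871a) (nat_lit 0) (p (nat_lit 0x80000800090788868a) (nat_lit 0) (p (nat_lit 0x80000800088706860a) (nat_lit 0) (p (nat_lit 0x8706878582) (nat_lit 0) (p (nat_lit 0x686070502) (nat_lit 0) (p (nat_lit 0x8605850482) (nat_lit 0) (p (nat_lit 0x585048402) (nat_lit 0) (p (nat_lit 0x160014) (nat_lit 0) (p (nat_lit 0x60592) (nat_lit 0) (p (nat_lit 0x48512) (nat_lit 0) (p (nat_lit 0x50392) (nat_lit 0) (p (nat_lit 0x38312) (nat_lit 0) (p (nat_lit 0x40212) (nat_lit 0) (p (nat_lit 0x28192) (nat_lit 0) (p (nat_lit 0x30092) (nat_lit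 0) (p (nat_lit 0x18012) (nat_lit 0) pn))))))))))))))))))))))))) :=
  Cl.node (nat_lit 0xd1) (nat_lit 2) (by decide +kernel) (ClAll.succ (ClAll.succ ClAll.zero s42) s43)

def n59 : Cl (O (nat_lit 3)) (R (nat_lit 139473))
    (p (nat_lit 0x109) (nat_lit 1) (p (nat_lit 0x101) (nat_lit 0) (p (nat_lit 0x119) (nat_lit 0) (p (nat_lit 0xd1) (nat_lit 0) (p (nat_lit 0x81) (nat_lit 0) (p (nat_lit 0x41) (nat_lit 1) (p (nat_lit 0x8b0a098a889a) (nat_lit 0) (p (nat_lit 0xa89890a081a) (nat_lit 0) (p (nat_lit 0x8a090888079a) (nat_lit 0) (p (nat_lit 0x9888807871a) (nat_lit 0) (p (nat_lit 0x80000800090788868a) (nat_lit 0) (p (nat_lit 0x80000800088706860a) (nat_lit 0) (p (nat_lit 0x8706878582) (nat_lit 0) (p (nat_lit 0x686070502) (nat_lit 0) (p (nat_lit 0x8605850482) (nat_lit 0) (p (nat_lit 0x585048402) (nat_lit 0) (p (nat_lit 0x160014) (nat_lit 0) (p (nat_lit 0x60592) (nat_lit 0) (p (nat_lit 0x48512)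 (nat_lit 0) (p (nat_lit 0x50392) (nat_lit 0) (p (nat_lit 0x38312) (nat_lit 0) (p (nat_lit 0x40212) (nat_lit 0) (p (nat_lit 0x28192) (nat_lit 0) (p (nat_lit 0x30092) (nat_lit 0) (p (nat_lit 0x18012) (nat_lit 0) pn))))))))))))))))))))))))) :=
  Cl.node (nat_lit 0x89) (nat_lit 2) (by decide +kernel) (ClAll.succ (ClAll.succ ClAll.zero n29) n30)

def n60 : Cl (O (nat_lit 3)) (R (nat_lit 139473))
    (p (nat_lit 0xc1) (nat_lit 0) (p (nat_lit 0x101) (nat_lit 1) (p (nat_lit 0x119) (nat_lit 0) (p (nat_lit 0xd1) (nat_lit 0) (p (nat_lit 0x81) (nat_lit 0) (p (nat_lit 0x41) (nat_lit 1) (p (nat_lit 0x8b0a098a889a) (nat_lit 0) (p (nat_lit 0xa89890a081a) (nat_lit 0) (p (nat_lit 0x8a090888079a) (nat_lit 0) (p (nat_lit 0x9888807871a) (nat_lit 0) (p (nat_lit 0x80000800090788868a) (nat_lit 0) (p (nat_lit 0x80000800088706860a) (nat_lit 0) (p (nat_lit 0x8706878582) (nat_lit 0) (p (nat_lit 0x686070502)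 (nat_lit 0) (p (nat_lit 0x8605850482) (nat_lit 0) (p (nat_lit 0x585048402) (nat_lit 0) (p (nat_lit 0x160014) (nat_lit 0) (p (nat_lit 0x60592) (nat_lit 0) (p (nat_lit 0x48512) (nat_lit 0) (p (nat_lit 0x50392) (nat_lit 0) (p (nat_lit 0x38312) (nat_lit 0) (p (nat_lit 0x40212) (nat_lit 0) (p (nat_lit 0x28192) (nat_lit 0) (p (nat_lit 0x30092) (nat_lit 0) (p (nat_lit 0x18012) (nat_lit 0) pn))))))))))))))))))))))))) :=
  Cl.node (nat_lit 0x89) (nat_lit 2) (by decide +kernel) (ClAll.succ (ClAll.succ ClAll.zero n31) n32)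

def n61 : Cl (O (nat_lit 3)) (R (nat_lit 139473))
    (p (nat_lit 0xc1) (nat_lit 1) (p (nat_lit 0x101) (nat_lit 1) (p (nat_lit 0x119) (nat_lit 0) (p (nat_lit 0xd1) (nat_lit 0) (p (nat_lit 0x81) (nat_lit 0) (p (nat_lit 0x41) (nat_lit 1) (p (nat_lit 0x8b0a098a889a) (nat_lit 0) (p (nat_lit 0xa89890a081a) (nat_lit 0) (p (nat_lit 0x8a090888079a) (nat_lit 0) (p (nat_lit 0x9888807871a) (nat_lit 0) (p (nat_lit 0x80000800090788868a) (nat_lit 0) (p (nat_lit 0x80000800088706860a) (nat_lit 0) (p (nat_lit 0x8706878582) (nat_lit 0) (p (nat_lit 0x686070502) (nat_lit 0) (p (nat_lit 0x8605850482) (nat_lit 0) (p (nat_lit 0x585048402) (nat_lit 0) (p (nat_lit 0x160014) (nat_lit 0) (p (nat_lit 0x60592) (nat_lit 0) (p (nat_lit 0x48512) (nat_lit 0) (p (nat_lit 0x50392) (nat_lit 0) (p (nat_lit 0x38312) (nat_lit 0) (p (nat_lit 0x40212) (nat_lit 0) (p (nat_lit 0x28192) (nat_lit 0) (p (nat_lit 0x30092) (nat_lit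 0) (p (nat_lit 0x18012) (nat_lit 0) pn))))))))))))))))))))))))) :=
  Cl.node (nat_lit 0x89) (nat_lit 2) (by decide +kernel) (ClAll.succ (ClAll.succ ClAll.zero n33) n34)

def n62 : Cl (O (nat_lit 3)) (R (nat_lit 139473))
    (p (nat_lit 0xc9) (nat_lit 1) (p (nat_lit 0xc1) (nat_lit 0) (p (nat_lit 0x119) (nat_lit 1) (p (nat_lit 0xd1) (nat_lit 0) (p (nat_lit 0x81) (nat_lit 0) (p (nat_lit 0x41) (nat_lit 1) (p (nat_lit 0x8b0a098a889a) (nat_lit 0) (p (nat_lit 0xa89890a081a) (nat_lit 0) (p (nat_lit 0x8a090888079a) (nat_lit 0) (p (nat_lit 0x9888807871a) (nat_lit 0) (p (nat_lit 0x80000800090788868a) (nat_lit 0) (p (nat_lit 0x80000800088706860a) (nat_lit 0) (p (nat_lit 0x8706878582) (nat_lit 0) (p (nat_lit 0x686070502) (nat_lit 0) (p (nat_lit 0x8605850482) (nat_lit 0) (p (nat_lit 0x585048402) (nat_lit 0) (p (nat_lit 0x160014) (nat_lit 0) (p (nat_lit 0x60592) (nat_lit 0) (p (nat_lit 0x48512)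 (nat_lit 0) (p (nat_lit 0x50392) (nat_lit 0) (p (nat_lit 0x38312) (nat_lit 0) (p (nat_lit 0x40212) (nat_lit 0) (p (nat_lit 0x28192) (nat_lit 0) (p (nat_lit 0x30092) (nat_lit 0) (p (nat_lit 0x18012) (nat_lit 0) pn))))))))))))))))))))))))) :=
  Cl.node (nat_lit 0x89) (nat_lit 2) (by decide +kernel) (ClAll.succ (ClAll.succ ClAll.zero s66) n35)

def n63 : Cl (O (nat_lit 3)) (R (nat_lit 139473))
    (p (nat_lit 0x101) (nat_lit 0) (p (nat_lit 0xc1) (nat_lit 1) (p (nat_lit 0x119) (nat_lit 1) (p (nat_lit 0xd1) (nat_lit 0) (p (nat_lit 0x81) (nat_lit 0) (p (nat_lit 0x41) (nat_lit 1) (p (nat_lit 0x8b0a098a889a) (nat_lit 0) (p (nat_lit 0xa89890a081a) (nat_lit 0) (p (nat_lit 0x8a090888079a) (nat_lit 0) (p (nat_lit 0x9888807871a) (nat_lit 0) (p (nat_lit 0x80000800090788868a) (nat_lit 0) (p (nat_lit 0x80000800088706860a) (nat_lit 0) (p (nat_lit 0x8706878582) (nat_lit 0) (p (nat_lit 0x686070502)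 (nat_lit 0) (p (nat_lit 0x8605850482) (nat_lit 0) (p (nat_lit 0x585048402) (nat_lit 0) (p (nat_lit 0x160014) (nat_lit 0) (p (nat_lit 0x60592) (nat_lit 0) (p (nat_lit 0x48512) (nat_lit 0) (p (nat_lit 0x50392) (nat_lit 0) (p (nat_lit 0x38312) (nat_lit 0) (p (nat_lit 0x40212) (nat_lit 0) (p (nat_lit 0x28192) (nat_lit 0) (p (nat_lit 0x30092) (nat_lit 0) (p (nat_lit 0x18012) (nat_lit 0) pn))))))))))))))))))))))))) :=
  Cl.node (nat_lit 0x89) (nat_lit 2) (by decide +kernel) (ClAll.succ (ClAll.succ ClAll.zero s70) n36)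

def n64 : Cl (O (nat_lit 3)) (R (nat_lit 139473))
    (p (nat_lit 0x101) (nat_lit 1) (p (nat_lit 0xc1) (nat_lit 1) (p (nat_lit 0x119) (nat_lit 1) (p (nat_lit 0xd1) (nat_lit 0) (p (nat_lit 0x81) (nat_lit 0) (p (nat_lit 0x41) (nat_lit 1) (p (nat_lit 0x8b0a098a889a) (nat_lit 0) (p (nat_lit 0xa89890a081a) (nat_lit 0) (p (nat_lit 0x8a090888079a) (nat_lit 0) (p (nat_lit 0x9888807871a) (nat_lit 0) (p (nat_lit 0x80000800090788868a) (nat_lit 0) (p (nat_lit 0x80000800088706860a) (nat_lit 0) (p (nat_lit 0x8706878582) (nat_lit 0) (p (nat_lit 0x686070502) (nat_lit 0) (p (nat_lit 0x8605850482) (nat_lit 0) (p (nat_lit 0x585048402) (nat_lit 0) (p (nat_lit 0x160014) (nat_lit 0) (p (nat_lit 0x60592) (nat_lit 0) (p (nat_lit 0x48512) (nat_lit 0) (p (nat_lit 0x50392) (nat_lit 0) (p (nat_lit 0x38312) (nat_lit 0) (p (nat_lit 0x40212) (nat_lit 0) (p (nat_lit 0x28192) (nat_lit 0) (p (nat_lit 0x30092) (nat_lit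 0) (p (nat_lit 0x18012) (nat_lit 0) pn))))))))))))))))))))))))) :=
  Cl.node (nat_lit 0x89) (nat_lit 2) (by decide +kernel) (ClAll.succ (ClAll.succ ClAll.zero n37) n38)

def n65 : Cl (O (nat_lit 3)) (R (nat_lit 139473))
    (p (nat_lit 0x109) (nat_lit 1) (p (nat_lit 0x101) (nat_lit 0) (p (nat_lit 0x111) (nat_lit 0) (p (nat_lit 0xd1) (nat_lit 1) (p (nat_lit 0x81) (nat_lit 0) (p (nat_lit 0x41) (nat_lit 1) (p (nat_lit 0x8b0a098a889a) (nat_lit 0) (p (nat_lit 0xa89890a081a) (nat_lit 0) (p (nat_lit 0x8a090888079a) (nat_lit 0) (p (nat_lit 0x9888807871a) (nat_lit 0) (p (nat_lit 0x80000800090788868a) (nat_lit 0) (p (nat_lit 0x80000800088706860a) (nat_lit 0) (p (nat_lit 0x8706878582) (nat_lit 0) (p (nat_lit 0x686070502) (nat_lit 0) (p (nat_lit 0x8605850482) (nat_lit 0) (p (nat_lit 0x585048402) (nat_lit 0) (p (nat_lit 0x160014) (nat_lit 0) (p (nat_lit 0x60592) (nat_lit 0) (p (nat_lit 0x48512)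 (nat_lit 0) (p (nat_lit 0x50392) (nat_lit 0) (p (nat_lit 0x38312) (nat_lit 0) (p (nat_lit 0x40212) (nat_lit 0) (p (nat_lit 0x28192) (nat_lit 0) (p (nat_lit 0x30092) (nat_lit 0) (p (nat_lit 0x18012) (nat_lit 0) pn))))))))))))))))))))))))) :=
  Cl.node (nat_lit 0x89) (nat_lit 2) (by decide +kernel) (ClAll.succ (ClAll.succ ClAll.zero s82) n39)

def n66 : Cl (O (nat_lit 3)) (R (nat_lit 139473))
    (p (nat_lit 0x89) (nat_lit 0) (p (nat_lit 0x101) (nat_lit 1) (p (nat_lit 0x111) (nat_lit 0) (p (nat_lit 0xd1) (nat_lit 1) (p (nat_lit 0x81) (nat_lit 0) (p (nat_lit 0x41) (nat_lit 1) (p (nat_lit 0x8b0a098a889a) (nat_lit 0) (p (nat_lit 0xa89890a081a) (nat_lit 0) (p (nat_lit 0x8a090888079a) (nat_lit 0) (p (nat_lit 0x9888807871a) (nat_lit 0) (p (nat_lit 0x80000800090788868a) (nat_lit 0) (p (nat_lit 0x80000800088706860a) (nat_lit 0) (p (nat_lit 0x8706878582) (nat_lit 0) (p (nat_lit 0x686070502)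 (nat_lit 0) (p (nat_lit 0x8605850482) (nat_lit 0) (p (nat_lit 0x585048402) (nat_lit 0) (p (nat_lit 0x160014) (nat_lit 0) (p (nat_lit 0x60592) (nat_lit 0) (p (nat_lit 0x48512) (nat_lit 0) (p (nat_lit 0x50392) (nat_lit 0) (p (nat_lit 0x38312) (nat_lit 0) (p (nat_lit 0x40212) (nat_lit 0) (p (nat_lit 0x28192) (nat_lit 0) (p (nat_lit 0x30092) (nat_lit 0) (p (nat_lit 0x18012) (nat_lit 0) pn))))))))))))))))))))))))) :=
  Cl.node (nat_lit 0x200004) (nat_lit 2) (by decide +kernel) (ClAll.succ (ClAll.succ ClAll.zero s87) s88)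

def n67 : Cl (O (nat_lit 3)) (R (nat_lit 139473))
    (p (nat_lit 0x89) (nat_lit 1) (p (nat_lit 0x101) (nat_lit 1) (p (nat_lit 0x111) (nat_lit 0) (p (nat_lit 0xd1) (nat_lit 1) (p (nat_lit 0x81) (nat_lit 0) (p (nat_lit 0x41) (nat_lit 1) (p (nat_lit 0x8b0a098a889a) (nat_lit 0) (p (nat_lit 0xa89890a081a) (nat_lit 0) (p (nat_lit 0x8a090888079a) (nat_lit 0) (p (nat_lit 0x9888807871a) (nat_lit 0) (p (nat_lit 0x80000800090788868a) (nat_lit 0) (p (nat_lit 0x80000800088706860a) (nat_lit 0) (p (nat_lit 0x8706878582) (nat_lit 0) (p (nat_lit 0x686070502) (nat_lit 0) (p (nat_lit 0x8605850482) (nat_lit 0) (p (nat_lit 0x585048402) (nat_lit 0) (p (nat_lit 0x160014) (nat_lit 0) (p (nat_lit 0x60592) (nat_lit 0) (p (nat_lit 0x48512) (nat_lit 0) (p (nat_lit 0x50392) (nat_lit 0) (p (nat_lit 0x38312) (nat_lit 0) (p (nat_lit 0x40212) (nat_lit 0) (p (nat_lit 0x28192) (nat_lit 0) (p (nat_lit 0x30092) (nat_lit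 0) (p (nat_lit 0x18012) (nat_lit 0) pn))))))))))))))))))))))))) :=
  Cl.node (nat_lit 0xc9) (nat_lit 2) (by decide +kernel) (ClAll.succ (ClAll.succ ClAll.zero n40) s91)

def n68 : Cl (O (nat_lit 3)) (R (nat_lit 139473))
    (p (nat_lit 0x109) (nat_lit 0) (p (nat_lit 0x101) (nat_lit 0) (p (nat_lit 0x119) (nat_lit 0) (p (nat_lit 0xc1) (nat_lit 0) (p (nat_lit 0x81) (nat_lit 1) (p (nat_lit 0x41) (nat_lit 1) (p (nat_lit 0x8b0a098a889a) (nat_lit 0) (p (nat_lit 0xa89890a081a) (nat_lit 0) (p (nat_lit 0x8a090888079a) (nat_lit 0) (p (nat_lit 0x9888807871a) (nat_lit 0) (p (nat_lit 0x80000800090788868a) (nat_lit 0) (p (nat_lit 0x80000800088706860a) (nat_lit 0) (p (nat_lit 0x8706878582) (nat_lit 0) (p (nat_lit 0x686070502) (nat_lit 0) (p (nat_lit 0x8605850482) (nat_lit 0) (p (nat_lit 0x585048402) (nat_lit 0) (p (nat_lit 0x160014) (nat_lit 0) (p (nat_lit 0x60592) (nat_lit 0) (p (nat_lit 0x48512)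 (nat_lit 0) (p (nat_lit 0x50392) (nat_lit 0) (p (nat_lit 0x38312) (nat_lit 0) (p (nat_lit 0x40212) (nat_lit 0) (p (nat_lit 0x28192) (nat_lit 0) (p (nat_lit 0x30092) (nat_lit 0) (p (nat_lit 0x18012) (nat_lit 0) pn))))))))))))))))))))))))) :=
  Cl.node (nat_lit 0x111) (nat_lit 2) (by decide +kernel) (ClAll.succ (ClAll.succ ClAll.zero s95) n41)

def n69 : Cl (O (nat_lit 3)) (R (nat_lit 139473))
    (p (nat_lit 0x109) (nat_lit 1) (p (nat_lit 0x101) (nat_lit 0) (p (nat_lit 0x119) (nat_lit 0) (p (nat_lit 0xc1) (nat_lit 0) (p (nat_lit 0x81) (nat_lit 1) (p (nat_lit 0x41) (nat_lit 1) (p (nat_lit 0x8b0a098a889a) (nat_lit 0) (p (nat_lit 0xa89890a081a) (nat_lit 0) (p (nat_lit 0x8a090888079a) (nat_lit 0) (p (nat_lit 0x9888807871a) (nat_lit 0) (p (nat_lit 0x80000800090788868a) (nat_lit 0) (p (nat_lit 0x80000800088706860a) (nat_lit 0) (p (nat_lit 0x8706878582) (nat_lit 0) (p (nat_lit 0x686070502)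 (nat_lit 0) (p (nat_lit 0x8605850482) (nat_lit 0) (p (nat_lit 0x585048402) (nat_lit 0) (p (nat_lit 0x160014) (nat_lit 0) (p (nat_lit 0x60592) (nat_lit 0) (p (nat_lit 0x48512) (nat_lit 0) (p (nat_lit 0x50392) (nat_lit 0) (p (nat_lit 0x38312) (nat_lit 0) (p (nat_lit 0x40212) (nat_lit 0) (p (nat_lit 0x28192) (nat_lit 0) (p (nat_lit 0x30092) (nat_lit 0) (p (nat_lit 0x18012) (nat_lit 0) pn))))))))))))))))))))))))) :=
  Cl.node (nat_lit 0xc9) (nat_lit 2) (by decide +kernel) (ClAll.succ (ClAll.succ ClAll.zero n42) s102)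

def n70 : Cl (O (nat_lit 3)) (R (nat_lit 139473))
    (p (nat_lit 0xc9) (nat_lit 0) (p (nat_lit 0x101) (nat_lit 1) (p (nat_lit 0x119) (nat_lit 0) (p (nat_lit 0xc1) (nat_lit 0) (p (nat_lit 0x81) (nat_lit 1) (p (nat_lit 0x41) (nat_lit 1) (p (nat_lit 0x8b0a098a889a) (nat_lit 0) (p (nat_lit 0xa89890a081a) (nat_lit 0) (p (nat_lit 0x8a090888079a) (nat_lit 0) (p (nat_lit 0x9888807871a) (nat_lit 0) (p (nat_lit 0x80000800090788868a) (nat_lit 0) (p (nat_lit 0x80000800088706860a) (nat_lit 0) (p (nat_lit 0x8706878582) (nat_lit 0) (p (nat_lit 0x686070502) (nat_lit 0) (p (nat_lit 0x8605850482) (nat_lit 0) (p (nat_lit 0x585048402) (nat_lit 0) (p (nat_lit 0x160014) (nat_lit 0) (p (nat_lit 0x60592) (nat_lit 0) (p (nat_lit 0x48512) (nat_lit 0) (p (nat_lit 0x50392) (nat_lit 0) (p (nat_lit 0x38312) (nat_lit 0) (p (nat_lit 0x40212) (nat_lit 0) (p (nat_lit 0x28192) (nat_lit 0) (p (nat_lit 0x30092) (nat_lit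 0) (p (nat_lit 0x18012) (nat_lit 0) pn))))))))))))))))))))))))) :=
  Cl.node (nat_lit 0xd1) (nat_lit 2) (by decide +kernel) (ClAll.succ (ClAll.succ ClAll.zero s103) n43)

def n71 : Cl (O (nat_lit 3)) (R (nat_lit 139473))
    (p (nat_lit 0xd1) (nat_lit 1) (p (nat_lit 0xc9) (nat_lit 0) (p (nat_lit 0x119) (nat_lit 1) (p (nat_lit 0xc1) (nat_lit 0) (p (nat_lit 0x81) (nat_lit 1) (p (nat_lit 0x41) (nat_lit 1) (p (nat_lit 0x8b0a098a889a) (nat_lit 0) (p (nat_lit 0xa89890a081a) (nat_lit 0) (p (nat_lit 0x8a090888079a) (nat_lit 0) (p (nat_lit 0x9888807871a) (nat_lit 0) (p (nat_lit 0x80000800090788868a) (nat_lit 0) (p (nat_lit 0x80000800088706860a) (nat_lit 0) (p (nat_lit 0x8706878582) (nat_lit 0) (p (nat_lit 0x686070502) (nat_lit 0) (p (nat_lit 0x8605850482) (nat_lit 0) (p (nat_lit 0x585048402) (nat_lit 0) (p (nat_lit 0x160014) (nat_lit 0) (p (nat_lit 0x60592) (nat_lit 0) (p (nat_lit 0x48512)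 (nat_lit 0) (p (nat_lit 0x50392) (nat_lit 0) (p (nat_lit 0x38312) (nat_lit 0) (p (nat_lit 0x40212) (nat_lit 0) (p (nat_lit 0x28192) (nat_lit 0) (p (nat_lit 0x30092) (nat_lit 0) (p (nat_lit 0x18012) (nat_lit 0) pn))))))))))))))))))))))))) :=
  Cl.node (nat_lit 0x111) (nat_lit 2) (by decide +kernel) (ClAll.succ (ClAll.succ ClAll.zero s109) n44)

def n72 : Cl (O (nat_lit 3)) (R (nat_lit 139473))
    (p (nat_lit 0x109) (nat_lit 0) (p (nat_lit 0xc9) (nat_lit 1) (p (nat_lit 0x119) (nat_lit 1) (p (nat_lit 0xc1) (nat_lit 0) (p (nat_lit 0x81) (nat_lit 1) (p (nat_lit 0x41) (nat_lit 1) (p (nat_lit 0x8b0a098a889a) (nat_lit 0) (p (nat_lit 0xa89890a081a) (nat_lit 0) (p (nat_lit 0x8a090888079a) (nat_lit 0) (p (nat_lit 0x9888807871a) (nat_lit 0) (p (nat_lit 0x80000800090788868a) (nat_lit 0) (p (nat_lit 0x80000800088706860a) (nat_lit 0) (p (nat_lit 0x8706878582) (nat_lit 0) (p (nat_lit 0x686070502)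 (nat_lit 0) (p (nat_lit 0x8605850482) (nat_lit 0) (p (nat_lit 0x585048402) (nat_lit 0) (p (nat_lit 0x160014) (nat_lit 0) (p (nat_lit 0x60592) (nat_lit 0) (p (nat_lit 0x48512) (nat_lit 0) (p (nat_lit 0x50392) (nat_lit 0) (p (nat_lit 0x38312) (nat_lit 0) (p (nat_lit 0x40212) (nat_lit 0) (p (nat_lit 0x28192) (nat_lit 0) (p (nat_lit 0x30092) (nat_lit 0) (p (nat_lit 0x18012) (nat_lit 0) pn))))))))))))))))))))))))) :=
  Cl.node (nat_lit 0x111) (nat_lit 2) (by decide +kernel) (ClAll.succ (ClAll.succ ClAll.zero s114) n45)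

def n73 : Cl (O (nat_lit 3)) (R (nat_lit 139473))
    (p (nat_lit 0x101) (nat_lit 0) (p (nat_lit 0x119) (nat_lit 0) (p (nat_lit 0xd1) (nat_lit 0) (p (nat_lit 0x89) (nat_lit 0) (p (nat_lit 0x41) (nat_lit 0) (p (nat_lit 0x8b0a098a889a) (nat_lit 0) (p (nat_lit 0xa89890a081a) (nat_lit 0) (p (nat_lit 0x8a090888079a) (nat_lit 0) (p (nat_lit 0x9888807871a) (nat_lit 0) (p (nat_lit 0x80000800090788868a) (nat_lit 0) (p (nat_lit 0x80000800088706860a) (nat_lit 0) (p (nat_lit 0x8706878582) (nat_lit 0) (p (nat_lit 0x686070502) (nat_lit 0) (p (nat_lit 0x8605850482) (nat_lit 0) (p (nat_lit 0x585048402) (nat_lit 0) (p (nat_lit 0x160014) (nat_lit 0) (p (nat_lit 0x60592) (nat_lit 0) (p (nat_lit 0x48512) (nat_lit 0) (p (nat_lit 0x50392) (nat_lit 0) (p (nat_lit 0x38312) (nat_lit 0) (p (nat_lit 0x40212) (nat_lit 0) (p (nat_lit 0x28192) (nat_lit 0) (p (nat_lit 0x30092) (nat_lit 0) (p (nat_lit 0x18012)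 (nat_lit 0) pn)))))))))))))))))))))))) :=
  Cl.node (nat_lit 0x109) (nat_lit 2) (by decide +kernel) (ClAll.succ (ClAll.succ ClAll.zero s0) n46)

def n74 : Cl (O (nat_lit 3)) (R (nat_lit 139473))
    (p (nat_lit 0x101) (nat_lit 1) (p (nat_lit 0x119) (nat_lit 0) (p (nat_lit 0xd1) (nat_lit 0) (p (nat_lit 0x89) (nat_lit 0) (p (nat_lit 0x41) (nat_lit 0) (p (nat_lit 0x8b0a098a889a) (nat_lit 0) (p (nat_lit 0xa89890a081a) (nat_lit 0) (p (nat_lit 0x8a090888079a) (nat_lit 0) (p (nat_lit 0x9888807871a) (nat_lit 0) (p (nat_lit 0x80000800090788868a) (nat_lit 0) (p (nat_lit 0x80000800088706860a) (nat_lit 0) (p (nat_lit 0x8706878582) (nat_lit 0) (p (nat_lit 0x686070502) (nat_lit 0) (p (nat_lit 0x8605850482) (nat_lit 0) (p (nat_lit 0x585048402) (nat_lit 0) (p (nat_lit 0x160014) (nat_lit 0) (p (nat_lit 0x60592) (nat_lit 0) (p (nat_lit 0x48512) (nat_lit 0) (p (nat_lit 0x50392) (nat_lit 0) (p (nat_lit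 0x38312) (nat_lit 0) (p (nat_lit 0x40212) (nat_lit 0) (p (nat_lit 0x28192) (nat_lit 0) (p (nat_lit 0x30092) (nat_lit 0) (p (nat_lit 0x18012) (nat_lit 0) pn)))))))))))))))))))))))) :=
  Cl.node (nat_lit 0x81) (nat_lit 2) (by decide +kernel) (ClAll.succ (ClAll.succ ClAll.zero n47) n48)

def n75 : Cl (O (nat_lit 3)) (R (nat_lit 139473))
    (p (nat_lit 0xc1) (nat_lit 0) (p (nat_lit 0x119) (nat_lit 1) (p (nat_lit 0xd1) (nat_lit 0) (p (nat_lit 0x89) (nat_lit 0) (p (nat_lit 0x41) (nat_lit 0) (p (nat_lit 0x8b0a098a889a) (nat_lit 0) (p (nat_lit 0xa89890a081a) (nat_lit 0) (p (nat_lit 0x8a090888079a) (nat_lit 0) (p (nat_lit 0x9888807871a) (nat_lit 0) (p (nat_lit 0x80000800090788868a) (nat_lit 0) (p (nat_lit 0x80000800088706860a) (nat_lit 0) (p (nat_lit 0x8706878582) (nat_lit 0) (p (nat_lit 0x686070502) (nat_lit 0) (p (nat_lit 0x8605850482) (nat_lit 0) (p (nat_lit 0x585048402) (nat_lit 0) (p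 (nat_lit 0x160014) (nat_lit 0) (p (nat_lit 0x60592) (nat_lit 0) (p (nat_lit 0x48512) (nat_lit 0) (p (nat_lit 0x50392) (nat_lit 0) (p (nat_lit 0x38312) (nat_lit 0) (p (nat_lit 0x40212) (nat_lit 0) (p (nat_lit 0x28192) (nat_lit 0) (p (nat_lit 0x30092) (nat_lit 0) (p (nat_lit 0x18012) (nat_lit 0) pn)))))))))))))))))))))))) :=
  Cl.node (nat_lit 0xc9) (nat_lit 2) (by decide +kernel) (ClAll.succ (ClAll.succ ClAll.zero s12) n49)

def n76 : Cl (O (nat_lit 3)) (R (nat_lit 139473))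
    (p (nat_lit 0xc1) (nat_lit 1) (p (nat_lit 0x119) (nat_lit 1) (p (nat_lit 0xd1) (nat_lit 0) (p (nat_lit 0x89) (nat_lit 0) (p (nat_lit 0x41) (nat_lit 0) (p (nat_lit 0x8b0a098a889a) (nat_lit 0) (p (nat_lit 0xa89890a081a) (nat_lit 0) (p (nat_lit 0x8a090888079a) (nat_lit 0) (p (nat_lit 0x9888807871a) (nat_lit 0) (p (nat_lit 0x80000800090788868a) (nat_lit 0) (p (nat_lit 0x80000800088706860a) (nat_lit 0) (p (nat_lit 0x8706878582) (nat_lit 0) (p (nat_lit 0x686070502) (nat_lit 0) (p (nat_lit 0x8605850482) (nat_lit 0) (p (nat_lit 0x585048402) (nat_lit 0) (p (nat_lit 0x160014) (nat_lit 0) (p (nat_lit 0x60592) (nat_lit 0) (p (nat_lit 0x48512) (nat_lit 0) (p (nat_lit 0x50392) (nat_lit 0) (p (nat_lit 0x38312) (nat_lit 0) (p (nat_lit 0x40212) (nat_lit 0) (p (nat_lit 0x28192) (nat_lit 0) (p (nat_lit 0x30092) (nat_lit 0) (p (nat_lit 0x18012) (nat_lit 0) pn)))))))))))))))))))))))) :=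
  Cl.node (nat_lit 0x81) (nat_lit 2) (by decide +kernel) (ClAll.succ (ClAll.succ ClAll.zero n50) n51)

def n77 : Cl (O (nat_lit 3)) (R (nat_lit 139473))
    (p (nat_lit 0x101) (nat_lit 0) (p (nat_lit 0x111) (nat_lit 0) (p (nat_lit 0xd1) (nat_lit 1) (p (nat_lit 0x89) (nat_lit 0) (p (nat_lit 0x41) (nat_lit 0) (p (nat_lit 0x8b0a098a889a) (nat_lit 0) (p (nat_lit 0xa89890a081a) (nat_lit 0) (p (nat_lit 0x8a090888079a) (nat_lit 0) (p (nat_lit 0x9888807871a) (nat_lit 0) (p (nat_lit 0x80000800090788868a) (nat_lit 0) (p (nat_lit 0x80000800088706860a) (nat_lit 0) (p (nat_lit 0x8706878582) (nat_lit 0) (p (nat_lit 0x686070502) (nat_lit 0) (p (nat_lit 0x8605850482) (nat_lit 0) (p (nat_lit 0x585048402) (nat_lit 0) (p (nat_lit 0x160014) (nat_lit 0) (p (nat_lit 0x60592) (nat_lit 0) (p (nat_lit 0x48512) (nat_lit 0) (p (nat_lit 0x50392) (nat_lit 0) (p (nat_lit 0x38312) (nat_lit 0) (p (nat_lit 0x40212)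 (nat_lit 0) (p (nat_lit 0x28192) (nat_lit 0) (p (nat_lit 0x30092) (nat_lit 0) (p (nat_lit 0x18012) (nat_lit 0) pn)))))))))))))))))))))))) :=
  Cl.node (nat_lit 0x109) (nat_lit 2) (by decide +kernel) (ClAll.succ (ClAll.succ ClAll.zero s21) n52)

def n78 : Cl (O (nat_lit 3)) (R (nat_lit 139473))
    (p (nat_lit 0x101) (nat_lit 1) (p (nat_lit 0x111) (nat_lit 0) (p (nat_lit 0xd1) (nat_lit 1) (p (nat_lit 0x89) (nat_lit 0) (p (nat_lit 0x41) (nat_lit 0) (p (nat_lit 0x8b0a098a889a) (nat_lit 0) (p (nat_lit 0xa89890a081a) (nat_lit 0) (p (nat_lit 0x8a090888079a) (nat_lit 0) (p (nat_lit 0x9888807871a) (nat_lit 0) (p (nat_lit 0x80000800090788868a) (nat_lit 0) (p (nat_lit 0x80000800088706860a) (nat_lit 0) (p (nat_lit 0x8706878582) (nat_lit 0) (p (nat_lit 0x686070502) (nat_lit 0) (p (nat_lit 0x8605850482) (nat_lit 0) (p (nat_lit 0x585048402) (nat_lit 0) (p (nat_lit 0x160014) (nat_lit 0) (p (nat_lit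 0x60592) (nat_lit 0) (p (nat_lit 0x48512) (nat_lit 0) (p (nat_lit 0x50392) (nat_lit 0) (p (nat_lit 0x38312) (nat_lit 0) (p (nat_lit 0x40212) (nat_lit 0) (p (nat_lit 0x28192) (nat_lit 0) (p (nat_lit 0x30092) (nat_lit 0) (p (nat_lit 0x18012) (nat_lit 0) pn)))))))))))))))))))))))) :=
  Cl.node (nat_lit 0x81) (nat_lit 2) (by decide +kernel) (ClAll.succ (ClAll.succ ClAll.zero n53) n54)

def n79 : Cl (O (nat_lit 3)) (R (nat_lit 139473))
    (p (nat_lit 0x81) (nat_lit 1) (p (nat_lit 0x111) (nat_lit 1) (p (nat_lit 0xd1) (nat_lit 1) (p (nat_lit 0x89) (nat_lit 0) (p (nat_lit 0x41) (nat_lit 0) (p (nat_lit 0x8b0a098a889a) (nat_lit 0) (p (nat_lit 0xa89890a081a) (nat_lit 0) (p (nat_lit 0x8a090888079a) (nat_lit 0) (p (nat_lit 0x9888807871a) (nat_lit 0) (p (nat_lit 0x80000800090788868a) (nat_lit 0) (p (nat_lit 0x80000800088706860a) (nat_lit 0) (p (nat_lit 0x8706878582) (nat_lit 0) (p (nat_lit 0x686070502)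 (nat_lit 0) (p (nat_lit 0x8605850482) (nat_lit 0) (p (nat_lit 0x585048402) (nat_lit 0) (p (nat_lit 0x160014) (nat_lit 0) (p (nat_lit 0x60592) (nat_lit 0) (p (nat_lit 0x48512) (nat_lit 0) (p (nat_lit 0x50392) (nat_lit 0) (p (nat_lit 0x38312) (nat_lit 0) (p (nat_lit 0x40212) (nat_lit 0) (p (nat_lit 0x28192) (nat_lit 0) (p (nat_lit 0x30092) (nat_lit 0) (p (nat_lit 0x18012) (nat_lit 0) pn)))))))))))))))))))))))) :=
  Cl.node (nat_lit 0xc1) (nat_lit 2) (by decide +kernel) (ClAll.succ (ClAll.succ ClAll.zero s33) n55)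

def n80 : Cl (O (nat_lit 3)) (R (nat_lit 139473))
    (p (nat_lit 0x101) (nat_lit 0) (p (nat_lit 0x119) (nat_lit 0) (p (nat_lit 0xc9) (nat_lit 0) (p (nat_lit 0x89) (nat_lit 1) (p (nat_lit 0x41) (nat_lit 0) (p (nat_lit 0x8b0a098a889a) (nat_lit 0) (p (nat_lit 0xa89890a081a) (nat_lit 0) (p (nat_lit 0x8a090888079a) (nat_lit 0) (p (nat_lit 0x9888807871a) (nat_lit 0) (p (nat_lit 0x80000800090788868a) (nat_lit 0) (p (nat_lit 0x80000800088706860a) (nat_lit 0) (p (nat_lit 0x8706878582) (nat_lit 0) (p (nat_lit 0x686070502) (nat_lit 0) (p (nat_lit 0x8605850482) (nat_lit 0) (p (nat_lit 0x585048402) (nat_lit 0) (p (nat_lit 0x160014) (nat_lit 0) (p (nat_lit 0x60592) (nat_lit 0) (p (nat_lit 0x48512) (nat_lit 0) (p (nat_lit 0x50392) (nat_lit 0) (p (nat_lit 0x38312) (nat_lit 0) (p (nat_lit 0x40212) (nat_lit 0) (p (nat_lit 0x28192) (nat_lit 0) (p (nat_lit 0x30092) (nat_lit 0) (p (nat_lit 0x18012)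 (nat_lit 0) pn)))))))))))))))))))))))) :=
  Cl.node (nat_lit 0x109) (nat_lit 2) (by decide +kernel) (ClAll.succ (ClAll.succ ClAll.zero n56) n57)

def n81 : Cl (O (nat_lit 3)) (R (nat_lit 139473))
    (p (nat_lit 0x101) (nat_lit 1) (p (nat_lit 0x119) (nat_lit 0) (p (nat_lit 0xc9) (nat_lit 0) (p (nat_lit 0x89) (nat_lit 1) (p (nat_lit 0x41) (nat_lit 0) (p (nat_lit 0x8b0a098a889a) (nat_lit 0) (p (nat_lit 0xa89890a081a) (nat_lit 0) (p (nat_lit 0x8a090888079a) (nat_lit 0) (p (nat_lit 0x9888807871a) (nat_lit 0) (p (nat_lit 0x80000800090788868a) (nat_lit 0) (p (nat_lit 0x80000800088706860a) (nat_lit 0) (p (nat_lit 0x8706878582) (nat_lit 0) (p (nat_lit 0x686070502) (nat_lit 0) (p (nat_lit 0x8605850482) (nat_lit 0) (p (nat_lit 0x585048402) (nat_lit 0) (p (nat_lit 0x160014) (nat_lit 0) (p (nat_lit 0x60592) (nat_lit 0) (p (nat_lit 0x48512) (nat_lit 0) (p (nat_lit 0x50392) (nat_lit 0) (p (nat_lit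 0x38312) (nat_lit 0) (p (nat_lit 0x40212) (nat_lit 0) (p (nat_lit 0x28192) (nat_lit 0) (p (nat_lit 0x30092) (nat_lit 0) (p (nat_lit 0x18012) (nat_lit 0) pn)))))))))))))))))))))))) :=
  Cl.node (nat_lit 0xc1) (nat_lit 2) (by decide +kernel) (ClAll.succ (ClAll.succ ClAll.zero n58) s44)

def n82 : Cl (O (nat_lit 3)) (R (nat_lit 139473))
    (p (nat_lit 0xc1) (nat_lit 1) (p (nat_lit 0x119) (nat_lit 1) (p (nat_lit 0xc9) (nat_lit 0) (p (nat_lit 0x89) (nat_lit 1) (p (nat_lit 0x41) (nat_lit 0) (p (nat_lit 0x8b0a098a889a) (nat_lit 0) (p (nat_lit 0xa89890a081a) (nat_lit 0) (p (nat_lit 0x8a090888079a) (nat_lit 0) (p (nat_lit 0x9888807871a) (nat_lit 0) (p (nat_lit 0x80000800090788868a) (nat_lit 0) (p (nat_lit 0x80000800088706860a) (nat_lit 0) (p (nat_lit 0x8706878582) (nat_lit 0) (p (nat_lit 0x686070502) (nat_lit 0) (p (nat_lit 0x8605850482) (nat_lit 0) (p (nat_lit 0x585048402) (nat_lit 0) (p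 (nat_lit 0x160014) (nat_lit 0) (p (nat_lit 0x60592) (nat_lit 0) (p (nat_lit 0x48512) (nat_lit 0) (p (nat_lit 0x50392) (nat_lit 0) (p (nat_lit 0x38312) (nat_lit 0) (p (nat_lit 0x40212) (nat_lit 0) (p (nat_lit 0x28192) (nat_lit 0) (p (nat_lit 0x30092) (nat_lit 0) (p (nat_lit 0x18012) (nat_lit 0) pn)))))))))))))))))))))))) :=
  Cl.node (nat_lit 0x101) (nat_lit 2) (by decide +kernel) (ClAll.succ (ClAll.succ ClAll.zero s46) s47)

def n83 : Cl (O (nat_lit 3)) (R (nat_lit 139473))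
    (p (nat_lit 0x101) (nat_lit 0) (p (nat_lit 0x119) (nat_lit 0) (p (nat_lit 0xd1) (nat_lit 0) (p (nat_lit 0x81) (nat_lit 0) (p (nat_lit 0x41) (nat_lit 1) (p (nat_lit 0x8b0a098a889a) (nat_lit 0) (p (nat_lit 0xa89890a081a) (nat_lit 0) (p (nat_lit 0x8a090888079a) (nat_lit 0) (p (nat_lit 0x9888807871a) (nat_lit 0) (p (nat_lit 0x80000800090788868a) (nat_lit 0) (p (nat_lit 0x80000800088706860a) (nat_lit 0) (p (nat_lit 0x8706878582) (nat_lit 0) (p (nat_lit 0x686070502) (nat_lit 0) (p (nat_lit 0x8605850482) (nat_lit 0) (p (nat_lit 0x585048402) (nat_lit 0) (p (nat_lit 0x160014) (nat_lit 0) (p (nat_lit 0x60592) (nat_lit 0) (p (nat_lit 0x48512) (nat_lit 0) (p (nat_lit 0x50392) (nat_lit 0) (p (nat_lit 0x38312) (nat_lit 0) (p (nat_lit 0x40212) (nat_lit 0) (p (nat_lit 0x28192) (nat_lit 0) (p (nat_lit 0x30092) (nat_lit 0) (p (nat_lit 0x18012) (nat_lit 0) pn)))))))))))))))))))))))) :=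
  Cl.node (nat_lit 0x109) (nat_lit 2) (by decide +kernel) (ClAll.succ (ClAll.succ ClAll.zero s49) n59)

def n84 : Cl (O (nat_lit 3)) (R (nat_lit 139473))
    (p (nat_lit 0x101) (nat_lit 1) (p (nat_lit 0x119) (nat_lit 0) (p (nat_lit 0xd1) (nat_lit 0) (p (nat_lit 0x81) (nat_lit 0) (p (nat_lit 0x41) (nat_lit 1) (p (nat_lit 0x8b0a098a889a) (nat_lit 0) (p (nat_lit 0xa89890a081a) (nat_lit 0) (p (nat_lit 0x8a090888079a) (nat_lit 0) (p (nat_lit 0x9888807871a) (nat_lit 0) (p (nat_lit 0x80000800090788868a) (nat_lit 0) (p (nat_lit 0x80000800088706860a) (nat_lit 0) (p (nat_lit 0x8706878582) (nat_lit 0) (p (nat_lit 0x686070502) (nat_lit 0) (p (nat_lit 0x8605850482) (nat_lit 0) (p (nat_lit 0x585048402) (nat_lit 0) (p (nat_lit 0x160014) (nat_lit 0) (p (nat_lit 0x60592) (nat_lit 0) (p (nat_lit 0x48512) (nat_lit 0) (p (nat_lit 0x50392) (nat_lit 0) (p (nat_lit 0x38312) (nat_lit 0) (p (nat_lit 0x40212)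 (nat_lit 0) (p (nat_lit 0x28192) (nat_lit 0) (p (nat_lit 0x30092) (nat_lit 0) (p (nat_lit 0x18012) (nat_lit 0) pn)))))))))))))))))))))))) :=
  Cl.node (nat_lit 0xc1) (nat_lit 2) (by decide +kernel) (ClAll.succ (ClAll.succ ClAll.zero n60) n61)

def n85 : Cl (O (nat_lit 3)) (R (nat_lit 139473))
    (p (nat_lit 0xc1) (nat_lit 0) (p (nat_lit 0x119) (nat_lit 1) (p (nat_lit 0xd1) (nat_lit 0) (p (nat_lit 0x81) (nat_lit 0) (p (nat_lit 0x41) (nat_lit 1) (p (nat_lit 0x8b0a098a889a) (nat_lit 0) (p (nat_lit 0xa89890a081a) (nat_lit 0) (p (nat_lit 0x8a090888079a) (nat_lit 0) (p (nat_lit 0x9888807871a) (nat_lit 0) (p (nat_lit 0x80000800090788868a) (nat_lit 0) (p (nat_lit 0x80000800088706860a) (nat_lit 0) (p (nat_lit 0x8706878582) (nat_lit 0) (p (nat_lit 0x686070502) (nat_lit 0) (p (nat_lit 0x8605850482) (nat_lit 0) (p (nat_lit 0x585048402) (nat_lit 0) (p (nat_lit 0x160014) (nat_lit 0) (p (nat_lit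 0x60592) (nat_lit 0) (p (nat_lit 0x48512) (nat_lit 0) (p (nat_lit 0x50392) (nat_lit 0) (p (nat_lit 0x38312) (nat_lit 0) (p (nat_lit 0x40212) (nat_lit 0) (p (nat_lit 0x28192) (nat_lit 0) (p (nat_lit 0x30092) (nat_lit 0) (p (nat_lit 0x18012) (nat_lit 0) pn)))))))))))))))))))))))) :=
  Cl.node (nat_lit 0xc9) (nat_lit 2) (by decide +kernel) (ClAll.succ (ClAll.succ ClAll.zero s65) n62)

def n86 : Cl (O (nat_lit 3)) (R (nat_lit 139473))
    (p (nat_lit 0xc1) (nat_lit 1) (p (nat_lit 0x119) (nat_lit 1) (p (nat_lit 0xd1) (nat_lit 0) (p (nat_lit 0x81) (nat_lit 0) (p (nat_lit 0x41) (nat_lit 1) (p (nat_lit 0x8b0a098a889a) (nat_lit 0) (p (nat_lit 0xa89890a081a) (nat_lit 0) (p (nat_lit 0x8a090888079a) (nat_lit 0) (p (nat_lit 0x9888807871a) (nat_lit 0) (p (nat_lit 0x80000800090788868a) (nat_lit 0) (p (nat_lit 0x80000800088706860a) (nat_lit 0) (p (nat_lit 0x8706878582) (nat_lit 0) (p (nat_lit 0x686070502)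 (nat_lit 0) (p (nat_lit 0x8605850482) (nat_lit 0) (p (nat_lit 0x585048402) (nat_lit 0) (p (nat_lit 0x160014) (nat_lit 0) (p (nat_lit 0x60592) (nat_lit 0) (p (nat_lit 0x48512) (nat_lit 0) (p (nat_lit 0x50392) (nat_lit 0) (p (nat_lit 0x38312) (nat_lit 0) (p (nat_lit 0x40212) (nat_lit 0) (p (nat_lit 0x28192) (nat_lit 0) (p (nat_lit 0x30092) (nat_lit 0) (p (nat_lit 0x18012) (nat_lit 0) pn)))))))))))))))))))))))) :=
  Cl.node (nat_lit 0x101) (nat_lit 2) (by decide +kernel) (ClAll.succ (ClAll.succ ClAll.zero n63) n64)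

def n87 : Cl (O (nat_lit 3)) (R (nat_lit 139473))
    (p (nat_lit 0x101) (nat_lit 0) (p (nat_lit 0x111) (nat_lit 0) (p (nat_lit 0xd1) (nat_lit 1) (p (nat_lit 0x81) (nat_lit 0) (p (nat_lit 0x41) (nat_lit 1) (p (nat_lit 0x8b0a098a889a) (nat_lit 0) (p (nat_lit 0xa89890a081a) (nat_lit 0) (p (nat_lit 0x8a090888079a) (nat_lit 0) (p (nat_lit 0x9888807871a) (nat_lit 0) (p (nat_lit 0x80000800090788868a) (nat_lit 0) (p (nat_lit 0x80000800088706860a) (nat_lit 0) (p (nat_lit 0x8706878582) (nat_lit 0) (p (nat_lit 0x686070502) (nat_lit 0) (p (nat_lit 0x8605850482) (nat_lit 0) (p (nat_lit 0x585048402) (nat_lit 0) (p (nat_lit 0x160014) (nat_lit 0) (p (nat_lit 0x60592) (nat_lit 0) (p (nat_lit 0x48512) (nat_lit 0) (p (nat_lit 0x50392) (nat_lit 0) (p (nat_lit 0x38312) (nat_lit 0) (p (nat_lit 0x40212) (nat_lit 0) (p (nat_lit 0x28192) (nat_lit 0) (p (nat_lit 0x30092) (nat_lit 0) (p (nat_lit 0x18012)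 (nat_lit 0) pn)))))))))))))))))))))))) :=
  Cl.node (nat_lit 0x109) (nat_lit 2) (by decide +kernel) (ClAll.succ (ClAll.succ ClAll.zero s81) n65)

def n88 : Cl (O (nat_lit 3)) (R (nat_lit 139473))
    (p (nat_lit 0x101) (nat_lit 1) (p (nat_lit 0x111) (nat_lit 0) (p (nat_lit 0xd1) (nat_lit 1) (p (nat_lit 0x81) (nat_lit 0) (p (nat_lit 0x41) (nat_lit 1) (p (nat_lit 0x8b0a098a889a) (nat_lit 0) (p (nat_lit 0xa89890a081a) (nat_lit 0) (p (nat_lit 0x8a090888079a) (nat_lit 0) (p (nat_lit 0x9888807871a) (nat_lit 0) (p (nat_lit 0x80000800090788868a) (nat_lit 0) (p (nat_lit 0x80000800088706860a) (nat_lit 0) (p (nat_lit 0x8706878582) (nat_lit 0) (p (nat_lit 0x686070502) (nat_lit 0) (p (nat_lit 0x8605850482) (nat_lit 0) (p (nat_lit 0x585048402) (nat_lit 0) (p (nat_lit 0x160014) (nat_lit 0) (p (nat_lit 0x60592) (nat_lit 0) (p (nat_lit 0x48512) (nat_lit 0) (p (nat_lit 0x50392) (nat_lit 0) (p (nat_lit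 0x38312) (nat_lit 0) (p (nat_lit 0x40212) (nat_lit 0) (p (nat_lit 0x28192) (nat_lit 0) (p (nat_lit 0x30092) (nat_lit 0) (p (nat_lit 0x18012) (nat_lit 0) pn)))))))))))))))))))))))) :=
  Cl.node (nat_lit 0x89) (nat_lit 2) (by decide +kernel) (ClAll.succ (ClAll.succ ClAll.zero n66) n67)

def n89 : Cl (O (nat_lit 3)) (R (nat_lit 139473))
    (p (nat_lit 0x89) (nat_lit 1) (p (nat_lit 0x111) (nat_lit 1) (p (nat_lit 0xd1) (nat_lit 1) (p (nat_lit 0x81) (nat_lit 0) (p (nat_lit 0x41) (nat_lit 1) (p (nat_lit 0x8b0a098a889a) (nat_lit 0) (p (nat_lit 0xa89890a081a) (nat_lit 0) (p (nat_lit 0x8a090888079a) (nat_lit 0) (p (nat_lit 0x9888807871a) (nat_lit 0) (p (nat_lit 0x80000800090788868a) (nat_lit 0) (p (nat_lit 0x80000800088706860a) (nat_lit 0) (p (nat_lit 0x8706878582) (nat_lit 0) (p (nat_lit 0x686070502) (nat_lit 0) (p (nat_lit 0x8605850482) (nat_lit 0) (p (nat_lit 0x585048402) (nat_lit 0) (p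 (nat_lit 0x160014) (nat_lit 0) (p (nat_lit 0x60592) (nat_lit 0) (p (nat_lit 0x48512) (nat_lit 0) (p (nat_lit 0x50392) (nat_lit 0) (p (nat_lit 0x38312) (nat_lit 0) (p (nat_lit 0x40212) (nat_lit 0) (p (nat_lit 0x28192) (nat_lit 0) (p (nat_lit 0x30092) (nat_lit 0) (p (nat_lit 0x18012) (nat_lit 0) pn)))))))))))))))))))))))) :=
  Cl.node (nat_lit 0xc9) (nat_lit 2) (by decide +kernel) (ClAll.succ (ClAll.succ ClAll.zero s93) s94)

def n90 : Cl (O (nat_lit 3)) (R (nat_lit 139473))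
    (p (nat_lit 0x101) (nat_lit 0) (p (nat_lit 0x119) (nat_lit 0) (p (nat_lit 0xc1) (nat_lit 0) (p (nat_lit 0x81) (nat_lit 1) (p (nat_lit 0x41) (nat_lit 1) (p (nat_lit 0x8b0a098a889a) (nat_lit 0) (p (nat_lit 0xa89890a081a) (nat_lit 0) (p (nat_lit 0x8a090888079a) (nat_lit 0) (p (nat_lit 0x9888807871a) (nat_lit 0) (p (nat_lit 0x80000800090788868a) (nat_lit 0) (p (nat_lit 0x80000800088706860a) (nat_lit 0) (p (nat_lit 0x8706878582) (nat_lit 0) (p (nat_lit 0x686070502) (nat_lit 0) (p (nat_lit 0x8605850482) (nat_lit 0) (p (nat_lit 0x585048402) (nat_lit 0) (p (nat_lit 0x160014) (nat_lit 0) (p (nat_lit 0x60592) (nat_lit 0) (p (nat_lit 0x48512) (nat_lit 0) (p (nat_lit 0x50392) (nat_lit 0) (p (nat_lit 0x38312) (nat_lit 0) (p (nat_lit 0x40212) (nat_lit 0) (p (nat_lit 0x28192) (nat_lit 0) (p (nat_lit 0x30092) (nat_lit 0) (p (nat_lit 0x18012) (nat_lit 0) pn)))))))))))))))))))))))) :=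
  Cl.node (nat_lit 0x109) (nat_lit 2) (by decide +kernel) (ClAll.succ (ClAll.succ ClAll.zero n68) n69)

def n91 : Cl (O (nat_lit 3)) (R (nat_lit 139473))
    (p (nat_lit 0x101) (nat_lit 1) (p (nat_lit 0x119) (nat_lit 0) (p (nat_lit 0xc1) (nat_lit 0) (p (nat_lit 0x81) (nat_lit 1) (p (nat_lit 0x41) (nat_lit 1) (p (nat_lit 0x8b0a098a889a) (nat_lit 0) (p (nat_lit 0xa89890a081a) (nat_lit 0) (p (nat_lit 0x8a090888079a) (nat_lit 0) (p (nat_lit 0x9888807871a) (nat_lit 0) (p (nat_lit 0x80000800090788868a) (nat_lit 0) (p (nat_lit 0x80000800088706860a) (nat_lit 0) (p (nat_lit 0x8706878582) (nat_lit 0) (p (nat_lit 0x686070502) (nat_lit 0) (p (nat_lit 0x8605850482) (nat_lit 0) (p (nat_lit 0x585048402) (nat_lit 0) (p (nat_lit 0x160014) (nat_lit 0) (p (nat_lit 0x60592) (nat_lit 0) (p (nat_lit 0x48512) (nat_lit 0) (p (nat_lit 0x50392) (nat_lit 0) (p (nat_lit 0x38312) (nat_lit 0) (p (nat_lit 0x40212)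 (nat_lit 0) (p (nat_lit 0x28192) (nat_lit 0) (p (nat_lit 0x30092) (nat_lit 0) (p (nat_lit 0x18012) (nat_lit 0) pn)))))))))))))))))))))))) :=
  Cl.node (nat_lit 0xc9) (nat_lit 2) (by decide +kernel) (ClAll.succ (ClAll.succ ClAll.zero n70) s107)

def n92 : Cl (O (nat_lit 3)) (R (nat_lit 139473))
    (p (nat_lit 0xc9) (nat_lit 0) (p (nat_lit 0x119) (nat_lit 1) (p (nat_lit 0xc1) (nat_lit 0) (p (nat_lit 0x81) (nat_lit 1) (p (nat_lit 0x41) (nat_lit 1) (p (nat_lit 0x8b0a098a889a) (nat_lit 0) (p (nat_lit 0xa89890a081a) (nat_lit 0) (p (nat_lit 0x8a090888079a) (nat_lit 0) (p (nat_lit 0x9888807871a) (nat_lit 0) (p (nat_lit 0x80000800090788868a) (nat_lit 0) (p (nat_lit 0x80000800088706860a) (nat_lit 0) (p (nat_lit 0x8706878582) (nat_lit 0) (p (nat_lit 0x686070502) (nat_lit 0) (p (nat_lit 0x8605850482) (nat_lit 0) (p (nat_lit 0x585048402) (nat_lit 0) (p (nat_lit 0x160014) (nat_lit 0) (p (nat_lit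 0x60592) (nat_lit 0) (p (nat_lit 0x48512) (nat_lit 0) (p (nat_lit 0x50392) (nat_lit 0) (p (nat_lit 0x38312) (nat_lit 0) (p (nat_lit 0x40212) (nat_lit 0) (p (nat_lit 0x28192) (nat_lit 0) (p (nat_lit 0x30092) (nat_lit 0) (p (nat_lit 0x18012) (nat_lit 0) pn)))))))))))))))))))))))) :=
  Cl.node (nat_lit 0xd1) (nat_lit 2) (by decide +kernel) (ClAll.succ (ClAll.succ ClAll.zero s108) n71)

def n93 : Cl (O (nat_lit 3)) (R (nat_lit 139473))
    (p (nat_lit 0xc9) (nat_lit 1) (p (nat_lit 0x119) (nat_lit 1) (p (nat_lit 0xc1) (nat_lit 0) (p (nat_lit 0x81) (nat_lit 1) (p (nat_lit 0x41) (nat_lit 1) (p (nat_lit 0x8b0a098a889a) (nat_lit 0) (p (nat_lit 0xa89890a081a) (nat_lit 0) (p (nat_lit 0x8a090888079a) (nat_lit 0) (p (nat_lit 0x9888807871a) (nat_lit 0) (p (nat_lit 0x80000800090788868a) (nat_lit 0) (p (nat_lit 0x80000800088706860a) (nat_lit 0) (p (nat_lit 0x8706878582) (nat_lit 0) (p (nat_lit 0x686070502)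 (nat_lit 0) (p (nat_lit 0x8605850482) (nat_lit 0) (p (nat_lit 0x585048402) (nat_lit 0) (p (nat_lit 0x160014) (nat_lit 0) (p (nat_lit 0x60592) (nat_lit 0) (p (nat_lit 0x48512) (nat_lit 0) (p (nat_lit 0x50392) (nat_lit 0) (p (nat_lit 0x38312) (nat_lit 0) (p (nat_lit 0x40212) (nat_lit 0) (p (nat_lit 0x28192) (nat_lit 0) (p (nat_lit 0x30092) (nat_lit 0) (p (nat_lit 0x18012) (nat_lit 0) pn)))))))))))))))))))))))) :=
  Cl.node (nat_lit 0x109) (nat_lit 2) (by decide +kernel) (ClAll.succ (ClAll.succ ClAll.zero n72) s118)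

def n94 : Cl (O (nat_lit 3)) (R (nat_lit 139473))
    (p (nat_lit 0x109) (nat_lit 0) (p (nat_lit 0x101) (nat_lit 0) (p (nat_lit 0xc1) (nat_lit 1) (p (nat_lit 0x81) (nat_lit 1) (p (nat_lit 0x41) (nat_lit 1) (p (nat_lit 0x8b0a098a889a) (nat_lit 0) (p (nat_lit 0xa89890a081a) (nat_lit 0) (p (nat_lit 0x8a090888079a) (nat_lit 0) (p (nat_lit 0x9888807871a) (nat_lit 0) (p (nat_lit 0x80000800090788868a) (nat_lit 0) (p (nat_lit 0x80000800088706860a) (nat_lit 0) (p (nat_lit 0x8706878582) (nat_lit 0) (p (nat_lit 0x686070502) (nat_lit 0) (p (nat_lit 0x8605850482) (nat_lit 0) (p (nat_lit 0x585048402) (nat_lit 0) (p (nat_lit 0x160014) (nat_lit 0) (p (nat_lit 0x60592) (nat_lit 0) (p (nat_lit 0x48512) (nat_lit 0) (p (nat_lit 0x50392) (nat_lit 0) (p (nat_lit 0x38312) (nat_lit 0) (p (nat_lit 0x40212) (nat_lit 0) (p (nat_lit 0x28192) (nat_lit 0) (p (nat_lit 0x30092) (nat_lit 0) (p (nat_lit 0x18012)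 (nat_lit 0) pn)))))))))))))))))))))))) :=
  Cl.node (nat_lit 0x111) (nat_lit 2) (by decide +kernel) (ClAll.succ (ClAll.succ ClAll.zero s119) s120)

def n95 : Cl (O (nat_lit 3)) (R (nat_lit 139473))
    (p (nat_lit 0x119) (nat_lit 0) (p (nat_lit 0xd1) (nat_lit 0) (p (nat_lit 0x89) (nat_lit 0) (p (nat_lit 0x41) (nat_lit 0) (p (nat_lit 0x8b0a098a889a) (nat_lit 0) (p (nat_lit 0xa89890a081a) (nat_lit 0) (p (nat_lit 0x8a090888079a) (nat_lit 0) (p (nat_lit 0x9888807871a) (nat_lit 0) (p (nat_lit 0x80000800090788868a) (nat_lit 0) (p (nat_lit 0x80000800088706860a) (nat_lit 0) (p (nat_lit 0x8706878582) (nat_lit 0) (p (nat_lit 0x686070502) (nat_lit 0) (p (nat_lit 0x8605850482) (nat_lit 0) (p (nat_lit 0x585048402) (nat_lit 0) (p (nat_lit 0x160014) (nat_lit 0) (p (nat_lit 0x60592) (nat_lit 0) (p (nat_lit 0x48512) (nat_lit 0) (p (nat_lit 0x50392) (nat_lit 0) (p (nat_lit 0x38312) (nat_lit 0) (p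 (nat_lit 0x40212) (nat_lit 0) (p (nat_lit 0x28192) (nat_lit 0) (p (nat_lit 0x30092) (nat_lit 0) (p (nat_lit 0x18012) (nat_lit 0) pn))))))))))))))))))))))) :=
  Cl.node (nat_lit 0x101) (nat_lit 2) (by decide +kernel) (ClAll.succ (ClAll.succ ClAll.zero n73) n74)

def n96 : Cl (O (nat_lit 3)) (R (nat_lit 139473))
    (p (nat_lit 0x119) (nat_lit 1) (p (nat_lit 0xd1) (nat_lit 0) (p (nat_lit 0x89) (nat_lit 0) (p (nat_lit 0x41) (nat_lit 0) (p (nat_lit 0x8b0a098a889a) (nat_lit 0) (p (nat_lit 0xa89890a081a) (nat_lit 0) (p (nat_lit 0x8a090888079a) (nat_lit 0) (p (nat_lit 0x9888807871a) (nat_lit 0) (p (nat_lit 0x80000800090788868a) (nat_lit 0) (p (nat_lit 0x80000800088706860a) (nat_lit 0) (p (nat_lit 0x8706878582) (nat_lit 0) (p (nat_lit 0x686070502) (nat_lit 0) (p (nat_lit 0x8605850482) (nat_lit 0) (p (nat_lit 0x585048402) (nat_lit 0) (p (nat_lit 0x160014) (nat_lit 0) (p (nat_lit 0x60592)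 (nat_lit 0) (p (nat_lit 0x48512) (nat_lit 0) (p (nat_lit 0x50392) (nat_lit 0) (p (nat_lit 0x38312) (nat_lit 0) (p (nat_lit 0x40212) (nat_lit 0) (p (nat_lit 0x28192) (nat_lit 0) (p (nat_lit 0x30092) (nat_lit 0) (p (nat_lit 0x18012) (nat_lit 0) pn))))))))))))))))))))))) :=
  Cl.node (nat_lit 0xc1) (nat_lit 2) (by decide +kernel) (ClAll.succ (ClAll.succ ClAll.zero n75) n76)

def n97 : Cl (O (nat_lit 3)) (R (nat_lit 139473))
    (p (nat_lit 0x111) (nat_lit 0) (p (nat_lit 0xd1) (nat_lit 1) (p (nat_lit 0x89) (nat_lit 0) (p (nat_lit 0x41) (nat_lit 0) (p (nat_lit 0x8b0a098a889a) (nat_lit 0) (p (nat_lit 0xa89890a081a) (nat_lit 0) (p (nat_lit 0x8a090888079a) (nat_lit 0) (p (nat_lit 0x9888807871a) (nat_lit 0) (p (nat_lit 0x80000800090788868a) (nat_lit 0) (p (nat_lit 0x80000800088706860a) (nat_lit 0) (p (nat_lit 0x8706878582) (nat_lit 0) (p (nat_lit 0x686070502) (nat_lit 0) (p (nat_lit 0x8605850482)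 (nat_lit 0) (p (nat_lit 0x585048402) (nat_lit 0) (p (nat_lit 0x160014) (nat_lit 0) (p (nat_lit 0x60592) (nat_lit 0) (p (nat_lit 0x48512) (nat_lit 0) (p (nat_lit 0x50392) (nat_lit 0) (p (nat_lit 0x38312) (nat_lit 0) (p (nat_lit 0x40212) (nat_lit 0) (p (nat_lit 0x28192) (nat_lit 0) (p (nat_lit 0x30092) (nat_lit 0) (p (nat_lit 0x18012) (nat_lit 0) pn))))))))))))))))))))))) :=
  Cl.node (nat_lit 0x101) (nat_lit 2) (by decide +kernel) (ClAll.succ (ClAll.succ ClAll.zero n77) n78)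

def n98 : Cl (O (nat_lit 3)) (R (nat_lit 139473))
    (p (nat_lit 0x111) (nat_lit 1) (p (nat_lit 0xd1) (nat_lit 1) (p (nat_lit 0x89) (nat_lit 0) (p (nat_lit 0x41) (nat_lit 0) (p (nat_lit 0x8b0a098a889a) (nat_lit 0) (p (nat_lit 0xa89890a081a) (nat_lit 0) (p (nat_lit 0x8a090888079a) (nat_lit 0) (p (nat_lit 0x9888807871a) (nat_lit 0) (p (nat_lit 0x80000800090788868a) (nat_lit 0) (p (nat_lit 0x80000800088706860a) (nat_lit 0) (p (nat_lit 0x8706878582) (nat_lit 0) (p (nat_lit 0x686070502) (nat_lit 0) (p (nat_lit 0x8605850482) (nat_lit 0) (p (nat_lit 0x585048402) (nat_lit 0) (p (nat_lit 0x160014) (nat_lit 0) (p (nat_lit 0x60592) (nat_lit 0) (p (nat_lit 0x48512) (nat_lit 0) (p (nat_lit 0x50392) (nat_lit 0) (p (nat_lit 0x38312) (nat_lit 0) (p (nat_lit 0x40212) (nat_lit 0) (p (nat_lit 0x28192) (nat_lit 0) (p (nat_lit 0x30092) (nat_lit 0) (p (nat_lit 0x18012) (nat_lit 0) pn)))))))))))))))))))))))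 :=
  Cl.node (nat_lit 0x81) (nat_lit 2) (by decide +kernel) (ClAll.succ (ClAll.succ ClAll.zero s32) n79)

def n99 : Cl (O (nat_lit 3)) (R (nat_lit 139473))
    (p (nat_lit 0x119) (nat_lit 0) (p (nat_lit 0xc9) (nat_lit 0) (p (nat_lit 0x89) (nat_lit 1) (p (nat_lit 0x41) (nat_lit 0) (p (nat_lit 0x8b0a098a889a) (nat_lit 0) (p (nat_lit 0xa89890a081a) (nat_lit 0) (p (nat_lit 0x8a090888079a) (nat_lit 0) (p (nat_lit 0x9888807871a) (nat_lit 0) (p (nat_lit 0x80000800090788868a) (nat_lit 0) (p (nat_lit 0x80000800088706860a) (nat_lit 0) (p (nat_lit 0x8706878582) (nat_lit 0) (p (nat_lit 0x686070502) (nat_lit 0) (p (nat_lit 0x8605850482) (nat_lit 0) (p (nat_lit 0x585048402) (nat_lit 0) (p (nat_lit 0x160014) (nat_lit 0) (p (nat_lit 0x60592) (nat_lit 0) (p (nat_lit 0x48512) (nat_lit 0) (p (nat_lit 0x50392) (nat_lit 0) (p (nat_lit 0x38312) (nat_lit 0) (p (nat_lit 0x40212) (nat_lit 0) (p (nat_lit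 0x28192) (nat_lit 0) (p (nat_lit 0x30092) (nat_lit 0) (p (nat_lit 0x18012) (nat_lit 0) pn))))))))))))))))))))))) :=
  Cl.node (nat_lit 0x101) (nat_lit 2) (by decide +kernel) (ClAll.succ (ClAll.succ ClAll.zero n80) n81)

def n100 : Cl (O (nat_lit 3)) (R (nat_lit 139473))
    (p (nat_lit 0x119) (nat_lit 1) (p (nat_lit 0xc9) (nat_lit 0) (p (nat_lit 0x89) (nat_lit 1) (p (nat_lit 0x41) (nat_lit 0) (p (nat_lit 0x8b0a098a889a) (nat_lit 0) (p (nat_lit 0xa89890a081a) (nat_lit 0) (p (nat_lit 0x8a090888079a) (nat_lit 0) (p (nat_lit 0x9888807871a) (nat_lit 0) (p (nat_lit 0x80000800090788868a) (nat_lit 0) (p (nat_lit 0x80000800088706860a) (nat_lit 0) (p (nat_lit 0x8706878582) (nat_lit 0) (p (nat_lit 0x686070502) (nat_lit 0) (p (nat_lit 0x8605850482) (nat_lit 0) (p (nat_lit 0x585048402) (nat_lit 0) (p (nat_lit 0x160014) (nat_lit 0) (p (nat_lit 0x60592) (nat_lit 0) (p (nat_lit 0x48512) (nat_lit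 0) (p (nat_lit 0x50392) (nat_lit 0) (p (nat_lit 0x38312) (nat_lit 0) (p (nat_lit 0x40212) (nat_lit 0) (p (nat_lit 0x28192) (nat_lit 0) (p (nat_lit 0x30092) (nat_lit 0) (p (nat_lit 0x18012) (nat_lit 0) pn))))))))))))))))))))))) :=
  Cl.node (nat_lit 0xc1) (nat_lit 2) (by decide +kernel) (ClAll.succ (ClAll.succ ClAll.zero s45) n82)

def n101 : Cl (O (nat_lit 3)) (R (nat_lit 139473))
    (p (nat_lit 0x119) (nat_lit 0) (p (nat_lit 0xd1) (nat_lit 0) (p (nat_lit 0x81) (nat_lit 0) (p (nat_lit 0x41) (nat_lit 1) (p (nat_lit 0x8b0a098a889a) (nat_lit 0) (p (nat_lit 0xa89890a081a) (nat_lit 0) (p (nat_lit 0x8a090888079a) (nat_lit 0) (p (nat_lit 0x9888807871a) (nat_lit 0) (p (nat_lit 0x80000800090788868a) (nat_lit 0) (p (nat_lit 0x80000800088706860a) (nat_lit 0) (p (nat_lit 0x8706878582) (nat_lit 0) (p (nat_lit 0x686070502) (nat_lit 0) (p (nat_lit 0x8605850482) (nat_lit 0) (p (nat_lit 0x585048402)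 (nat_lit 0) (p (nat_lit 0x160014) (nat_lit 0) (p (nat_lit 0x60592) (nat_lit 0) (p (nat_lit 0x48512) (nat_lit 0) (p (nat_lit 0x50392) (nat_lit 0) (p (nat_lit 0x38312) (nat_lit 0) (p (nat_lit 0x40212) (nat_lit 0) (p (nat_lit 0x28192) (nat_lit 0) (p (nat_lit 0x30092) (nat_lit 0) (p (nat_lit 0x18012) (nat_lit 0) pn))))))))))))))))))))))) :=
  Cl.node (nat_lit 0x101) (nat_lit 2) (by decide +kernel) (ClAll.succ (ClAll.succ ClAll.zero n83) n84)

def n102 : Cl (O (nat_lit 3)) (R (nat_lit 139473))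
    (p (nat_lit 0x119) (nat_lit 1) (p (nat_lit 0xd1) (nat_lit 0) (p (nat_lit 0x81) (nat_lit 0) (p (nat_lit 0x41) (nat_lit 1) (p (nat_lit 0x8b0a098a889a) (nat_lit 0) (p (nat_lit 0xa89890a081a) (nat_lit 0) (p (nat_lit 0x8a090888079a) (nat_lit 0) (p (nat_lit 0x9888807871a) (nat_lit 0) (p (nat_lit 0x80000800090788868a) (nat_lit 0) (p (nat_lit 0x80000800088706860a) (nat_lit 0) (p (nat_lit 0x8706878582) (nat_lit 0) (p (nat_lit 0x686070502) (nat_lit 0) (p (nat_lit 0x8605850482) (nat_lit 0) (p (nat_lit 0x585048402) (nat_lit 0) (p (nat_lit 0x160014) (nat_lit 0) (p (nat_lit 0x60592) (nat_lit 0) (p (nat_lit 0x48512) (nat_lit 0) (p (nat_lit 0x50392) (nat_lit 0) (p (nat_lit 0x38312) (nat_lit 0) (p (nat_lit 0x40212) (nat_lit 0) (p (nat_lit 0x28192) (nat_lit 0) (p (nat_lit 0x30092) (nat_lit 0) (p (nat_lit 0x18012) (nat_lit 0) pn))))))))))))))))))))))) :=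
  Cl.node (nat_lit 0xc1) (nat_lit 2) (by decide +kernel) (ClAll.succ (ClAll.succ ClAll.zero n85) n86)

def n103 : Cl (O (nat_lit 3)) (R (nat_lit 139473))
    (p (nat_lit 0x111) (nat_lit 0) (p (nat_lit 0xd1) (nat_lit 1) (p (nat_lit 0x81) (nat_lit 0) (p (nat_lit 0x41) (nat_lit 1) (p (nat_lit 0x8b0a098a889a) (nat_lit 0) (p (nat_lit 0xa89890a081a) (nat_lit 0) (p (nat_lit 0x8a090888079a) (nat_lit 0) (p (nat_lit 0x9888807871a) (nat_lit 0) (p (nat_lit 0x80000800090788868a) (nat_lit 0) (p (nat_lit 0x80000800088706860a) (nat_lit 0) (p (nat_lit 0x8706878582) (nat_lit 0) (p (nat_lit 0x686070502) (nat_lit 0) (p (nat_lit 0x8605850482) (nat_lit 0) (p (nat_lit 0x585048402) (nat_lit 0) (p (nat_lit 0x160014) (nat_lit 0) (p (nat_lit 0x60592) (nat_lit 0) (p (nat_lit 0x48512) (nat_lit 0) (p (nat_lit 0x50392) (nat_lit 0) (p (nat_lit 0x38312) (nat_lit 0) (p (nat_lit 0x40212) (nat_lit 0) (p (nat_lit 0x28192)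 (nat_lit 0) (p (nat_lit 0x30092) (nat_lit 0) (p (nat_lit 0x18012) (nat_lit 0) pn))))))))))))))))))))))) :=
  Cl.node (nat_lit 0x101) (nat_lit 2) (by decide +kernel) (ClAll.succ (ClAll.succ ClAll.zero n87) n88)

def n104 : Cl (O (nat_lit 3)) (R (nat_lit 139473))
    (p (nat_lit 0x111) (nat_lit 1) (p (nat_lit 0xd1) (nat_lit 1) (p (nat_lit 0x81) (nat_lit 0) (p (nat_lit 0x41) (nat_lit 1) (p (nat_lit 0x8b0a098a889a) (nat_lit 0) (p (nat_lit 0xa89890a081a) (nat_lit 0) (p (nat_lit 0x8a090888079a) (nat_lit 0) (p (nat_lit 0x9888807871a) (nat_lit 0) (p (nat_lit 0x80000800090788868a) (nat_lit 0) (p (nat_lit 0x80000800088706860a) (nat_lit 0) (p (nat_lit 0x8706878582) (nat_lit 0) (p (nat_lit 0x686070502) (nat_lit 0) (p (nat_lit 0x8605850482) (nat_lit 0) (p (nat_lit 0x585048402) (nat_lit 0) (p (nat_lit 0x160014) (nat_lit 0) (p (nat_lit 0x60592) (nat_lit 0) (p (nat_lit 0x48512) (nat_lit 0) (p (nat_lit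 0x50392) (nat_lit 0) (p (nat_lit 0x38312) (nat_lit 0) (p (nat_lit 0x40212) (nat_lit 0) (p (nat_lit 0x28192) (nat_lit 0) (p (nat_lit 0x30092) (nat_lit 0) (p (nat_lit 0x18012) (nat_lit 0) pn))))))))))))))))))))))) :=
  Cl.node (nat_lit 0x89) (nat_lit 2) (by decide +kernel) (ClAll.succ (ClAll.succ ClAll.zero s92) n89)

def n105 : Cl (O (nat_lit 3)) (R (nat_lit 139473))
    (p (nat_lit 0x119) (nat_lit 0) (p (nat_lit 0xc1) (nat_lit 0) (p (nat_lit 0x81) (nat_lit 1) (p (nat_lit 0x41) (nat_lit 1) (p (nat_lit 0x8b0a098a889a) (nat_lit 0) (p (nat_lit 0xa89890a081a) (nat_lit 0) (p (nat_lit 0x8a090888079a) (nat_lit 0) (p (nat_lit 0x9888807871a) (nat_lit 0) (p (nat_lit 0x80000800090788868a) (nat_lit 0) (p (nat_lit 0x80000800088706860a) (nat_lit 0) (p (nat_lit 0x8706878582) (nat_lit 0) (p (nat_lit 0x686070502) (nat_lit 0) (p (nat_lit 0x8605850482) (nat_lit 0) (p (nat_lit 0x585048402) (nat_lit 0)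 (p (nat_lit 0x160014) (nat_lit 0) (p (nat_lit 0x60592) (nat_lit 0) (p (nat_lit 0x48512) (nat_lit 0) (p (nat_lit 0x50392) (nat_lit 0) (p (nat_lit 0x38312) (nat_lit 0) (p (nat_lit 0x40212) (nat_lit 0) (p (nat_lit 0x28192) (nat_lit 0) (p (nat_lit 0x30092) (nat_lit 0) (p (nat_lit 0x18012) (nat_lit 0) pn))))))))))))))))))))))) :=
  Cl.node (nat_lit 0x101) (nat_lit 2) (by decide +kernel) (ClAll.succ (ClAll.succ ClAll.zero n90) n91)

def n106 : Cl (O (nat_lit 3)) (R (nat_lit 139473))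
    (p (nat_lit 0x119) (nat_lit 1) (p (nat_lit 0xc1) (nat_lit 0) (p (nat_lit 0x81) (nat_lit 1) (p (nat_lit 0x41) (nat_lit 1) (p (nat_lit 0x8b0a098a889a) (nat_lit 0) (p (nat_lit 0xa89890a081a) (nat_lit 0) (p (nat_lit 0x8a090888079a) (nat_lit 0) (p (nat_lit 0x9888807871a) (nat_lit 0) (p (nat_lit 0x80000800090788868a) (nat_lit 0) (p (nat_lit 0x80000800088706860a) (nat_lit 0) (p (nat_lit 0x8706878582) (nat_lit 0) (p (nat_lit 0x686070502) (nat_lit 0) (p (nat_lit 0x8605850482) (nat_lit 0) (p (nat_lit 0x585048402) (nat_lit 0) (p (nat_lit 0x160014) (nat_lit 0) (p (nat_lit 0x60592) (nat_lit 0) (p (nat_lit 0x48512) (nat_lit 0) (p (nat_lit 0x50392) (nat_lit 0) (p (nat_lit 0x38312) (nat_lit 0) (p (nat_lit 0x40212) (nat_lit 0) (p (nat_lit 0x28192) (nat_lit 0) (p (nat_lit 0x30092) (nat_lit 0) (p (nat_lit 0x18012) (nat_lit 0) pn))))))))))))))))))))))) :=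
  Cl.node (nat_lit 0xc9) (nat_lit 2) (by decide +kernel) (ClAll.succ (ClAll.succ ClAll.zero n92) n93)

def n107 : Cl (O (nat_lit 3)) (R (nat_lit 139473))
    (p (nat_lit 0x101) (nat_lit 0) (p (nat_lit 0xc1) (nat_lit 1) (p (nat_lit 0x81) (nat_lit 1) (p (nat_lit 0x41) (nat_lit 1) (p (nat_lit 0x8b0a098a889a) (nat_lit 0) (p (nat_lit 0xa89890a081a) (nat_lit 0) (p (nat_lit 0x8a090888079a) (nat_lit 0) (p (nat_lit 0x9888807871a) (nat_lit 0) (p (nat_lit 0x80000800090788868a) (nat_lit 0) (p (nat_lit 0x80000800088706860a) (nat_lit 0) (p (nat_lit 0x8706878582) (nat_lit 0) (p (nat_lit 0x686070502) (nat_lit 0) (p (nat_lit 0x8605850482) (nat_lit 0) (p (nat_lit 0x585048402) (nat_lit 0) (p (nat_lit 0x160014) (nat_lit 0) (p (nat_lit 0x60592) (nat_lit 0) (p (nat_lit 0x48512) (nat_lit 0) (p (nat_lit 0x50392) (nat_lit 0) (p (nat_lit 0x38312) (nat_lit 0) (p (nat_lit 0x40212) (nat_lit 0) (p (nat_lit 0x28192)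 (nat_lit 0) (p (nat_lit 0x30092) (nat_lit 0) (p (nat_lit 0x18012) (nat_lit 0) pn))))))))))))))))))))))) :=
  Cl.node (nat_lit 0x109) (nat_lit 2) (by decide +kernel) (ClAll.succ (ClAll.succ ClAll.zero n94) s121)

def n108 : Cl (O (nat_lit 3)) (R (nat_lit 139473))
    (p (nat_lit 0xd1) (nat_lit 0) (p (nat_lit 0x89) (nat_lit 0) (p (nat_lit 0x41) (nat_lit 0) (p (nat_lit 0x8b0a098a889a) (nat_lit 0) (p (nat_lit 0xa89890a081a) (nat_lit 0) (p (nat_lit 0x8a090888079a) (nat_lit 0) (p (nat_lit 0x9888807871a) (nat_lit 0) (p (nat_lit 0x80000800090788868a) (nat_lit 0) (p (nat_lit 0x80000800088706860a) (nat_lit 0) (p (nat_lit 0x8706878582) (nat_lit 0) (p (nat_lit 0x686070502) (nat_lit 0) (p (nat_lit 0x8605850482) (nat_lit 0) (p (nat_lit 0x585048402) (nat_lit 0) (p (nat_lit 0x160014) (nat_lit 0) (p (nat_lit 0x60592) (nat_lit 0) (p (nat_lit 0x48512) (nat_lit 0) (p (nat_lit 0x50392) (nat_lit 0) (p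 (nat_lit 0x38312) (nat_lit 0) (p (nat_lit 0x40212) (nat_lit 0) (p (nat_lit 0x28192) (nat_lit 0) (p (nat_lit 0x30092) (nat_lit 0) (p (nat_lit 0x18012) (nat_lit 0) pn)))))))))))))))))))))) :=
  Cl.node (nat_lit 0x119) (nat_lit 2) (by decide +kernel) (ClAll.succ (ClAll.succ ClAll.zero n95) n96)

def n109 : Cl (O (nat_lit 3)) (R (nat_lit 139473))
    (p (nat_lit 0xd1) (nat_lit 1) (p (nat_lit 0x89) (nat_lit 0) (p (nat_lit 0x41) (nat_lit 0) (p (nat_lit 0x8b0a098a889a) (nat_lit 0) (p (nat_lit 0xa89890a081a) (nat_lit 0) (p (nat_lit 0x8a090888079a) (nat_lit 0) (p (nat_lit 0x9888807871a) (nat_lit 0) (p (nat_lit 0x80000800090788868a) (nat_lit 0) (p (nat_lit 0x80000800088706860a) (nat_lit 0) (p (nat_lit 0x8706878582) (nat_lit 0) (p (nat_lit 0x686070502) (nat_lit 0) (p (nat_lit 0x8605850482) (nat_lit 0) (p (nat_lit 0x585048402) (nat_lit 0) (p (nat_lit 0x160014) (nat_lit 0) (p (nat_lit 0x60592)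 (nat_lit 0) (p (nat_lit 0x48512) (nat_lit 0) (p (nat_lit 0x50392) (nat_lit 0) (p (nat_lit 0x38312) (nat_lit 0) (p (nat_lit 0x40212) (nat_lit 0) (p (nat_lit 0x28192) (nat_lit 0) (p (nat_lit 0x30092) (nat_lit 0) (p (nat_lit 0x18012) (nat_lit 0) pn)))))))))))))))))))))) :=
  Cl.node (nat_lit 0x111) (nat_lit 2) (by decide +kernel) (ClAll.succ (ClAll.succ ClAll.zero n97) n98)

def n110 : Cl (O (nat_lit 3)) (R (nat_lit 139473))
    (p (nat_lit 0xc9) (nat_lit 0) (p (nat_lit 0x89) (nat_lit 1) (p (nat_lit 0x41) (nat_lit 0) (p (nat_lit 0x8b0a098a889a) (nat_lit 0) (p (nat_lit 0xa89890a081a) (nat_lit 0) (p (nat_lit 0x8a090888079a) (nat_lit 0) (p (nat_lit 0x9888807871a) (nat_lit 0) (p (nat_lit 0x80000800090788868a) (nat_lit 0) (p (nat_lit 0x80000800088706860a) (nat_lit 0) (p (nat_lit 0x8706878582) (nat_lit 0) (p (nat_lit 0x686070502) (nat_lit 0) (p (nat_lit 0x8605850482) (nat_lit 0) (p (nat_lit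 0x585048402) (nat_lit 0) (p (nat_lit 0x160014) (nat_lit 0) (p (nat_lit 0x60592) (nat_lit 0) (p (nat_lit 0x48512) (nat_lit 0) (p (nat_lit 0x50392) (nat_lit 0) (p (nat_lit 0x38312) (nat_lit 0) (p (nat_lit 0x40212) (nat_lit 0) (p (nat_lit 0x28192) (nat_lit 0) (p (nat_lit 0x30092) (nat_lit 0) (p (nat_lit 0x18012) (nat_lit 0) pn)))))))))))))))))))))) :=
  Cl.node (nat_lit 0x119) (nat_lit 2) (by decide +kernel) (ClAll.succ (ClAll.succ ClAll.zero n99) n100)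

def n111 : Cl (O (nat_lit 3)) (R (nat_lit 139473))
    (p (nat_lit 0xd1) (nat_lit 0) (p (nat_lit 0x81) (nat_lit 0) (p (nat_lit 0x41) (nat_lit 1) (p (nat_lit 0x8b0a098a889a) (nat_lit 0) (p (nat_lit 0xa89890a081a) (nat_lit 0) (p (nat_lit 0x8a090888079a) (nat_lit 0) (p (nat_lit 0x9888807871a) (nat_lit 0) (p (nat_lit 0x80000800090788868a) (nat_lit 0) (p (nat_lit 0x80000800088706860a) (nat_lit 0) (p (nat_lit 0x8706878582) (nat_lit 0) (p (nat_lit 0x686070502) (nat_lit 0) (p (nat_lit 0x8605850482) (nat_lit 0) (p (nat_lit 0x585048402) (nat_lit 0) (p (nat_lit 0x160014) (nat_lit 0) (p (nat_lit 0x60592) (nat_lit 0) (p (nat_lit 0x48512) (nat_lit 0) (p (nat_lit 0x50392) (nat_lit 0) (p (nat_lit 0x38312) (nat_lit 0) (p (nat_lit 0x40212) (nat_lit 0) (p (nat_lit 0x28192) (nat_lit 0) (p (nat_lit 0x30092) (nat_lit 0) (p (nat_lit 0x18012) (nat_lit 0) pn)))))))))))))))))))))) :=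
  Cl.node (nat_lit 0x119) (nat_lit 2) (by decide +kernel) (ClAll.succ (ClAll.succ ClAll.zero n101) n102)

def n112 : Cl (O (nat_lit 3)) (R (nat_lit 139473))
    (p (nat_lit 0xd1) (nat_lit 1) (p (nat_lit 0x81) (nat_lit 0) (p (nat_lit 0x41) (nat_lit 1) (p (nat_lit 0x8b0a098a889a) (nat_lit 0) (p (nat_lit 0xa89890a081a) (nat_lit 0) (p (nat_lit 0x8a090888079a) (nat_lit 0) (p (nat_lit 0x9888807871a) (nat_lit 0) (p (nat_lit 0x80000800090788868a) (nat_lit 0) (p (nat_lit 0x80000800088706860a) (nat_lit 0) (p (nat_lit 0x8706878582) (nat_lit 0) (p (nat_lit 0x686070502) (nat_lit 0) (p (nat_lit 0x8605850482) (nat_lit 0) (p (nat_lit 0x585048402) (nat_lit 0) (p (nat_lit 0x160014) (nat_lit 0) (p (nat_lit 0x60592) (nat_lit 0) (p (nat_lit 0x48512) (nat_lit 0) (p (nat_lit 0x50392) (nat_lit 0) (p (nat_lit 0x38312) (nat_lit 0) (p (nat_lit 0x40212) (nat_lit 0) (p (nat_lit 0x28192) (nat_lit 0) (p (nat_lit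 0x30092) (nat_lit 0) (p (nat_lit 0x18012) (nat_lit 0) pn)))))))))))))))))))))) :=
  Cl.node (nat_lit 0x111) (nat_lit 2) (by decide +kernel) (ClAll.succ (ClAll.succ ClAll.zero n103) n104)

def n113 : Cl (O (nat_lit 3)) (R (nat_lit 139473))
    (p (nat_lit 0xc1) (nat_lit 0) (p (nat_lit 0x81) (nat_lit 1) (p (nat_lit 0x41) (nat_lit 1) (p (nat_lit 0x8b0a098a889a) (nat_lit 0) (p (nat_lit 0xa89890a081a) (nat_lit 0) (p (nat_lit 0x8a090888079a) (nat_lit 0) (p (nat_lit 0x9888807871a) (nat_lit 0) (p (nat_lit 0x80000800090788868a) (nat_lit 0) (p (nat_lit 0x80000800088706860a) (nat_lit 0) (p (nat_lit 0x8706878582) (nat_lit 0) (p (nat_lit 0x686070502) (nat_lit 0) (p (nat_lit 0x8605850482) (nat_lit 0) (p (nat_lit 0x585048402) (nat_lit 0) (p (nat_lit 0x160014) (nat_lit 0) (p (nat_lit 0x60592) (nat_lit 0) (p (nat_lit 0x48512) (nat_lit 0) (p (nat_lit 0x50392) (nat_lit 0) (p (nat_lit 0x38312) (nat_lit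 0) (p (nat_lit 0x40212) (nat_lit 0) (p (nat_lit 0x28192) (nat_lit 0) (p (nat_lit 0x30092) (nat_lit 0) (p (nat_lit 0x18012) (nat_lit 0) pn)))))))))))))))))))))) :=
  Cl.node (nat_lit 0x119) (nat_lit 2) (by decide +kernel) (ClAll.succ (ClAll.succ ClAll.zero n105) n106)

def n114 : Cl (O (nat_lit 3)) (R (nat_lit 139473))
    (p (nat_lit 0xc1) (nat_lit 1) (p (nat_lit 0x81) (nat_lit 1) (p (nat_lit 0x41) (nat_lit 1) (p (nat_lit 0x8b0a098a889a) (nat_lit 0) (p (nat_lit 0xa89890a081a) (nat_lit 0) (p (nat_lit 0x8a090888079a) (nat_lit 0) (p (nat_lit 0x9888807871a) (nat_lit 0) (p (nat_lit 0x80000800090788868a) (nat_lit 0) (p (nat_lit 0x80000800088706860a) (nat_lit 0) (p (nat_lit 0x8706878582) (nat_lit 0) (p (nat_lit 0x686070502) (nat_lit 0) (p (nat_lit 0x8605850482) (nat_lit 0) (p (nat_lit 0x585048402) (nat_lit 0) (p (nat_lit 0x160014) (nat_lit 0) (p (nat_lit 0x60592) (nat_lit 0) (p (nat_lit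 0x48512) (nat_lit 0) (p (nat_lit 0x50392) (nat_lit 0) (p (nat_lit 0x38312) (nat_lit 0) (p (nat_lit 0x40212) (nat_lit 0) (p (nat_lit 0x28192) (nat_lit 0) (p (nat_lit 0x30092) (nat_lit 0) (p (nat_lit 0x18012) (nat_lit 0) pn)))))))))))))))))))))) :=
  Cl.node (nat_lit 0x101) (nat_lit 2) (by decide +kernel) (ClAll.succ (ClAll.succ ClAll.zero n107) s122)

def n115 : Cl (O (nat_lit 3)) (R (nat_lit 139473))
    (p (nat_lit 0x89) (nat_lit 0) (p (nat_lit 0x41) (nat_lit 0) (p (nat_lit 0x8b0a098a889a) (nat_lit 0) (p (nat_lit 0xa89890a081a) (nat_lit 0) (p (nat_lit 0x8a090888079a) (nat_lit 0) (p (nat_lit 0x9888807871a) (nat_lit 0) (p (nat_lit 0x80000800090788868a) (nat_lit 0) (p (nat_lit 0x80000800088706860a) (nat_lit 0) (p (nat_lit 0x8706878582) (nat_lit 0) (p (nat_lit 0x686070502) (nat_lit 0) (p (nat_lit 0x8605850482) (nat_lit 0) (p (nat_lit 0x585048402) (nat_lit 0) (p (nat_lit 0x160014) (nat_lit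 0) (p (nat_lit 0x60592) (nat_lit 0) (p (nat_lit 0x48512) (nat_lit 0) (p (nat_lit 0x50392) (nat_lit 0) (p (nat_lit 0x38312) (nat_lit 0) (p (nat_lit 0x40212) (nat_lit 0) (p (nat_lit 0x28192) (nat_lit 0) (p (nat_lit 0x30092) (nat_lit 0) (p (nat_lit 0x18012) (nat_lit 0) pn))))))))))))))))))))) :=
  Cl.node (nat_lit 0xd1) (nat_lit 2) (by decide +kernel) (ClAll.succ (ClAll.succ ClAll.zero n108) n109)

def n116 : Cl (O (nat_lit 3)) (R (nat_lit 139473))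
    (p (nat_lit 0x89) (nat_lit 1) (p (nat_lit 0x41) (nat_lit 0) (p (nat_lit 0x8b0a098a889a) (nat_lit 0) (p (nat_lit 0xa89890a081a) (nat_lit 0) (p (nat_lit 0x8a090888079a) (nat_lit 0) (p (nat_lit 0x9888807871a) (nat_lit 0) (p (nat_lit 0x80000800090788868a) (nat_lit 0) (p (nat_lit 0x80000800088706860a) (nat_lit 0) (p (nat_lit 0x8706878582) (nat_lit 0) (p (nat_lit 0x686070502) (nat_lit 0) (p (nat_lit 0x8605850482) (nat_lit 0) (p (nat_lit 0x585048402) (nat_lit 0) (p (nat_lit 0x160014) (nat_lit 0) (p (nat_lit 0x60592) (nat_lit 0) (p (nat_lit 0x48512) (nat_lit 0) (p (nat_lit 0x50392) (nat_lit 0) (p (nat_lit 0x38312) (nat_lit 0) (p (nat_lit 0x40212) (nat_lit 0) (p (nat_lit 0x28192) (nat_lit 0) (p (nat_lit 0x30092) (nat_lit 0) (p (nat_lit 0x18012) (nat_lit 0) pn))))))))))))))))))))) :=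
  Cl.node (nat_lit 0xc9) (nat_lit 2) (by decide +kernel) (ClAll.succ (ClAll.succ ClAll.zero n110) s48)

def n117 : Cl (O (nat_lit 3)) (R (nat_lit 139473))
    (p (nat_lit 0x81) (nat_lit 0) (p (nat_lit 0x41) (nat_lit 1) (p (nat_lit 0x8b0a098a889a) (nat_lit 0) (p (nat_lit 0xa89890a081a) (nat_lit 0) (p (nat_lit 0x8a090888079a) (nat_lit 0) (p (nat_lit 0x9888807871a) (nat_lit 0) (p (nat_lit 0x80000800090788868a) (nat_lit 0) (p (nat_lit 0x80000800088706860a) (nat_lit 0) (p (nat_lit 0x8706878582) (nat_lit 0) (p (nat_lit 0x686070502) (nat_lit 0) (p (nat_lit 0x8605850482) (nat_lit 0) (p (nat_lit 0x585048402) (nat_lit 0) (p (nat_lit 0x160014) (nat_lit 0) (p (nat_lit 0x60592) (nat_lit 0) (p (nat_lit 0x48512) (nat_lit 0) (p (nat_lit 0x50392) (nat_lit 0) (p (nat_lit 0x38312) (nat_lit 0) (p (nat_lit 0x40212) (nat_lit 0) (p (nat_lit 0x28192) (nat_lit 0) (p (nat_lit 0x30092) (nat_lit 0) (p (nat_lit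 0x18012) (nat_lit 0) pn))))))))))))))))))))) :=
  Cl.node (nat_lit 0xd1) (nat_lit 2) (by decide +kernel) (ClAll.succ (ClAll.succ ClAll.zero n111) n112)

def n118 : Cl (O (nat_lit 3)) (R (nat_lit 139473))
    (p (nat_lit 0x81) (nat_lit 1) (p (nat_lit 0x41) (nat_lit 1) (p (nat_lit 0x8b0a098a889a) (nat_lit 0) (p (nat_lit 0xa89890a081a) (nat_lit 0) (p (nat_lit 0x8a090888079a) (nat_lit 0) (p (nat_lit 0x9888807871a) (nat_lit 0) (p (nat_lit 0x80000800090788868a) (nat_lit 0) (p (nat_lit 0x80000800088706860a) (nat_lit 0) (p (nat_lit 0x8706878582) (nat_lit 0) (p (nat_lit 0x686070502) (nat_lit 0) (p (nat_lit 0x8605850482) (nat_lit 0) (p (nat_lit 0x585048402) (nat_lit 0) (p (nat_lit 0x160014) (nat_lit 0) (p (nat_lit 0x60592) (nat_lit 0) (p (nat_lit 0x48512) (nat_lit 0) (p (nat_lit 0x50392) (nat_lit 0) (p (nat_lit 0x38312) (nat_lit 0) (p (nat_lit 0x40212) (nat_lit 0) (p (nat_lit 0x28192) (nat_lit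 0) (p (nat_lit 0x30092) (nat_lit 0) (p (nat_lit 0x18012) (nat_lit 0) pn))))))))))))))))))))) :=
  Cl.node (nat_lit 0xc1) (nat_lit 2) (by decide +kernel) (ClAll.succ (ClAll.succ ClAll.zero n113) n114)

def n119 : Cl (O (nat_lit 3)) (R (nat_lit 139473))
    (p (nat_lit 0x41) (nat_lit 0) (p (nat_lit 0x8b0a098a889a) (nat_lit 0) (p (nat_lit 0xa89890a081a) (nat_lit 0) (p (nat_lit 0x8a090888079a) (nat_lit 0) (p (nat_lit 0x9888807871a) (nat_lit 0) (p (nat_lit 0x80000800090788868a) (nat_lit 0) (p (nat_lit 0x80000800088706860a) (nat_lit 0) (p (nat_lit 0x8706878582) (nat_lit 0) (p (nat_lit 0x686070502) (nat_lit 0) (p (nat_lit 0x8605850482) (nat_lit 0) (p (nat_lit 0x585048402) (nat_lit 0) (p (nat_lit 0x160014) (nat_lit 0) (p (nat_lit 0x60592) (nat_lit 0) (p (nat_lit 0x48512) (nat_lit 0) (p (nat_lit 0x50392) (nat_lit 0) (p (nat_lit 0x38312) (nat_lit 0) (p (nat_lit 0x40212) (nat_lit 0) (p (nat_lit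 0x28192) (nat_lit 0) (p (nat_lit 0x30092) (nat_lit 0) (p (nat_lit 0x18012) (nat_lit 0) pn)))))))))))))))))))) :=
  Cl.node (nat_lit 0x89) (nat_lit 2) (by decide +kernel) (ClAll.succ (ClAll.succ ClAll.zero n115) n116)

def n120 : Cl (O (nat_lit 3)) (R (nat_lit 139473))
    (p (nat_lit 0x41) (nat_lit 1) (p (nat_lit 0x8b0a098a889a) (nat_lit 0) (p (nat_lit 0xa89890a081a) (nat_lit 0) (p (nat_lit 0x8a090888079a) (nat_lit 0) (p (nat_lit 0x9888807871a) (nat_lit 0) (p (nat_lit 0x80000800090788868a) (nat_lit 0) (p (nat_lit 0x80000800088706860a) (nat_lit 0) (p (nat_lit 0x8706878582) (nat_lit 0) (p (nat_lit 0x686070502) (nat_lit 0) (p (nat_lit 0x8605850482) (nat_lit 0) (p (nat_lit 0x585048402) (nat_lit 0) (p (nat_lit 0x160014) (nat_lit 0) (p (nat_lit 0x60592) (nat_lit 0) (p (nat_lit 0x48512) (nat_lit 0) (p (nat_lit 0x50392) (nat_lit 0) (p (nat_lit 0x38312) (nat_lit 0) (p (nat_lit 0x40212) (nat_lit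 0) (p (nat_lit 0x28192) (nat_lit 0) (p (nat_lit 0x30092) (nat_lit 0) (p (nat_lit 0x18012) (nat_lit 0) pn)))))))))))))))))))) :=
  Cl.node (nat_lit 0x81) (nat_lit 2) (by decide +kernel) (ClAll.succ (ClAll.succ ClAll.zero n117) n118)

def n121 : Cl (O (nat_lit 3)) (R (nat_lit 139473))
    (p (nat_lit 0x8b0a098a889a) (nat_lit 0) (p (nat_lit 0xa89890a081a) (nat_lit 0) (p (nat_lit 0x8a090888079a) (nat_lit 0) (p (nat_lit 0x9888807871a) (nat_lit 0) (p (nat_lit 0x80000800090788868a) (nat_lit 0) (p (nat_lit 0x80000800088706860a) (nat_lit 0) (p (nat_lit 0x8706878582) (nat_lit 0) (p (nat_lit 0x686070502) (nat_lit 0) (p (nat_lit 0x8605850482) (nat_lit 0) (p (nat_lit 0x585048402) (nat_lit 0) (p (nat_lit 0x160014) (nat_lit 0) (p (nat_lit 0x60592) (nat_lit 0) (p (nat_lit 0x48512) (nat_lit 0) (p (nat_lit 0x50392) (nat_lit 0) (p (nat_lit 0x38312) (nat_lit 0) (p (nat_lit 0x40212) (nat_lit 0) (p (nat_lit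 0x28192) (nat_lit 0) (p (nat_lit 0x30092) (nat_lit 0) (p (nat_lit 0x18012) (nat_lit 0) pn))))))))))))))))))) :=
  Cl.node (nat_lit 0x41) (nat_lit 2) (by decide +kernel) (ClAll.succ (ClAll.succ ClAll.zero n119) n120)

def n122 : Cl (O (nat_lit 3)) (R (nat_lit 139473))
    (p (nat_lit 0xa89890a081a) (nat_lit 0) (p (nat_lit 0x8a090888079a) (nat_lit 0) (p (nat_lit 0x9888807871a) (nat_lit 0) (p (nat_lit 0x80000800090788868a) (nat_lit 0) (p (nat_lit 0x80000800088706860a) (nat_lit 0) (p (nat_lit 0x8706878582) (nat_lit 0) (p (nat_lit 0x686070502) (nat_lit 0) (p (nat_lit 0x8605850482) (nat_lit 0) (p (nat_lit 0x585048402) (nat_lit 0) (p (nat_lit 0x160014) (nat_lit 0) (p (nat_lit 0x60592) (nat_lit 0) (p (nat_lit 0x48512) (nat_lit 0) (p (nat_lit 0x50392) (nat_lit 0) (p (nat_lit 0x38312) (nat_lit 0) (p (nat_lit 0x40212) (nat_lit 0) (p (nat_lit 0x28192) (nat_lit 0) (p (nat_lit 0x30092) (nat_lit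 0) (p (nat_lit 0x18012) (nat_lit 0) pn)))))))))))))))))) :=
  Cl.node (nat_lit 0x8b0a098a889a) (nat_lit 1) (by decide +kernel) (ClAll.succ ClAll.zero n121)

def n123 : Cl (O (nat_lit 3)) (R (nat_lit 139473))
    (p (nat_lit 0x8a090888079a) (nat_lit 0) (p (nat_lit 0x9888807871a) (nat_lit 0) (p (nat_lit 0x80000800090788868a) (nat_lit 0) (p (nat_lit 0x80000800088706860a) (nat_lit 0) (p (nat_lit 0x8706878582) (nat_lit 0) (p (nat_lit 0x686070502) (nat_lit 0) (p (nat_lit 0x8605850482) (nat_lit 0) (p (nat_lit 0x585048402) (nat_lit 0) (p (nat_lit 0x160014) (nat_lit 0) (p (nat_lit 0x60592) (nat_lit 0) (p (nat_lit 0x48512) (nat_lit 0) (p (nat_lit 0x50392) (nat_lit 0) (p (nat_lit 0x38312) (nat_lit 0) (p (nat_lit 0x40212) (nat_lit 0) (p (nat_lit 0x28192) (nat_lit 0) (p (nat_lit 0x30092) (nat_lit 0) (p (nat_lit 0x18012) (nat_lit 0) pn))))))))))))))))) :=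
  Cl.node (nat_lit 0xa89890a081a) (nat_lit 1) (by decide +kernel) (ClAll.succ ClAll.zero n122)

def n124 : Cl (O (nat_lit 3)) (R (nat_lit 139473))
    (p (nat_lit 0x9888807871a) (nat_lit 0) (p (nat_lit 0x80000800090788868a) (nat_lit 0) (p (nat_lit 0x80000800088706860a) (nat_lit 0) (p (nat_lit 0x8706878582) (nat_lit 0) (p (nat_lit 0x686070502) (nat_lit 0) (p (nat_lit 0x8605850482) (nat_lit 0) (p (nat_lit 0x585048402) (nat_lit 0) (p (nat_lit 0x160014) (nat_lit 0) (p (nat_lit 0x60592) (nat_lit 0) (p (nat_lit 0x48512) (nat_lit 0) (p (nat_lit 0x50392) (nat_lit 0) (p (nat_lit 0x38312) (nat_lit 0) (p (nat_lit 0x40212) (nat_lit 0) (p (nat_lit 0x28192) (nat_lit 0) (p (nat_lit 0x30092) (nat_lit 0) (p (nat_lit 0x18012) (nat_lit 0) pn)))))))))))))))) :=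
  Cl.node (nat_lit 0x8a090888079a) (nat_lit 1) (by decide +kernel) (ClAll.succ ClAll.zero n123)

def n125 : Cl (O (nat_lit 3)) (R (nat_lit 139473))
    (p (nat_lit 0x80000800090788868a) (nat_lit 0) (p (nat_lit 0x80000800088706860a) (nat_lit 0) (p (nat_lit 0x8706878582) (nat_lit 0) (p (nat_lit 0x686070502) (nat_lit 0) (p (nat_lit 0x8605850482) (nat_lit 0) (p (nat_lit 0x585048402) (nat_lit 0) (p (nat_lit 0x160014) (nat_lit 0) (p (nat_lit 0x60592) (nat_lit 0) (p (nat_lit 0x48512) (nat_lit 0) (p (nat_lit 0x50392) (nat_lit 0) (p (nat_lit 0x38312) (nat_lit 0) (p (nat_lit 0x40212) (nat_lit 0) (p (nat_lit 0x28192) (nat_lit 0) (p (nat_lit 0x30092) (nat_lit 0) (p (nat_lit 0x18012) (nat_lit 0) pn))))))))))))))) :=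
  Cl.node (nat_lit 0x9888807871a) (nat_lit 1) (by decide +kernel) (ClAll.succ ClAll.zero n124)

def n126 : Cl (O (nat_lit 3)) (R (nat_lit 139473))
    (p (nat_lit 0x80000800088706860a) (nat_lit 0) (p (nat_lit 0x8706878582) (nat_lit 0) (p (nat_lit 0x686070502) (nat_lit 0) (p (nat_lit 0x8605850482) (nat_lit 0) (p (nat_lit 0x585048402) (nat_lit 0) (p (nat_lit 0x160014) (nat_lit 0) (p (nat_lit 0x60592) (nat_lit 0) (p (nat_lit 0x48512) (nat_lit 0) (p (nat_lit 0x50392) (nat_lit 0) (p (nat_lit 0x38312) (nat_lit 0) (p (nat_lit 0x40212) (nat_lit 0) (p (nat_lit 0x28192) (nat_lit 0) (p (nat_lit 0x30092) (nat_lit 0) (p (nat_lit 0x18012) (nat_lit 0) pn)))))))))))))) :=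
  Cl.node (nat_lit 0x80000800090788868a) (nat_lit 1) (by decide +kernel) (ClAll.succ ClAll.zero n125)

def n127 : Cl (O (nat_lit 3)) (R (nat_lit 139473))
    (p (nat_lit 0x8706878582) (nat_lit 0) (p (nat_lit 0x686070502) (nat_lit 0) (p (nat_lit 0x8605850482) (nat_lit 0) (p (nat_lit 0x585048402) (nat_lit 0) (p (nat_lit 0x160014) (nat_lit 0) (p (nat_lit 0x60592) (nat_lit 0) (p (nat_lit 0x48512) (nat_lit 0) (p (nat_lit 0x50392) (nat_lit 0) (p (nat_lit 0x38312) (nat_lit 0) (p (nat_lit 0x40212) (nat_lit 0) (p (nat_lit 0x28192) (nat_lit 0) (p (nat_lit 0x30092) (nat_lit 0) (p (nat_lit 0x18012) (nat_lit 0) pn))))))))))))) :=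
  Cl.node (nat_lit 0x80000800088706860a) (nat_lit 1) (by decide +kernel) (ClAll.succ ClAll.zero n126)

def n128 : Cl (O (nat_lit 3)) (R (nat_lit 139473))
    (p (nat_lit 0x686070502) (nat_lit 0) (p (nat_lit 0x8605850482) (nat_lit 0) (p (nat_lit 0x585048402) (nat_lit 0) (p (nat_lit 0x160014) (nat_lit 0) (p (nat_lit 0x60592) (nat_lit 0) (p (nat_lit 0x48512) (nat_lit 0) (p (nat_lit 0x50392) (nat_lit 0) (p (nat_lit 0x38312) (nat_lit 0) (p (nat_lit 0x40212) (nat_lit 0) (p (nat_lit 0x28192) (nat_lit 0) (p (nat_lit 0x30092) (nat_lit 0) (p (nat_lit 0x18012) (nat_lit 0) pn)))))))))))) :=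
  Cl.node (nat_lit 0x8706878582) (nat_lit 1) (by decide +kernel) (ClAll.succ ClAll.zero n127)

def n129 : Cl (O (nat_lit 3)) (R (nat_lit 139473))
    (p (nat_lit 0x8605850482) (nat_lit 0) (p (nat_lit 0x585048402) (nat_lit 0) (p (nat_lit 0x160014) (nat_lit 0) (p (nat_lit 0x60592) (nat_lit 0) (p (nat_lit 0x48512) (nat_lit 0) (p (nat_lit 0x50392) (nat_lit 0) (p (nat_lit 0x38312) (nat_lit 0) (p (nat_lit 0x40212) (nat_lit 0) (p (nat_lit 0x28192) (nat_lit 0) (p (nat_lit 0x30092) (nat_lit 0) (p (nat_lit 0x18012) (nat_lit 0) pn))))))))))) :=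
  Cl.node (nat_lit 0x686070502) (nat_lit 1) (by decide +kernel) (ClAll.succ ClAll.zero n128)

def n130 : Cl (O (nat_lit 3)) (R (nat_lit 139473))
    (p (nat_lit 0x585048402) (nat_lit 0) (p (nat_lit 0x160014) (nat_lit 0) (p (nat_lit 0x60592) (nat_lit 0) (p (nat_lit 0x48512) (nat_lit 0) (p (nat_lit 0x50392) (nat_lit 0) (p (nat_lit 0x38312) (nat_lit 0) (p (nat_lit 0x40212) (nat_lit 0) (p (nat_lit 0x28192) (nat_lit 0) (p (nat_lit 0x30092) (nat_lit 0) (p (nat_lit 0x18012) (nat_lit 0) pn)))))))))) :=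
  Cl.node (nat_lit 0x8605850482) (nat_lit 1) (by decide +kernel) (ClAll.succ ClAll.zero n129)

def n131 : Cl (O (nat_lit 3)) (R (nat_lit 139473))
    (p (nat_lit 0x160014) (nat_lit 0) (p (nat_lit 0x60592) (nat_lit 0) (p (nat_lit 0x48512) (nat_lit 0) (p (nat_lit 0x50392) (nat_lit 0) (p (nat_lit 0x38312) (nat_lit 0) (p (nat_lit 0x40212) (nat_lit 0) (p (nat_lit 0x28192) (nat_lit 0) (p (nat_lit 0x30092) (nat_lit 0) (p (nat_lit 0x18012) (nat_lit 0) pn))))))))) :=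
  Cl.node (nat_lit 0x585048402) (nat_lit 1) (by decide +kernel) (ClAll.succ ClAll.zero n130)

def n132 : Cl (O (nat_lit 3)) (R (nat_lit 139473))
    (p (nat_lit 0x60592) (nat_lit 0) (p (nat_lit 0x48512) (nat_lit 0) (p (nat_lit 0x50392) (nat_lit 0) (p (nat_lit 0x38312) (nat_lit 0) (p (nat_lit 0x40212) (nat_lit 0) (p (nat_lit 0x28192) (nat_lit 0) (p (nat_lit 0x30092) (nat_lit 0) (p (nat_lit 0x18012) (nat_lit 0) pn)))))))) :=
  Cl.node (nat_lit 0x160014) (nat_lit 2) (by decide +kernel) (ClAll.succ (ClAll.succ ClAll.zero n131) s123)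

def n133 : Cl (O (nat_lit 3)) (R (nat_lit 139473))
    (p (nat_lit 0x48512) (nat_lit 0) (p (nat_lit 0x50392) (nat_lit 0) (p (nat_lit 0x38312) (nat_lit 0) (p (nat_lit 0x40212) (nat_lit 0) (p (nat_lit 0x28192) (nat_lit 0) (p (nat_lit 0x30092) (nat_lit 0) (p (nat_lit 0x18012) (nat_lit 0) pn))))))) :=
  Cl.node (nat_lit 0x60592) (nat_lit 1) (by decide +kernel) (ClAll.succ ClAll.zero n132)

def n134 : Cl (O (nat_lit 3)) (R (nat_lit 139473))
    (p (nat_lit 0x50392) (nat_lit 0) (p (nat_lit 0x38312) (nat_lit 0) (p (nat_lit 0x40212) (nat_lit 0) (p (nat_lit 0x28192) (nat_lit 0) (p (nat_lit 0x30092) (nat_lit 0) (p (nat_lit 0x18012) (nat_lit 0) pn)))))) :=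
  Cl.node (nat_lit 0x48512) (nat_lit 1) (by decide +kernel) (ClAll.succ ClAll.zero n133)

def n135 : Cl (O (nat_lit 3)) (R (nat_lit 139473))
    (p (nat_lit 0x38312) (nat_lit 0) (p (nat_lit 0x40212) (nat_lit 0) (p (nat_lit 0x28192) (nat_lit 0) (p (nat_lit 0x30092) (nat_lit 0) (p (nat_lit 0x18012) (nat_lit 0) pn))))) :=
  Cl.node (nat_lit 0x50392) (nat_lit 1) (by decide +kernel) (ClAll.succ ClAll.zero n134)

def n136 : Cl (O (nat_lit 3)) (R (nat_lit 139473))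
    (p (nat_lit 0x40212) (nat_lit 0) (p (nat_lit 0x28192) (nat_lit 0) (p (nat_lit 0x30092) (nat_lit 0) (p (nat_lit 0x18012) (nat_lit 0) pn)))) :=
  Cl.node (nat_lit 0x38312) (nat_lit 1) (by decide +kernel) (ClAll.succ ClAll.zero n135)

def n137 : Cl (O (nat_lit 3)) (R (nat_lit 139473))
    (p (nat_lit 0x28192) (nat_lit 0) (p (nat_lit 0x30092) (nat_lit 0) (p (nat_lit 0x18012) (nat_lit 0) pn))) :=
  Cl.node (nat_lit 0x40212) (nat_lit 1) (by decide +kernel) (ClAll.succ ClAll.zero n136)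

def n138 : Cl (O (nat_lit 3)) (R (nat_lit 139473))
    (p (nat_lit 0x30092) (nat_lit 0) (p (nat_lit 0x18012) (nat_lit 0) pn)) :=
  Cl.node (nat_lit 0x28192) (nat_lit 1) (by decide +kernel) (ClAll.succ ClAll.zero n137)

def n139 : Cl (O (nat_lit 3)) (R (nat_lit 139473))
    (p (nat_lit 0x18012) (nat_lit 0) pn) :=
  Cl.node (nat_lit 0x30092) (nat_lit 1) (by decide +kernel) (ClAll.succ ClAll.zero n138)

def n140 : Cl (O (nat_lit 3)) (R (nat_lit 139473))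
    pn :=
  Cl.node (nat_lit 0x18012) (nat_lit 1) (by decide +kernel) (ClAll.succ ClAll.zero n139)

theorem top : Cl (O (nat_lit 3)) (R (nat_lit 139473)) pn := n140

end Pool.Agent.Gen.F5.X123C2Dm3
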